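import Pool.Agent.H93.Local

set_option autoImplicit false

/-!
# Finite places above unramified primes
-/

namespace Pool.Agent.H93

open NumberField Height Function

variable {K : Type*} [Field K] [NumberField K]

/-- If the prime `p` does not divide the discriminant, `p` is a uniformizer at every place above
it. -/
theorem finitePlace_le_of_unramified {p : ℕ} (hp : p.Prime) (hdisc : ¬ (p : ℤ) ∣ discr K)
    (v : FinitePlace K) (hv : v (p : K) < 1) {x : K} (hx : v x < 1) : v x ≤ v (p : K) := by
  rcases eq_or_ne x 0 with rfl | hx0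
  · simp
  by_contra hcon
  push Not at hcon
  have hpK : (p : K) ≠ 0 := Nat.cast_ne_zero.mpr hp.ne_zero
  set P := v.maximalIdeal with hP
  have hN := HeightOneSpectrum.one_lt_absNorm_nnreal P
  have hval : ∀ y : K, v y = (WithZeroMulInt.toNNReal (Ideal.absNorm_ne_zero_of_nonZeroDivisors
      ⟨P.asIdeal, mem_nonZeroDivisors_of_ne_zero P.ne_bot⟩ |> fun h ↦ (Nat.cast_ne_zero.mpr h))
        (P.valuation K y) : NNReal) := by
    intro y
    rw [← FinitePlace.norm_embedding_eq v y, FinitePlace.norm_embedding']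
  have hmono := WithZeroMulInt.toNNReal_strictMono hN
  rw [hval, hval] at hcon
  rw [hval] at hx
  have hcon' : P.valuation K (p : K) < P.valuation K x := by
    by_contra h
    push Not at h
    exact absurd hcon (not_lt.mpr (NNReal.coe_le_coe.mpr (hmono.monotone h)))
  have hx' : P.valuation K x < 1 := by
    by_contra h
    push Not at h
    have := hmono.monotone h
    rw [map_one] at this
    have h' : ((1 : NNReal) : ℝ) ≤ _ := NNReal.coe_le_coe.mpr this
    simp only [NNReal.coe_one] at h'
    exact absurd hx (not_lt.mpr h')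
  have hnx : P.valuation K x ≠ 0 := (Valuation.ne_zero_iff _).mpr hx0
  have hnp : P.valuation K (p : K) ≠ 0 := (Valuation.ne_zero_iff _).mpr hpK
  have hle : P.valuation K (p : K) ≤ WithZero.exp (-(2 : ℕ) : ℤ) := by
    rw [← WithZero.exp_log hnx] at hcon' hx'
    rw [← WithZero.exp_log hnp] at hcon' ⊢
    rw [WithZero.exp_lt_exp] at hcon'
    rw [← WithZero.exp_zero, WithZero.exp_lt_exp] at hx'
    rw [WithZero.exp_le_exp]
    push_cast
    lia
  have hcast : P.valuation K (p : K) = P.intValuation (p : 𝓞 K) := by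
    have h0 := IsDedekindDomain.HeightOneSpectrum.valuation_of_algebraMap (K := K) P (p : 𝓞 K)
    have h00 : algebraMap (𝓞 K) K (p : 𝓞 K) = (p : K) := map_natCast _ p
    exact (congrArg (P.valuation K) h00.symm).trans h0
  rw [hcast, P.intValuation_le_pow_iff_dvd] at hle
  have hpint : (Ideal.span {(p : ℤ)}) ≠ ⊥ := by
    rw [Ne, Ideal.span_singleton_eq_bot]
    exact_mod_cast hp.ne_zero
  have hfact : Fact p.Prime := ⟨hp⟩
  have hmax : (Ideal.span {(p : ℤ)}).IsMaximal := Int.ideal_span_isMaximal_of_prime p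
  have hmap : (Ideal.span {(p : ℤ)}).map (algebraMap ℤ (𝓞 K)) = Ideal.span {(p : 𝓞 K)} := by
    rw [Ideal.map_span, Set.image_singleton, map_natCast]
  have h1 := pow_sub_one_dvd_differentIdeal ℤ P.asIdeal 2 hpint (by rw [hmap]; exact hle)
  have h2 : P.asIdeal ∣ differentIdeal ℤ (𝓞 K) := by simpa using h1
  have h3 := map_dvd Ideal.absNorm h2
  rw [absNorm_differentIdeal K] at h3
  apply hdisc
  rw [← Int.dvd_natAbs]
  norm_cast
  refine dvd_trans ?_ h3
  have h4 := le_absNorm_of_lt_one v hp hv
  have hmem : (p : 𝓞 K) ∈ v.maximalIdeal.asIdeal := by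
    rw [← FinitePlace.norm_lt_one_iff_mem K v.maximalIdeal]
    rw [FinitePlace.norm_embedding_eq]
    simpa using hv
  have hdvd : Ideal.absNorm v.maximalIdeal.asIdeal ∣ p ^ Module.finrank ℚ K := by
    have h1 := Ideal.absNorm_dvd_absNorm_of_le
      ((Ideal.span_singleton_le_iff_mem (I := v.maximalIdeal.asIdeal)).mpr hmem)
    rwa [Ideal.absNorm_span_natCast, RingOfIntegers.rank] at h1
  obtain ⟨k, -, hk⟩ := (Nat.dvd_prime_pow hp).mp hdvd
  have h5 := HeightOneSpectrum.one_lt_absNorm v.maximalIdeal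
  have hk0 : k ≠ 0 := by
    rintro rfl
    rw [hk, pow_zero] at h5
    exact lt_irrefl _ h5
  rw [← hP] at hk
  rw [hk]
  exact dvd_pow_self p hk0

end Pool.Agent.H93
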