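import Pool.Agent.H93.SumZero
import Pool.Agent.H93.Unramified

set_option autoImplicit false

/-!
# Polynomial lower bound for the height of nontrivial Fermat points over any number field
-/

namespace Pool.Agent.H93

open NumberField Height Function

variable {K : Type*} [Field K] [NumberField K]

/-- At every finite place, for `p` unramified, the sum of the coordinates of a Fermat point of
exponent `p` is at most `v p` times the largest coordinate. -/
theorem sum_le_lmax_mul {p : ℕ} (hp : p.Prime) (hdisc : ¬ (p : ℤ) ∣ discr K)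
    (v : FinitePlace K) {a b c : K} (ha : a ≠ 0) (h : a ^ p + b ^ p + c ^ p = 0) :
    v (a + b + c) ≤ lmax v a b c * v (p : K) := by
  have hm := lmax_pos v b c ha
  rcases lt_or_eq_of_le (finitePlace_natCast_le_one v p) with hlt | heq
  · obtain ⟨t, ht, ht0⟩ : ∃ t : K, v t = lmax v a b c ∧ t ≠ 0 := by
      have key : ∀ t : K, v t = lmax v a b c → t ≠ 0 := by
        intro t ht
        rw [← FinitePlace.pos_iff (w := v), ht]
        exact hm
      rcases max_choice (v a) (max (v b) (v c)) with h1 | h1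
      · exact ⟨a, h1.symm, key a h1.symm⟩
      · rcases max_choice (v b) (v c) with h2 | h2
        · have h3 : v b = lmax v a b c := by rw [lmax, h1, h2]
          exact ⟨b, h3, key b h3⟩
        · have h3 : v c = lmax v a b c := by rw [lmax, h1, h2]
          exact ⟨c, h3, key c h3⟩
    have h1 := sum_lt_lmax v hp hlt ha h
    have h2 : v ((a + b + c) / t) < 1 := by rwa [map_div₀, ht, div_lt_one hm]
    have h3 := finitePlace_le_of_unramified hp hdisc v hlt h2
    rw [map_div₀, ht, div_le_iff₀ hm] at h3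
    linarith
  · rw [heq, mul_one]
    exact (fp_add_le _ _ _).trans (max_le ((fp_add_le _ a b).trans
      (max_le (le_lmax₁ _ a b c) (le_lmax₂ _ a b c))) (le_lmax₃ _ a b c))

theorem pow_le_mulHeight_of_sum_ne_zero {p : ℕ} (hp : p.Prime) (hdisc : ¬ (p : ℤ) ∣ discr K)
    {a b c : K} (ha : a ≠ 0) (h : a ^ p + b ^ p + c ^ p = 0) (hsum : a + b + c ≠ 0) :
    (p : ℝ) ^ Module.finrank ℚ K ≤ 3 ^ Module.finrank ℚ K * mulHeight ![a, b, c] := by
  have hpK : (p : K) ≠ 0 := Nat.cast_ne_zero.mpr hp.ne_zero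
  have h1 := one_le_of_local_bounds (vec3_ne_zero b c ha) hsum (by norm_num : (0 : ℝ) ≤ 3)
    (fun v : FinitePlace K ↦ v (p : K)) (FinitePlace.hasFiniteMulSupport hpK)
    (fun w ↦ inf_add3_le w a b c) (fun v ↦ by
      rw [iSup_eq_lmax]
      exact sum_le_lmax_mul hp hdisc v ha h)
  rw [finprod_natCast hp.ne_zero, ← div_eq_mul_inv, le_div_iff₀ (by
    have := hp.pos
    positivity), one_mul] at h1
  exact h1

/-- **Polynomial bound.** -/
theorem polynomial_bound (hω : ¬ ∃ ω : K, IsPrimitiveRoot ω 3) :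
    ∃ B : ℕ, ∀ p : ℕ, p.Prime → B < p → ∀ a b c : K, a ≠ 0 → b ≠ 0 → c ≠ 0 →
      a ^ p + b ^ p + c ^ p = 0 → a + b + c ≠ 0 ∧
      (p : ℝ) ^ Module.finrank ℚ K ≤ 3 ^ Module.finrank ℚ K * mulHeight ![a, b, c] := by
  obtain ⟨B, hB⟩ := sum_zero_line hω
  refine ⟨max B (discr K).natAbs, fun p hp hBp a b c ha hb hc h ↦ ?_⟩
  have h1 : B < p := (le_max_left _ _).trans_lt hBp
  have h2 : (discr K).natAbs < p := (le_max_right _ _).trans_lt hBp
  have hdisc : ¬ (p : ℤ) ∣ discr K := by
    intro h3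
    rw [Int.natCast_dvd] at h3
    have h4 : (discr K).natAbs ≠ 0 := Int.natAbs_ne_zero.mpr (discr_ne_zero K)
    exact absurd (Nat.le_of_dvd (Nat.pos_of_ne_zero h4) h3) (not_le.mpr h2)
  have hsum : a + b + c ≠ 0 := fun h0 ↦ hB p hp h1 a b c ha hb hc h0 h
  exact ⟨hsum, pow_le_mulHeight_of_sum_ne_zero hp hdisc ha h hsum⟩

end Pool.Agent.H93
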