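import Pool.Agent.H93.Local

set_option autoImplicit false

/-!
# Global consequences: exponential lower bound unless the three sums are units
-/

namespace Pool.Agent.H93

open NumberField Height Function

variable {K : Type*} [Field K] [NumberField K]

omit [NumberField K] in
theorem vec3_ne_zero {a : K} (b c : K) (ha : a ≠ 0) : (![a, b, c] : Fin 3 → K) ≠ 0 := by
  intro h
  exact ha (by simpa using congrFun h 0)

omit [NumberField K] in
theorem ip_add_le (v : InfinitePlace K) (a b : K) : v (a + b) ≤ v a + v b :=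
  v.1.add_le a b

omit [NumberField K] in
/-- Infinite analogue of `lmax`. -/
theorem inf_add_le (v : InfinitePlace K) (a b c : K) :
    v (a + b) ≤ 2 * ⨆ i, v (![a, b, c] i) := by
  rw [iSup_eq_max3]
  have h1 : v (a + b) ≤ v a + v b := ip_add_le v a b
  have h2 : v a ≤ max (v a) (max (v b) (v c)) := le_max_left _ _
  have h3 : v b ≤ max (v a) (max (v b) (v c)) := (le_max_left _ _).trans (le_max_right _ _)
  linarith

omit [NumberField K] in
theorem inf_add3_le (v : InfinitePlace K) (a b c : K) :
    v (a + b + c) ≤ 3 * ⨆ i, v (![a, b, c] i) := by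
  rw [iSup_eq_max3]
  have h0 : v (a + b + c) ≤ v (a + b) + v c := ip_add_le v (a + b) c
  have h1 : v (a + b) ≤ v a + v b := ip_add_le v a b
  have h2 : v a ≤ max (v a) (max (v b) (v c)) := le_max_left _ _
  have h3 : v b ≤ max (v a) (max (v b) (v c)) := (le_max_left _ _).trans (le_max_right _ _)
  have h4 : v c ≤ max (v a) (max (v b) (v c)) := (le_max_right _ _).trans (le_max_right _ _)
  linarith

/-- If at some finite place the sum `a + b` is smaller than the largest coordinate then the
height of the Fermat point is at least exponential in `p`. -/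
theorem two_pow_le_of_lt {p : ℕ} (hp : p.Prime) (h5 : 5 ≤ p)
    (hd : 2 * Module.finrank ℚ K ≤ p) {a b c : K} (ha : a ≠ 0) (hc : c ≠ 0)
    (h : a ^ p + b ^ p + c ^ p = 0) (v : FinitePlace K) (hlt : v (a + b) < lmax v a b c) :
    (2 : ℝ) ^ p ≤ 2 ^ Module.finrank ℚ K * mulHeight ![a, b, c] := by
  classical
  have hodd : Odd p := hp.odd_of_ne_two (by lia)
  have hab0 : a + b ≠ 0 := by
    intro h0
    have hb : b = -a := by linear_combination h0
    rw [hb, hodd.neg_pow, add_neg_cancel, zero_add] at h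
    exact hc (pow_eq_zero_iff hp.ne_zero |>.mp h)
  have hv := sum_le_of_lt v hp h5 hd hc h hlt
  set β : FinitePlace K → ℝ := Function.update (1 : FinitePlace K → ℝ) v ((2 : ℝ) ^ p)⁻¹ with hβ
  have hfin2 : β.HasFiniteMulSupport := by
    refine (Set.finite_singleton v).subset fun w hw ↦ ?_
    by_contra hne
    apply hw
    rw [hβ, Function.update_of_ne hne]
    rfl
  have hprod : ∏ᶠ w, β w = ((2 : ℝ) ^ p)⁻¹ := by
    rw [finprod_eq_single _ v (fun w hw ↦ by rw [hβ, Function.update_of_ne hw]; rfl)]
    rw [hβ, Function.update_self]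
  have hfin : ∀ w : FinitePlace K, w (a + b) ≤ (⨆ i, w (![a, b, c] i)) * β w := by
    intro w
    rw [iSup_eq_lmax]
    by_cases hw : w = v
    · subst hw
      rw [hβ, Function.update_self]
      exact hv
    · rw [hβ, Function.update_of_ne hw, Pi.one_apply, mul_one]
      exact (fp_add_le w a b).trans (max_le (le_lmax₁ w a b c) (le_lmax₂ w a b c))
  have := one_le_of_local_bounds (vec3_ne_zero b c ha) hab0 (by norm_num : (0 : ℝ) ≤ 2) β hfin2
    (fun w ↦ inf_add_le w a b c) hfin
  rw [hprod, ← div_eq_mul_inv, le_div_iff₀ (by positivity), one_mul] at this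
  exact this

theorem mulHeight_rot (a b c : K) : mulHeight ![a, b, c] = mulHeight ![b, c, a] := by
  rw [← mulHeight_comp_equiv (finRotate 3) ![a, b, c]]
  congr 1
  ext i
  fin_cases i <;> rfl

/-- **Dichotomy.** A nontrivial Fermat point of large prime exponent either has exponentially
large height, or at every finite place all three pairwise sums are as large as the largest
coordinate. -/
theorem dichotomy {p : ℕ} (hp : p.Prime) (h5 : 5 ≤ p)
    (hd : 2 * Module.finrank ℚ K ≤ p) {a b c : K} (ha : a ≠ 0) (hb : b ≠ 0) (hc : c ≠ 0)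
    (h : a ^ p + b ^ p + c ^ p = 0) :
    (2 : ℝ) ^ p ≤ 2 ^ Module.finrank ℚ K * mulHeight ![a, b, c] ∨
      ∀ v : FinitePlace K, v (a + b) = lmax v a b c ∧ v (b + c) = lmax v a b c ∧
        v (c + a) = lmax v a b c := by
  by_cases h0 : (2 : ℝ) ^ p ≤ 2 ^ Module.finrank ℚ K * mulHeight ![a, b, c]
  · exact Or.inl h0
  right
  intro v
  have h1 : b ^ p + c ^ p + a ^ p = 0 := by linear_combination h
  have h2 : c ^ p + a ^ p + b ^ p = 0 := by linear_combination h
  refine ⟨?_, ?_, ?_⟩
  · by_contra hne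
    refine h0 (two_pow_le_of_lt hp h5 hd ha hc h v (lt_of_le_of_ne ?_ hne))
    exact (fp_add_le v a b).trans (max_le (le_lmax₁ v a b c) (le_lmax₂ v a b c))
  · by_contra hne
    rw [lmax_rot] at hne
    rw [mulHeight_rot] at h0
    refine h0 (two_pow_le_of_lt hp h5 hd hb ha h1 v (lt_of_le_of_ne ?_ hne))
    exact (fp_add_le v b c).trans (max_le (le_lmax₁ v b c a) (le_lmax₂ v b c a))
  · by_contra hne
    rw [lmax_rot, lmax_rot] at hne
    rw [mulHeight_rot, mulHeight_rot] at h0
    refine h0 (two_pow_le_of_lt hp h5 hd hc hb h2 v (lt_of_le_of_ne ?_ hne))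
    exact (fp_add_le v c a).trans (max_le (le_lmax₁ v c a b) (le_lmax₂ v c a b))

/-- An element all of whose finite absolute values are `1` is a unit of the ring of integers. -/
theorem exists_unit_of_finitePlace_eq_one {x : K} (hx : x ≠ 0)
    (h : ∀ v : FinitePlace K, v x = 1) : ∃ u : (𝓞 K)ˣ, ((u : 𝓞 K) : K) = x := by
  have key : ∀ y : K, y ≠ 0 → (∀ v : FinitePlace K, v y = 1) → ∃ z : 𝓞 K, (z : K) = y := by
    intro y hy hv
    have : y ∈ (algebraMap (𝓞 K) K).range := by
      refine IsDedekindDomain.HeightOneSpectrum.mem_integers_of_valuation_le_one K y fun w ↦ ?_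
      have h1 := hv (FinitePlace.mk w)
      rw [FinitePlace.mk_apply, FinitePlace.norm_embedding'] at h1
      have hN := HeightOneSpectrum.one_lt_absNorm_nnreal w
      have h2 := (WithZeroMulInt.toNNReal_le_one_iff (m := w.valuation K y) hN).mp
      apply h2
      rw [← NNReal.coe_le_coe, NNReal.coe_one]
      exact h1.le
    obtain ⟨z, hz⟩ := this
    exact ⟨z, hz⟩
  obtain ⟨z, hz⟩ := key x hx h
  obtain ⟨z', hz'⟩ := key x⁻¹ (inv_ne_zero hx) (fun v ↦ by rw [map_inv₀, h v, inv_one])
  have h1 : z * z' = 1 := by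
    apply RingOfIntegers.ext
    have h2 : ((z * z' : 𝓞 K) : K) = (z : K) * (z' : K) := by simp
    rw [h2, hz, hz', mul_inv_cancel₀ hx]
    simp
  exact ⟨⟨z, z', h1, by rw [mul_comm]; exact h1⟩, hz⟩

end Pool.Agent.H93
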