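import Pool.Agent.H93.Pade

set_option autoImplicit false

/-!
# A pair of independent integral Padé relations
-/

namespace Pool.Agent.H93

open Polynomial

theorem coeff_top_mul_derivative_sub {N : ℕ} (hN : 1 ≤ N) {B C' : ℤ[X]} (hB : B.natDegree ≤ N)
    (hC : C'.natDegree ≤ N) {j : ℕ} (hj : 2 * N ≤ j + 1) :
    (derivative B * C' - B * derivative C').coeff j = 0 := by
  have hB' : (derivative B).natDegree ≤ N - 1 := (natDegree_derivative_le B).trans (by lia)
  have hC'' : (derivative C').natDegree ≤ N - 1 := (natDegree_derivative_le C').trans (by lia)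
  rw [coeff_sub]
  rcases Nat.lt_or_ge (2 * N) (j + 1 + 1) with h1 | h1
  · rcases Nat.lt_or_ge (2 * N) (j + 1) with h2 | h2
    · have e1 : (derivative B * C').coeff j = 0 :=
        coeff_eq_zero_of_natDegree_lt ((natDegree_mul_le).trans_lt (by lia))
      have e2 : (B * derivative C').coeff j = 0 :=
        coeff_eq_zero_of_natDegree_lt ((natDegree_mul_le).trans_lt (by lia))
      rw [e1, e2, sub_zero]
    · have hj' : j = (N - 1) + N := by lia
      have hj'' : j = N + (N - 1) := by lia
      have e1 : (derivative B * C').coeff j = (derivative B).coeff (N - 1) * C'.coeff N := by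
        rw [hj']
        exact coeff_mul_add_eq_of_natDegree_le hB' hC
      have e2 : (B * derivative C').coeff j = B.coeff N * (derivative C').coeff (N - 1) := by
        rw [hj'']
        exact coeff_mul_add_eq_of_natDegree_le hB hC''
      rw [e1, e2, coeff_derivative, coeff_derivative, Nat.sub_add_cancel hN]
      ring
  · lia

theorem exists_pade_pair (N : ℕ) (hN : 1 ≤ N) : ∃ S T : Fin 3 → ℤ[X], ∃ D : ℤ, D ≠ 0 ∧
    (∀ i, (S i).natDegree ≤ N + 1) ∧ (∀ i, (T i).natDegree ≤ N + 1) ∧
    (∀ i, l1 (S i) ≤ 3500 ^ N) ∧ (∀ i, l1 (T i) ≤ 3500 ^ N) ∧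
    X ^ (2 * N + 1) * S 0 + S 2 = (1 + X) ^ (2 * N + 1) * S 1 ∧
    X ^ (2 * N + 1) * T 0 + T 2 = (1 + X) ^ (2 * N + 1) * T 1 ∧
    S 0 * T 1 - S 1 * T 0 = C D := by
  obtain ⟨A, B, C', hA, hB, hC, lA, lB, lC, hBN, hCN, hrel⟩ := exists_pade N hN
  -- size estimates
  have hfac : (0 : ℝ) < N.factorial := by exact_mod_cast N.factorial_pos
  have hN1 : (1 : ℝ) ≤ N := by exact_mod_cast hN
  have hexp : (N : ℝ) ^ N / N.factorial ≤ Real.exp 1 ^ N := by
    have := Real.pow_div_factorial_le_exp (N : ℝ) (by positivity) N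
    rwa [← Real.exp_nat_mul, mul_one]
  have hL : (2 : ℝ) ^ (3 * N + 1) * (9 * N + 1 : ℝ) ^ N / N.factorial ≤
      2 * (80 * Real.exp 1) ^ N := by
    have h1 : (9 * N + 1 : ℝ) ^ N ≤ (10 * N) ^ N := by
      refine pow_le_pow_left₀ (by positivity) (by linarith) N
    calc (2 : ℝ) ^ (3 * N + 1) * (9 * N + 1 : ℝ) ^ N / N.factorial
        ≤ (2 : ℝ) ^ (3 * N + 1) * (10 * N : ℝ) ^ N / N.factorial := by gcongr
      _ = 2 * 80 ^ N * ((N : ℝ) ^ N / N.factorial) := by
          rw [mul_pow, pow_succ, pow_mul]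
          have : (80 : ℝ) ^ N = 8 ^ N * 10 ^ N := by rw [← mul_pow]; norm_num
          rw [this]
          norm_num
          ring
      _ ≤ 2 * 80 ^ N * Real.exp 1 ^ N := by gcongr
      _ = _ := by rw [mul_pow]; ring
  set L : ℝ := 2 * (80 * Real.exp 1) ^ N with hLdef
  have hL0 : 0 ≤ L := by positivity
  have h16 : 8 * (N : ℝ) * L ≤ 3500 ^ N := by
    have h1 : 16 * (N : ℝ) ≤ 16 ^ N := by
      obtain ⟨M, rfl⟩ : ∃ M, N = M + 1 := ⟨N - 1, by lia⟩
      have h2 : ((M + 1 : ℕ) : ℝ) ≤ 16 ^ M := by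
        have : M + 1 ≤ 16 ^ M := Nat.lt_pow_self (by norm_num)
        exact_mod_cast this
      calc 16 * ((M + 1 : ℕ) : ℝ) ≤ 16 * 16 ^ M := by gcongr
        _ = _ := by rw [pow_succ]; ring
    have h3 : (16 * (80 * Real.exp 1)) ≤ 3500 := by
      have := Real.exp_one_lt_d9
      linarith
    calc 8 * (N : ℝ) * L = (16 * N) * (80 * Real.exp 1) ^ N := by rw [hLdef]; ring
      _ ≤ 16 ^ N * (80 * Real.exp 1) ^ N := by gcongr
      _ = (16 * (80 * Real.exp 1)) ^ N := (mul_pow _ _ _).symm
      _ ≤ 3500 ^ N := by gcongr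
  have hLle : L ≤ 3500 ^ N := by
    refine le_trans ?_ h16
    have : 0 ≤ (8 * (N : ℝ) - 1) * L := mul_nonneg (by linarith) hL0
    linarith
  have h59 : (5 * N + 1 : ℝ) ^ N ≤ (9 * N + 1 : ℝ) ^ N :=
    pow_le_pow_left₀ (by positivity) (by linarith) N
  have lA' : l1 A ≤ L := by
    refine lA.trans (le_trans ?_ hL)
    gcongr
  have lC' : l1 C' ≤ L := by
    refine lC.trans (le_trans ?_ hL)
    gcongr
  have lB' : l1 B ≤ L := by
    refine lB.trans (le_trans ?_ hL)
    have h2 : (1 : ℝ) ≤ 2 ^ (3 * N + 1) := one_le_pow₀ (by norm_num)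
    have h3 : (0 : ℝ) ≤ (9 * N + 1 : ℝ) ^ N := by positivity
    gcongr
    nlinarith
  have hA0 := l1_nonneg A
  have hB0 := l1_nonneg B
  have hC0 := l1_nonneg C'
  -- derivative relation
  set n : ℕ := 2 * N + 1 with hn
  have hder : (n : ℤ[X]) * (1 + X) ^ (n - 1) * B + (1 + X) ^ n * derivative B =
      derivative C' + ((n : ℤ[X]) * X ^ (n - 1) * A + X ^ n * derivative A) := by
    have := congrArg derivative hrel
    rw [derivative_mul, derivative_add, derivative_mul, derivative_pow, derivative_X_pow,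
      derivative_add, derivative_one, derivative_X, zero_add, mul_one] at this
    simpa only [map_natCast] using this
  have hn1 : n = (n - 1) + 1 := by lia
  have hder2 : (1 + X) ^ n * (X * ((n : ℤ[X]) * B + (1 + X) * derivative B)) =
      X * (1 + X) * derivative C' + X ^ n * ((1 + X) * ((n : ℤ[X]) * A + X * derivative A)) := by
    have h1 : (1 + X : ℤ[X]) ^ n = (1 + X) ^ (n - 1) * (1 + X) := by
      conv_lhs => rw [hn1, pow_succ]
    have h2 : (X : ℤ[X]) ^ n = X ^ (n - 1) * X := by
      conv_lhs => rw [hn1, pow_succ]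
    rw [h1, h2] at hder ⊢
    linear_combination (X * (1 + X)) * hder
  -- the second relation `E = X ^ (2N) D`
  set D : ℤ[X] := (n : ℤ[X]) * A * B + X * (1 + X) * (derivative A * B - A * derivative B) with hD
  set E : ℤ[X] := (n : ℤ[X]) * B * C' + (1 + X) * (derivative B * C' - B * derivative C') with hE
  have hED : E = X ^ (2 * N) * D := by
    have hX : (X : ℤ[X]) * E = X * (X ^ (2 * N) * D) := by
      have h2 : (X : ℤ[X]) ^ n = X ^ (2 * N) * X := by rw [hn, pow_succ]
      rw [h2] at hrel hder2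
      rw [hE, hD]
      linear_combination B * hder2 - X * ((n : ℤ[X]) * B + (1 + X) * derivative B) * hrel
    exact mul_left_cancel₀ X_ne_zero hX
  have hEcoeff : ∀ j, 2 * N ≤ j → E.coeff j = (n : ℤ) * (B * C').coeff j := by
    intro j hj
    rw [hE, coeff_add, add_mul (1 : ℤ[X]), one_mul, coeff_add]
    have h1 : (derivative B * C' - B * derivative C').coeff j = 0 :=
      coeff_top_mul_derivative_sub hN hB hC (by lia)
    have h2 : (X * (derivative B * C' - B * derivative C')).coeff j = 0 := by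
      obtain ⟨i, rfl⟩ : ∃ i, j = i + 1 := ⟨j - 1, by lia⟩
      rw [coeff_X_mul]
      exact coeff_top_mul_derivative_sub hN hB hC hj
    rw [h1, h2, add_zero, add_zero, mul_assoc, ← C_eq_natCast, coeff_C_mul]
  have hDcoeff : ∀ j, D.coeff j = E.coeff (j + 2 * N) := by
    intro j
    rw [hED, coeff_X_pow_mul]
  have hDC : D = C ((n : ℤ) * (B.coeff N * C'.coeff N)) := by
    ext j
    rw [hDcoeff, hEcoeff _ (by lia), coeff_C]
    by_cases hj : j = 0
    · subst hj
      rw [if_pos rfl]
      have : 0 + 2 * N = N + N := by ring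
      rw [this, coeff_mul_add_eq_of_natDegree_le hB hC]
    · rw [if_neg hj]
      have : (B * C').coeff (j + 2 * N) = 0 :=
        coeff_eq_zero_of_natDegree_lt ((natDegree_mul_le).trans_lt (by lia))
      rw [this, mul_zero]
  have hd1 := natDegree_one_add_X_le
  have hdA := natDegree_derivative_le A
  have hdB := natDegree_derivative_le B
  have hdC := natDegree_derivative_le C'
  have hnC : (n : ℤ[X]) = C (n : ℤ) := by simp
  have habs : |((n : ℤ) : ℝ)| = 2 * N + 1 := by
    rw [Int.cast_natCast, hn]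
    push_cast
    exact abs_of_nonneg (by positivity)
  -- bounds for the second triple
  have d1 : ((1 + X) * ((n : ℤ[X]) * A + X * derivative A)).natDegree ≤ N + 1 := by
    refine natDegree_mul_le.trans ?_
    have h1 : ((n : ℤ[X]) * A + X * derivative A).natDegree ≤ N := by
      refine (natDegree_add_le _ _).trans (max_le ?_ ?_)
      · rw [hnC]
        exact (natDegree_C_mul_le _ _).trans hA
      · refine natDegree_mul_le.trans ?_
        rw [natDegree_X]; lia
    lia
  have d2 : (X * ((n : ℤ[X]) * B + (1 + X) * derivative B)).natDegree ≤ N + 1 := by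
    refine natDegree_mul_le.trans ?_
    have h1 : ((n : ℤ[X]) * B + (1 + X) * derivative B).natDegree ≤ N := by
      refine (natDegree_add_le _ _).trans (max_le ?_ ?_)
      · rw [hnC]
        exact (natDegree_C_mul_le _ _).trans hB
      · refine natDegree_mul_le.trans ?_
        lia
    rw [natDegree_X]; lia
  have d3 : (X * (1 + X) * derivative C').natDegree ≤ N + 1 := by
    refine natDegree_mul_le.trans ?_
    have h1 : (X * (1 + X) : ℤ[X]).natDegree ≤ 2 := by
      refine natDegree_mul_le.trans ?_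
      rw [natDegree_X]; lia
    lia
  have eA : l1 ((1 + X) * ((n : ℤ[X]) * A + X * derivative A)) ≤ 3500 ^ N := by
    have h1 : l1 ((n : ℤ[X]) * A) = (2 * N + 1) * l1 A := by rw [hnC, l1_C_mul, habs]
    have h2 : l1 (X * derivative A) ≤ N * l1 A := by
      rw [l1_X_mul]
      exact l1_derivative_le A hA
    calc _ ≤ 2 * l1 ((n : ℤ[X]) * A + X * derivative A) := l1_one_add_X_mul_le _
      _ ≤ 2 * (l1 ((n : ℤ[X]) * A) + l1 (X * derivative A)) := by
        gcongr
        exact l1_add_le _ _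
      _ ≤ 2 * ((2 * N + 1) * l1 A + N * l1 A) := by rw [h1]; gcongr
      _ = (6 * N + 2) * l1 A := by ring
      _ ≤ (8 * N) * L := by
        have : (6 * (N : ℝ) + 2) ≤ 8 * N := by linarith
        gcongr
      _ ≤ _ := h16
  have eB : l1 (X * ((n : ℤ[X]) * B + (1 + X) * derivative B)) ≤ 3500 ^ N := by
    have h1 : l1 ((n : ℤ[X]) * B) = (2 * N + 1) * l1 B := by rw [hnC, l1_C_mul, habs]
    have h2 : l1 ((1 + X) * derivative B) ≤ 2 * (N * l1 B) := by
      refine (l1_one_add_X_mul_le _).trans ?_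
      have := l1_derivative_le B hB
      gcongr
    rw [l1_X_mul]
    calc _ ≤ l1 ((n : ℤ[X]) * B) + l1 ((1 + X) * derivative B) := l1_add_le _ _
      _ ≤ (2 * N + 1) * l1 B + 2 * (N * l1 B) := by rw [h1]; gcongr
      _ = (4 * N + 1) * l1 B := by ring
      _ ≤ (8 * N) * L := by
        have : (4 * (N : ℝ) + 1) ≤ 8 * N := by linarith
        gcongr
      _ ≤ _ := h16
  have eC : l1 (X * (1 + X) * derivative C') ≤ 3500 ^ N := by
    rw [mul_assoc, l1_X_mul]
    have h3 := l1_derivative_le C' hC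
    calc _ ≤ 2 * l1 (derivative C') := l1_one_add_X_mul_le _
      _ ≤ 2 * (N * l1 C') := by gcongr
      _ = (2 * N) * l1 C' := by ring
      _ ≤ (8 * N) * L := by
        have : (2 * (N : ℝ)) ≤ 8 * N := by linarith
        gcongr
      _ ≤ _ := h16
  refine ⟨![A, B, C'], ![(1 + X) * ((n : ℤ[X]) * A + X * derivative A),
    X * ((n : ℤ[X]) * B + (1 + X) * derivative B), X * (1 + X) * derivative C'],
    -((n : ℤ) * (B.coeff N * C'.coeff N)), ?_, ?_, ?_, ?_, ?_, ?_, ?_, ?_⟩
  · rw [neg_ne_zero]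
    exact mul_ne_zero (by rw [hn]; positivity) (mul_ne_zero hBN hCN)
  · intro i
    fin_cases i
    · exact hA.trans (by lia)
    · exact hB.trans (by lia)
    · exact hC.trans (by lia)
  · intro i
    fin_cases i
    · exact d1
    · exact d2
    · exact d3
  · intro i
    fin_cases i
    · exact lA'.trans hLle
    · exact lB'.trans hLle
    · exact lC'.trans hLle
  · intro i
    fin_cases i
    · exact eA
    · exact eB
    · exact eC
  · simp only [Matrix.cons_val_zero, Matrix.cons_val_one, Matrix.cons_val]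
    rw [hrel]; ring
  · simp only [Matrix.cons_val_zero, Matrix.cons_val_one, Matrix.cons_val]
    rw [hder2]; ring
  · simp only [Matrix.cons_val_zero, Matrix.cons_val_one]
    rw [C_neg, ← hDC, hD]
    ring

end Pool.Agent.H93
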