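import Pool.Agent.H93.Global
import Pool.Agent.H93.Pade2

set_option autoImplicit false

/-!
# Height estimates from the integral Padé relations
-/

namespace Pool.Agent.H93

open NumberField Height Function

variable {K : Type*} [Field K]

/-- Homogeneous evaluation of an integer polynomial. -/
def hev (P : Polynomial ℤ) (k : ℕ) (x z : K) : K :=
  ∑ i ∈ Finset.range (k + 1), (P.coeff i : K) * (x ^ i * z ^ (k - i))

theorem hev_eq {P : Polynomial ℤ} {k : ℕ} (hP : P.natDegree ≤ k) (x : K) {z : K} (hz : z ≠ 0) :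
    hev P k x z = z ^ k * Polynomial.aeval (x / z) P := by
  rw [Polynomial.aeval_eq_sum_range' (Nat.lt_succ_of_le hP), hev, Finset.mul_sum]
  refine Finset.sum_congr rfl fun i hi ↦ ?_
  have hi' : i ≤ k := Nat.lt_succ_iff.mp (Finset.mem_range.mp hi)
  rw [zsmul_eq_mul, div_pow]
  have h1 : z ^ k = z ^ i * z ^ (k - i) := by rw [← pow_add]; congr 1; lia
  rw [h1]
  have hzi : z ^ i ≠ 0 := pow_ne_zero i hz
  field_simp

theorem sum_abs_mul_pow_le {P : Polynomial ℤ} {k : ℕ} (hP : P.natDegree ≤ k) (v : AbsoluteValue K ℝ)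
    {x z : K} {M : ℝ} (hx : v x ≤ M) (hz : v z ≤ M) (hv : ∀ n : ℤ, v (n : K) ≤ |(n : ℝ)|) :
    v (hev P k x z) ≤ l1 P * M ^ k := by
  have hM : 0 ≤ M := (apply_nonneg v x).trans hx
  rw [hev, l1_eq_sum_range P (Nat.lt_succ_of_le hP), Finset.sum_mul]
  refine (v.sum_le _ _).trans (Finset.sum_le_sum fun i hi ↦ ?_)
  have hi' : i ≤ k := Nat.lt_succ_iff.mp (Finset.mem_range.mp hi)
  rw [map_mul, map_mul, map_pow, map_pow]
  have h1 : v x ^ i * v z ^ (k - i) ≤ M ^ k := by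
    calc v x ^ i * v z ^ (k - i) ≤ M ^ i * M ^ (k - i) := by gcongr
      _ = M ^ k := by rw [← pow_add]; congr 1; lia
  exact mul_le_mul (hv _) h1 (by positivity) (abs_nonneg _)

theorem hev_le_nonarch {P : Polynomial ℤ} {k : ℕ} {v : AbsoluteValue K ℝ}
    (hv : IsNonarchimedean (v ·)) {x z : K} {M : ℝ} (hx : v x ≤ M) (hz : v z ≤ M) :
    v (hev P k x z) ≤ M ^ k := by
  have hM : 0 ≤ M := (apply_nonneg v x).trans hx
  obtain ⟨i, hi, hle⟩ := IsNonarchimedean.finset_image_add_of_nonempty hv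
    (fun i ↦ (P.coeff i : K) * (x ^ i * z ^ (k - i)))
    (⟨0, Finset.mem_range.mpr (Nat.succ_pos k)⟩ : (Finset.range (k + 1)).Nonempty)
  have hi' : i ≤ k := Nat.lt_succ_iff.mp (Finset.mem_range.mp hi)
  rw [hev]
  refine hle.trans ?_
  rw [map_mul, map_mul, map_pow, map_pow]
  have h1 : v x ^ i * v z ^ (k - i) ≤ M ^ k := by
    calc v x ^ i * v z ^ (k - i) ≤ M ^ i * M ^ (k - i) := by gcongr
      _ = M ^ k := by rw [← pow_add]; congr 1; lia
  have h2 : v (P.coeff i : K) ≤ 1 := IsNonarchimedean.apply_intCast_le_one hv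
  calc v (P.coeff i : K) * (v x ^ i * v z ^ (k - i)) ≤ 1 * M ^ k :=
      mul_le_mul h2 h1 (by positivity) zero_le_one
    _ = M ^ k := one_mul _

/-- Cross product. -/
def cross (a b : Fin 3 → K) : Fin 3 → K :=
  ![a 1 * b 2 - a 2 * b 1, a 2 * b 0 - a 0 * b 2, a 0 * b 1 - a 1 * b 0]

theorem cross_zero_of (a b : Fin 3 → K) (h0 : a 1 * b 2 - a 2 * b 1 = 0)
    (h1 : a 2 * b 0 - a 0 * b 2 = 0) (h2 : a 0 * b 1 - a 1 * b 0 = 0) : cross a b = 0 := by
  ext i
  fin_cases i <;> simp [cross, h0, h1, h2]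

/-- If `y` is orthogonal to `a` and `b` and `cross a b ≠ 0`, then `y` is a multiple of
`cross a b`. -/
theorem exists_smul_cross {a b y : Fin 3 → K} (hy : y ≠ 0)
    (ha : a 0 * y 0 + a 1 * y 1 + a 2 * y 2 = 0) (hb : b 0 * y 0 + b 1 * y 1 + b 2 * y 2 = 0)
    (hab : cross a b ≠ 0) : ∃ c : K, c ≠ 0 ∧ y = c • cross a b := by
  obtain ⟨i, hi⟩ := Function.ne_iff.mp hab
  have hi' : cross a b i ≠ 0 := hi
  set w := cross a b with hw
  have w0 : w 0 = a 1 * b 2 - a 2 * b 1 := rfl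
  have w1 : w 1 = a 2 * b 0 - a 0 * b 2 := rfl
  have w2 : w 2 = a 0 * b 1 - a 1 * b 0 := rfl
  have e01 : y 0 * w 1 = y 1 * w 0 := by
    rw [w0, w1]; linear_combination (-b 2) * ha + (a 2) * hb
  have e02 : y 0 * w 2 = y 2 * w 0 := by
    rw [w0, w2]; linear_combination (b 1) * ha - (a 1) * hb
  have e12 : y 1 * w 2 = y 2 * w 1 := by
    rw [w1, w2]; linear_combination (-b 0) * ha + (a 0) * hb
  have key : ∀ j : Fin 3, y j * w i = y i * w j := by
    intro j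
    fin_cases i <;> fin_cases j <;>
      simp only [Fin.zero_eta, Fin.mk_one, Fin.reduceFinMk] <;>
      first | rfl | exact e01 | exact e01.symm | exact e02 | exact e02.symm | exact e12 |
        exact e12.symm
  have hyeq : y = (y i / w i) • w := by
    ext j
    rw [Pi.smul_apply, smul_eq_mul, div_mul_eq_mul_div, ← key j, mul_div_assoc, div_self hi',
      mul_one]
  refine ⟨y i / w i, ?_, hyeq⟩
  intro h0
  rw [h0, zero_smul] at hyeq
  exact hy hyeq

variable [NumberField K]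

/-- Comparison of heights from local comparisons. -/
theorem mulHeight_le_of_local {w ξ x : Fin 3 → K} (hw : w ≠ 0) (hξ : ξ ≠ 0) (hx : x ≠ 0) {C : ℝ}
    (hC : 0 ≤ C) (k : ℕ)
    (hinf : ∀ v : InfinitePlace K, ∀ i, v (w i) ≤ C * ((⨆ j, v (ξ j)) * (⨆ j, v (x j)) ^ k))
    (hfin : ∀ v : FinitePlace K, ∀ i, v (w i) ≤ (⨆ j, v (ξ j)) * (⨆ j, v (x j)) ^ k) :
    mulHeight w ≤ C ^ (Module.finrank ℚ K) * (mulHeight ξ * mulHeight x ^ k) := by
  rw [NumberField.mulHeight_eq hw, NumberField.mulHeight_eq hξ, NumberField.mulHeight_eq hx]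
  have h0 : ∀ (v : FinitePlace K) (y : Fin 3 → K), 0 ≤ ⨆ i, v (y i) := fun v y ↦
    Real.iSup_nonneg fun i ↦ apply_nonneg v _
  have h0i : ∀ (v : InfinitePlace K) (y : Fin 3 → K), 0 ≤ ⨆ i, v (y i) := fun v y ↦
    Real.iSup_nonneg fun i ↦ apply_nonneg v _
  have h1 : (∏ v : InfinitePlace K, (⨆ i, v (w i)) ^ v.mult) ≤
      ∏ v : InfinitePlace K, (C * ((⨆ j, v (ξ j)) * (⨆ j, v (x j)) ^ k)) ^ v.mult := by
    refine Finset.prod_le_prod (fun v _ ↦ pow_nonneg (h0i v w) _) fun v _ ↦ ?_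
    exact pow_le_pow_left₀ (h0i v w) (ciSup_le fun i ↦ hinf v i) _
  have h2 : (∏ v : InfinitePlace K, (C * ((⨆ j, v (ξ j)) * (⨆ j, v (x j)) ^ k)) ^ v.mult) =
      C ^ (Module.finrank ℚ K) * ((∏ v : InfinitePlace K, (⨆ j, v (ξ j)) ^ v.mult) *
        (∏ v : InfinitePlace K, (⨆ j, v (x j)) ^ v.mult) ^ k) := by
    simp_rw [mul_pow]
    rw [Finset.prod_mul_distrib, Finset.prod_pow_eq_pow_sum, InfinitePlace.sum_mult_eq,
      Finset.prod_mul_distrib]
    congr 2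
    rw [← Finset.prod_pow]
    refine Finset.prod_congr rfl fun v _ ↦ ?_
    rw [← pow_mul, ← pow_mul, mul_comm]
  have hs := hasFiniteMulSupport_iSup (K := K) hξ
  have hsx := hasFiniteMulSupport_iSup (K := K) hx
  have h3 : (∏ᶠ v : FinitePlace K, ⨆ i, v (w i)) ≤
      ∏ᶠ v : FinitePlace K, ((⨆ j, v (ξ j)) * (⨆ j, v (x j)) ^ k) := by
    refine finprod_le_finprod (hasFiniteMulSupport_iSup hw) (fun v ↦ h0 v w) ?_
      (fun v ↦ ciSup_le fun i ↦ hfin v i)
    exact hs.mul (hsx.pow k)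
  have h4 : (∏ᶠ v : FinitePlace K, ((⨆ j, v (ξ j)) * (⨆ j, v (x j)) ^ k)) =
      (∏ᶠ v : FinitePlace K, ⨆ j, v (ξ j)) * (∏ᶠ v : FinitePlace K, ⨆ j, v (x j)) ^ k := by
    have h5 := finprod_mul_distrib hs (hsx.pow k)
    simp only [Pi.pow_apply] at h5
    rw [h5, finprod_pow hsx]
  rw [h2] at h1
  rw [h4] at h3
  have h6 : 0 ≤ C ^ (Module.finrank ℚ K) *
      ((∏ v : InfinitePlace K, (⨆ j, v (ξ j)) ^ v.mult) *
        (∏ v : InfinitePlace K, (⨆ j, v (x j)) ^ v.mult) ^ k) := by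
    refine mul_nonneg (pow_nonneg hC _) (mul_nonneg ?_ (pow_nonneg ?_ _))
    · exact Finset.prod_nonneg fun v _ ↦ pow_nonneg (h0i v ξ) _
    · exact Finset.prod_nonneg fun v _ ↦ pow_nonneg (h0i v x) _
  refine (mul_le_mul h1 h3 (finprod_nonneg fun v ↦ h0 v w) h6).trans (le_of_eq ?_)
  ring

/-- **Lemma P.** If `x₀ + x₁ + x₂ = 0` and `ξ₀ x₀ ^ n + ξ₁ x₁ ^ n + ξ₂ x₂ ^ n = 0` with
`n = 2 N + 1`, then `H(x) ^ N ≤ 7000 ^ (N d) H(ξ)`. -/
theorem pade_height {N : ℕ} (hN : 1 ≤ N) {x : Fin 3 → K} (hx : ∀ i, x i ≠ 0)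
    (hsum : x 0 + x 1 + x 2 = 0) {ξ : Fin 3 → K} (hξ : ξ ≠ 0)
    (h : ξ 0 * x 0 ^ (2 * N + 1) + ξ 1 * x 1 ^ (2 * N + 1) + ξ 2 * x 2 ^ (2 * N + 1) = 0) :
    mulHeight x ^ N ≤ ((7000 : ℝ) ^ N) ^ (Module.finrank ℚ K) * mulHeight ξ := by
  obtain ⟨S, T, D, hD, dS, dT, lS, lT, rS, rT, hdet⟩ := exists_pade_pair N hN
  set n := 2 * N + 1 with hn
  have hodd : Odd n := ⟨N, hn⟩
  set k := N + 1 with hk
  have hx0 : x ≠ 0 := fun h0 ↦ hx 0 (by rw [h0]; rfl)
  have hx2 := hx 2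
  set s : Fin 3 → K := fun i ↦ hev (S i) k (x 0) (x 2) with hs
  set t : Fin 3 → K := fun i ↦ hev (T i) k (x 0) (x 2) with ht
  set y : Fin 3 → K := x ^ n with hy
  have hy0 : y ≠ 0 := fun h0 ↦ pow_ne_zero n (hx 0) (by
    have := congrFun h0 0
    simpa [hy] using this)
  have hrel : ∀ R : Fin 3 → Polynomial ℤ, (∀ i, (R i).natDegree ≤ k) →
      Polynomial.X ^ n * R 0 + R 2 = (1 + Polynomial.X) ^ n * R 1 →
      hev (R 0) k (x 0) (x 2) * y 0 + hev (R 1) k (x 0) (x 2) * y 1 +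
        hev (R 2) k (x 0) (x 2) * y 2 = 0 := by
    intro R dR rR
    rw [hev_eq (dR 0) _ hx2, hev_eq (dR 1) _ hx2, hev_eq (dR 2) _ hx2]
    have h1 := congrArg (Polynomial.aeval (x 0 / x 2)) rR
    simp only [map_add, map_mul, map_pow, Polynomial.aeval_X, map_one] at h1
    have h2 : (1 + x 0 / x 2) = -(x 1) / x 2 := by
      field_simp
      linear_combination hsum
    rw [h2, div_pow, div_pow, hodd.neg_pow] at h1
    have hz : x 2 ^ n ≠ 0 := pow_ne_zero n hx2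
    have h3 : x 0 ^ n * Polynomial.aeval (x 0 / x 2) (R 0) +
        x 2 ^ n * Polynomial.aeval (x 0 / x 2) (R 2) =
        - x 1 ^ n * Polynomial.aeval (x 0 / x 2) (R 1) := by
      field_simp at h1
      linear_combination h1
    simp only [hy, Pi.pow_apply]
    linear_combination x 2 ^ k * h3
  have hsy : s 0 * y 0 + s 1 * y 1 + s 2 * y 2 = 0 := hrel S dS rS
  have hty : t 0 * y 0 + t 1 * y 1 + t 2 * y 2 = 0 := hrel T dT rT
  have hxy : ξ 0 * y 0 + ξ 1 * y 1 + ξ 2 * y 2 = 0 := by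
    simpa only [hy, Pi.pow_apply] using h
  have hst : s 0 * t 1 - s 1 * t 0 ≠ 0 := by
    have h1 := congrArg (Polynomial.aeval (x 0 / x 2)) hdet
    simp only [map_sub, map_mul] at h1
    have h2 : s 0 * t 1 - s 1 * t 0 = x 2 ^ k * x 2 ^ k * (D : K) := by
      simp only [hs, ht]
      rw [hev_eq (dS 0) _ hx2, hev_eq (dS 1) _ hx2, hev_eq (dT 0) _ hx2, hev_eq (dT 1) _ hx2]
      have h3 : Polynomial.aeval (x 0 / x 2) (Polynomial.C D) = (D : K) := by simp
      rw [h3] at h1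
      linear_combination x 2 ^ k * x 2 ^ k * h1
    rw [h2]
    exact mul_ne_zero (mul_ne_zero (pow_ne_zero _ hx2) (pow_ne_zero _ hx2))
      (Int.cast_ne_zero.mpr hD)
  -- one of the two cross products is nonzero
  have main : ∀ R : Fin 3 → Polynomial ℤ, (∀ i, (R i).natDegree ≤ k) →
      (∀ i, l1 (R i) ≤ 3500 ^ N) →
      (hev (R 0) k (x 0) (x 2) * y 0 + hev (R 1) k (x 0) (x 2) * y 1 +
        hev (R 2) k (x 0) (x 2) * y 2 = 0) →
      cross ξ (fun i ↦ hev (R i) k (x 0) (x 2)) ≠ 0 →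
      mulHeight x ^ N ≤ ((7000 : ℝ) ^ N) ^ (Module.finrank ℚ K) * mulHeight ξ := by
    intro R dR lR hR hcr
    obtain ⟨c, hc, hyc⟩ := exists_smul_cross hy0 hxy hR hcr
    set w := cross ξ (fun i ↦ hev (R i) k (x 0) (x 2)) with hw
    have h1 : mulHeight x ^ n = mulHeight w := by
      rw [← mulHeight_pow, ← hy, hyc, mulHeight_smul_eq_mulHeight _ hc]
    have hle : ∀ (v : AbsoluteValue K ℝ) (f : Fin 3 → K) (i : Fin 3),
        v (f i) ≤ ⨆ j, v (f j) := fun v f i ↦ Finite.le_ciSup (fun j ↦ v (f j)) i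
    have hbd : ∀ (v : InfinitePlace K) (i : Fin 3), v (hev (R i) k (x 0) (x 2)) ≤
        3500 ^ N * (⨆ j, v (x j)) ^ k := by
      intro v i
      have h2 := sum_abs_mul_pow_le (dR i) v.1 (hle v.1 x 0) (hle v.1 x 2) (fun m ↦ by
        have : v.1 (m : K) = |(m : ℝ)| := by
          have := InfinitePlace.norm_embedding_eq v (m : K)
          rw [map_intCast] at this
          have h3 : v.1 (m : K) = ‖(m : ℂ)‖ := this.symm
          rw [h3, Complex.norm_intCast]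
        exact this.le)
      refine h2.trans ?_
      have h3 : 0 ≤ (⨆ j, v.1 (x j)) ^ k :=
        pow_nonneg (Real.iSup_nonneg fun i ↦ apply_nonneg v.1 _) k
      exact mul_le_mul_of_nonneg_right (lR i) h3
    have hbf : ∀ (v : FinitePlace K) (i : Fin 3), v (hev (R i) k (x 0) (x 2)) ≤
        (⨆ j, v (x j)) ^ k := by
      intro v i
      have hv : IsNonarchimedean (v.1 ·) := FinitePlace.add_le v
      exact hev_le_nonarch hv (hle v.1 x 0) (hle v.1 x 2)
    -- differences of products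
    have hinf2 : ∀ (v : InfinitePlace K) (a b : K) (e f : Fin 3),
        v a ≤ (⨆ j, v (ξ j)) → v b ≤ (⨆ j, v (ξ j)) →
        v (a * hev (R e) k (x 0) (x 2) - b * hev (R f) k (x 0) (x 2)) ≤
          7000 ^ N * ((⨆ j, v (ξ j)) * (⨆ j, v (x j)) ^ k) := by
      intro v a b e f h2 h3
      have h4 : v (a * hev (R e) k (x 0) (x 2) - b * hev (R f) k (x 0) (x 2)) ≤
          v (a * hev (R e) k (x 0) (x 2)) + v (b * hev (R f) k (x 0) (x 2)) := by
        rw [sub_eq_add_neg]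
        refine (ip_add_le v _ _).trans (le_of_eq ?_)
        congr 1
        exact v.1.map_neg _
      refine h4.trans ?_
      rw [map_mul, map_mul]
      have h5 : 0 ≤ ⨆ j, v (ξ j) := (apply_nonneg v a).trans h2
      have h6 : 0 ≤ ⨆ j, v (x j) := Real.iSup_nonneg fun i ↦ apply_nonneg v _
      have h7 : (2 : ℝ) * 3500 ^ N ≤ 7000 ^ N := by
        have : (7000 : ℝ) = 2 * 3500 := by norm_num
        rw [this, mul_pow]
        have : (2 : ℝ) ≤ 2 ^ N := by
          calc (2 : ℝ) = 2 ^ 1 := (pow_one 2).symm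
            _ ≤ 2 ^ N := pow_le_pow_right₀ (by norm_num) hN
        gcongr
      have h8 := mul_le_mul h2 (hbd v e) (apply_nonneg v _) h5
      have h9 := mul_le_mul h3 (hbd v f) (apply_nonneg v _) h5
      calc _ ≤ (⨆ j, v (ξ j)) * (3500 ^ N * (⨆ j, v (x j)) ^ k) +
            (⨆ j, v (ξ j)) * (3500 ^ N * (⨆ j, v (x j)) ^ k) := add_le_add h8 h9
        _ = (2 * 3500 ^ N) * ((⨆ j, v (ξ j)) * (⨆ j, v (x j)) ^ k) := by ring
        _ ≤ _ := by gcongr
    have hfin2 : ∀ (v : FinitePlace K) (a b : K) (e f : Fin 3),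
        v a ≤ (⨆ j, v (ξ j)) → v b ≤ (⨆ j, v (ξ j)) →
        v (a * hev (R e) k (x 0) (x 2) - b * hev (R f) k (x 0) (x 2)) ≤
          ((⨆ j, v (ξ j)) * (⨆ j, v (x j)) ^ k) := by
      intro v a b e f h2 h3
      have h4 : v (a * hev (R e) k (x 0) (x 2) - b * hev (R f) k (x 0) (x 2)) ≤
          max (v (a * hev (R e) k (x 0) (x 2))) (v (b * hev (R f) k (x 0) (x 2))) := by
        rw [sub_eq_add_neg]
        refine (fp_add_le v _ _).trans ?_
        rw [fp_neg]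
      refine h4.trans ?_
      rw [map_mul, map_mul]
      have h5 : 0 ≤ ⨆ j, v (ξ j) := (apply_nonneg v a).trans h2
      exact max_le (mul_le_mul h2 (hbf v e) (apply_nonneg v _) h5)
        (mul_le_mul h3 (hbf v f) (apply_nonneg v _) h5)
    have h2 := mulHeight_le_of_local (w := w) (ξ := ξ) (x := x) hcr hξ hx0
      (C := 7000 ^ N) (by positivity) k
      (fun v i ↦ by
        fin_cases i
        · exact hinf2 v _ _ _ _ (hle v.1 ξ 1) (hle v.1 ξ 2)
        · exact hinf2 v _ _ _ _ (hle v.1 ξ 2) (hle v.1 ξ 0)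
        · exact hinf2 v _ _ _ _ (hle v.1 ξ 0) (hle v.1 ξ 1))
      (fun v i ↦ by
        fin_cases i
        · exact hfin2 v _ _ _ _ (hle v.1 ξ 1) (hle v.1 ξ 2)
        · exact hfin2 v _ _ _ _ (hle v.1 ξ 2) (hle v.1 ξ 0)
        · exact hfin2 v _ _ _ _ (hle v.1 ξ 0) (hle v.1 ξ 1))
    rw [← h1] at h2
    have hH : 0 < mulHeight x := mulHeight_pos x
    have h3 : mulHeight x ^ n = mulHeight x ^ N * mulHeight x ^ k := by
      rw [← pow_add]; congr 1; lia
    rw [h3, ← mul_assoc] at h2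
    exact le_of_mul_le_mul_right h2 (pow_pos hH k)
  by_cases hcs : cross ξ s = 0
  · refine main T dT lT hty ?_
    intro hct
    obtain ⟨i, hi⟩ := Function.ne_iff.mp hξ
    have hi' : ξ i ≠ 0 := hi
    have c0 : ξ 1 * s 2 - ξ 2 * s 1 = 0 := congrFun hcs 0
    have c1 : ξ 2 * s 0 - ξ 0 * s 2 = 0 := congrFun hcs 1
    have c2 : ξ 0 * s 1 - ξ 1 * s 0 = 0 := congrFun hcs 2
    have e0 : ξ 1 * t 2 - ξ 2 * t 1 = 0 := congrFun hct 0
    have e1 : ξ 2 * t 0 - ξ 0 * t 2 = 0 := congrFun hct 1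
    have e2 : ξ 0 * t 1 - ξ 1 * t 0 = 0 := congrFun hct 2
    apply hst
    have key : ξ i * (s 0 * t 1 - s 1 * t 0) = 0 := by
      fin_cases i
      · simp only [Fin.zero_eta]
        linear_combination s 0 * e2 - t 0 * c2
      · simp only [Fin.mk_one]
        linear_combination s 1 * e2 - t 1 * c2
      · simp only [Fin.reduceFinMk]
        linear_combination t 1 * c1 + t 0 * c0 + s 2 * e2
    exact (mul_eq_zero.mp key).resolve_left hi'
  · exact main S dS lS hsy hcs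

end Pool.Agent.H93
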