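import Pool.Agent.H93.PolyBound

set_option autoImplicit false

/-!
# Lines through nontrivial Fermat points have large height
-/

namespace Pool.Agent.H93

open NumberField Height Function

variable {K : Type*} [Field K] [NumberField K]

/-- The height of `(a : b : c)` is controlled by that of `(a : b)`. -/
theorem mulHeight_le_two_coord {p : ℕ} (hp : p ≠ 0) {a b c : K} (ha : a ≠ 0)
    (h : a ^ p + b ^ p + c ^ p = 0) :
    mulHeight ![a, b, c] ≤ 2 ^ Module.finrank ℚ K * mulHeight ![a, b] := by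
  set d := Module.finrank ℚ K
  have hx : (![a, b, c] : Fin 3 → K) ≠ 0 := vec3_ne_zero b c ha
  have hab : (![a, b, b] : Fin 3 → K) ≠ 0 := vec3_ne_zero b b ha
  have hxp : (![a, b, c] : Fin 3 → K) ^ p ≠ 0 := fun h0 ↦ pow_ne_zero p ha (by
    have := congrFun h0 0
    simpa using this)
  have hone : (1 : Fin 3 → K) ≠ 0 := one_ne_zero
  have h1 := mulHeight_le_of_local (w := ![a, b, c] ^ p) (ξ := 1) (x := ![a, b, b]) hxp hone hab
    (C := 2) (by norm_num) p
    (fun v i ↦ by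
      have e1 : (⨆ j, v ((1 : Fin 3 → K) j)) = 1 := by simp
      rw [e1, one_mul, iSup_eq_max3 (fun y ↦ v y), max_self]
      have e2 : v a ^ p ≤ (max (v a) (v b)) ^ p :=
        pow_le_pow_left₀ (apply_nonneg v a) (le_max_left _ _) p
      have e3 : v b ^ p ≤ (max (v a) (v b)) ^ p :=
        pow_le_pow_left₀ (apply_nonneg v b) (le_max_right _ _) p
      have e4 : 0 ≤ v a ^ p := pow_nonneg (apply_nonneg v a) p
      have e5 : 0 ≤ v b ^ p := pow_nonneg (apply_nonneg v b) p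
      fin_cases i
      · change v (a ^ p) ≤ _
        rw [map_pow]
        linarith
      · change v (b ^ p) ≤ _
        rw [map_pow]
        linarith
      · change v (c ^ p) ≤ _
        have e6 : c ^ p = -(a ^ p + b ^ p) := by linear_combination h
        have e7 : v (c ^ p) = v (a ^ p + b ^ p) := by
          rw [e6]
          exact v.1.map_neg _
        rw [e7]
        refine (ip_add_le v _ _).trans ?_
        rw [map_pow, map_pow]
        linarith)
    (fun v i ↦ by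
      have e1 : (⨆ j, v ((1 : Fin 3 → K) j)) = 1 := by simp
      rw [e1, one_mul, iSup_eq_max3 (fun y ↦ v y), max_self]
      have e2 : v a ^ p ≤ (max (v a) (v b)) ^ p :=
        pow_le_pow_left₀ (apply_nonneg v a) (le_max_left _ _) p
      have e3 : v b ^ p ≤ (max (v a) (v b)) ^ p :=
        pow_le_pow_left₀ (apply_nonneg v b) (le_max_right _ _) p
      fin_cases i
      · change v (a ^ p) ≤ _
        rw [map_pow]
        exact e2
      · change v (b ^ p) ≤ _
        rw [map_pow]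
        exact e3
      · change v (c ^ p) ≤ _
        have e6 : c ^ p = -(a ^ p + b ^ p) := by linear_combination h
        rw [e6, fp_neg]
        refine (fp_add_le v _ _).trans ?_
        rw [map_pow, map_pow]
        exact max_le e2 e3)
  rw [mulHeight_pow, mulHeight_one, one_mul] at h1
  have h2 : mulHeight ![a, b, b] ≤ mulHeight ![a, b] := by
    have := mulHeight_comp_le (K := K) (![0, 1, 1] : Fin 3 → Fin 2) ![a, b]
    refine le_trans (le_of_eq ?_) this
    congr 1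
    ext i
    fin_cases i <;> rfl
  have h0 : 0 ≤ mulHeight ![a, b, b] := (mulHeight_pos _).le
  have h3 : mulHeight ![a, b, c] ^ p ≤ (2 ^ d * mulHeight ![a, b]) ^ p := by
    refine h1.trans ?_
    rw [mul_pow]
    have h4 : (1 : ℝ) ≤ 2 ^ d := one_le_pow₀ (by norm_num)
    have h5 : (2 : ℝ) ^ d ≤ (2 ^ d) ^ p := le_self_pow₀ h4 hp
    gcongr
  exact le_of_pow_le_pow_left₀ hp (mul_nonneg (by positivity) (mulHeight_pos _).le) h3

theorem mulHeight_pair_eq {a b α β : K} (hb : b ≠ 0) (hα : α ≠ 0) (h : α * a + β * b = 0) :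
    mulHeight ![a, b] = mulHeight ![α, β] := by
  rw [← mulHeight₁_div_eq_mulHeight, mulHeight_swap, ← mulHeight₁_div_eq_mulHeight,
    ← mulHeight₁_neg]
  congr 1
  field_simp
  linear_combination -h

theorem mulHeight_pair_le (α β γ : K) : mulHeight ![α, β] ≤ mulHeight ![α, β, γ] := by
  have := mulHeight_comp_le (K := K) (![0, 1] : Fin 2 → Fin 3) ![α, β, γ]
  refine le_trans (le_of_eq ?_) this
  congr 1
  ext i
  fin_cases i <;> rfl

/-- The case of a line through a vertex of the coordinate triangle. -/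
theorem two_coord_line {p : ℕ} (hp : p ≠ 0) {a b c : K} (ha : a ≠ 0) (hb : b ≠ 0)
    (h : a ^ p + b ^ p + c ^ p = 0) {α β γ : K} (hℓ : (![α, β, γ] : Fin 3 → K) ≠ 0)
    (hγ : γ = 0) (hline : α * a + β * b + γ * c = 0) :
    mulHeight ![a, b, c] ≤ 2 ^ Module.finrank ℚ K * mulHeight ![α, β, γ] := by
  subst hγ
  have h1 : α * a + β * b = 0 := by linear_combination hline
  have hα : α ≠ 0 := by
    rintro rfl
    have hβ : β = 0 := by
      have : β * b = 0 := by linear_combination h1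
      exact (mul_eq_zero.mp this).resolve_right hb
    subst hβ
    exact hℓ (by ext i; fin_cases i <;> rfl)
  have h2 := mulHeight_le_two_coord hp ha h
  rw [mulHeight_pair_eq hb hα h1] at h2
  refine h2.trans ?_
  have := mulHeight_pair_le α β (0 : K)
  gcongr

/-- Height of the reciprocal vector. -/
theorem mulHeight_inv_le {α β γ : K} (hα : α ≠ 0) (hβ : β ≠ 0) (hγ : γ ≠ 0) :
    mulHeight ![α⁻¹, β⁻¹, γ⁻¹] ≤ mulHeight ![α, β, γ] ^ 2 := by
  have hc : α * β * γ ≠ 0 := mul_ne_zero (mul_ne_zero hα hβ) hγ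
  have h1 : mulHeight ![α⁻¹, β⁻¹, γ⁻¹] = mulHeight ![β * γ, γ * α, α * β] := by
    rw [← mulHeight_smul_eq_mulHeight _ hc]
    congr 1
    ext i
    fin_cases i
    · change α * β * γ * α⁻¹ = β * γ
      field_simp
    · change α * β * γ * β⁻¹ = γ * α
      field_simp
    · change α * β * γ * γ⁻¹ = α * β
      field_simp
  rw [h1]
  have hw : (![β * γ, γ * α, α * β] : Fin 3 → K) ≠ 0 :=
    vec3_ne_zero _ _ (mul_ne_zero hβ hγ)
  have hℓ : (![α, β, γ] : Fin 3 → K) ≠ 0 := vec3_ne_zero _ _ hα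
  have key : ∀ (v : AbsoluteValue K ℝ) (i : Fin 3), v (![β * γ, γ * α, α * β] i) ≤
      (⨆ j, v (![α, β, γ] j)) * (⨆ j, v (![α, β, γ] j)) ^ 1 := by
    intro v i
    rw [pow_one]
    have h0 : ∀ j : Fin 3, v (![α, β, γ] j) ≤ ⨆ j, v (![α, β, γ] j) := fun j ↦
      Finite.le_ciSup (fun j ↦ v (![α, β, γ] j)) j
    have h00 : 0 ≤ ⨆ j, v (![α, β, γ] j) := Real.iSup_nonneg fun i ↦ apply_nonneg v _
    fin_cases i
    · change v (β * γ) ≤ _
      rw [map_mul]
      exact mul_le_mul (h0 1) (h0 2) (apply_nonneg v _) h00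
    · change v (γ * α) ≤ _
      rw [map_mul]
      exact mul_le_mul (h0 2) (h0 0) (apply_nonneg v _) h00
    · change v (α * β) ≤ _
      rw [map_mul]
      exact mul_le_mul (h0 0) (h0 1) (apply_nonneg v _) h00
  have h2 := mulHeight_le_of_local (w := ![β * γ, γ * α, α * β]) (ξ := ![α, β, γ])
    (x := ![α, β, γ]) hw hℓ hℓ (C := 1) (by norm_num) 1
    (fun v i ↦ by rw [one_mul]; exact key v.1 i) (fun v i ↦ key v.1 i)
  rw [one_pow, one_mul, pow_one] at h2
  rw [pow_two]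
  exact h2

/-- The main case: all three coefficients are nonzero. -/
theorem general_line {N : ℕ} (hN : 1 ≤ N) {a b c : K} (ha : a ≠ 0) (hb : b ≠ 0) (hc : c ≠ 0)
    (h : a ^ (2 * N + 1) + b ^ (2 * N + 1) + c ^ (2 * N + 1) = 0) {α β γ : K} (hα : α ≠ 0)
    (hβ : β ≠ 0) (hγ : γ ≠ 0) (hline : α * a + β * b + γ * c = 0) :
    mulHeight ![a, b, c] ^ N ≤ ((7000 : ℝ) ^ N) ^ Module.finrank ℚ K *
      mulHeight ![α, β, γ] ^ (6 * N + 2) := by
  set d := Module.finrank ℚ K
  set n := 2 * N + 1 with hn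
  set ℓ' : Fin 3 → K := ![α⁻¹, β⁻¹, γ⁻¹] with hℓ'
  set x : Fin 3 → K := ![α * a, β * b, γ * c] with hx
  have hx0 : ∀ i, x i ≠ 0 := by
    intro i
    fin_cases i
    · exact mul_ne_zero hα ha
    · exact mul_ne_zero hβ hb
    · exact mul_ne_zero hγ hc
  have hξ : ℓ' ^ n ≠ 0 := fun h0 ↦ pow_ne_zero n (inv_ne_zero hα) (congrFun h0 0)
  have h1 := pade_height hN hx0 hline (ξ := ℓ' ^ n) hξ (by
    change (α⁻¹) ^ n * (α * a) ^ n + (β⁻¹) ^ n * (β * b) ^ n + (γ⁻¹) ^ n * (γ * c) ^ n = 0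
    rw [← mul_pow, ← mul_pow, ← mul_pow, inv_mul_cancel_left₀ hα, inv_mul_cancel_left₀ hβ,
      inv_mul_cancel_left₀ hγ]
    exact h)
  rw [mulHeight_pow] at h1
  have h2 : mulHeight ![a, b, c] ≤ mulHeight x * mulHeight ℓ' := by
    have h3 := mulHeight_mul_le x ℓ'
    refine le_trans (le_of_eq ?_) h3
    congr 1
    ext i
    fin_cases i
    · change a = α * a * α⁻¹
      field_simp
    · change b = β * b * β⁻¹
      field_simp
    · change c = γ * c * γ⁻¹
      field_simp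
  have h3 := mulHeight_inv_le hα hβ hγ
  have p1 : 0 ≤ mulHeight ![a, b, c] := (mulHeight_pos _).le
  have p2 : 0 ≤ mulHeight x := (mulHeight_pos _).le
  have p3 : 0 ≤ mulHeight ℓ' := (mulHeight_pos _).le
  calc mulHeight ![a, b, c] ^ N ≤ (mulHeight x * mulHeight ℓ') ^ N := by gcongr
    _ = mulHeight x ^ N * mulHeight ℓ' ^ N := mul_pow _ _ _
    _ ≤ (((7000 : ℝ) ^ N) ^ d * mulHeight ℓ' ^ n) * mulHeight ℓ' ^ N := by gcongr
    _ = ((7000 : ℝ) ^ N) ^ d * mulHeight ℓ' ^ (3 * N + 1) := by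
      rw [mul_assoc, ← pow_add]
      congr 2
      lia
    _ ≤ ((7000 : ℝ) ^ N) ^ d * (mulHeight ![α, β, γ] ^ 2) ^ (3 * N + 1) := by gcongr
    _ = _ := by
      have e1 : (mulHeight ![α, β, γ] ^ 2) ^ (3 * N + 1) = mulHeight ![α, β, γ] ^ (6 * N + 2) := by
        rw [← pow_mul]
        congr 1
        ring
      rw [e1]

theorem sq_le_five_pow (m : ℕ) : (2 * (m + 2) + 1) ^ 2 ≤ 5 ^ (m + 2) := by
  induction m with
  | zero => norm_num
  | succ m ih =>
    rw [show m + 1 + 2 = (m + 2) + 1 by ring, pow_succ 5]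
    have h6 : (2 * (m + 2 + 1) + 1) ^ 2 ≤ (2 * (m + 2) + 1) ^ 2 * 5 := by
      have e1 : (2 * (m + 2 + 1) + 1) ^ 2 = 4 * (m * m) + 28 * m + 49 := by ring
      have e2 : (2 * (m + 2) + 1) ^ 2 * 5 = 20 * (m * m) + 100 * m + 125 := by ring
      rw [e1, e2]
      have : 0 ≤ m * m := Nat.zero_le _
      lia
    exact h6.trans (Nat.mul_le_mul_right 5 ih)

/-- **Lines through nontrivial Fermat points have large height.** -/
theorem line_bound (hω : ¬ ∃ ω : K, IsPrimitiveRoot ω 3) :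
    ∃ B : ℕ, ∀ p : ℕ, p.Prime → B < p → ∀ a b c : K, a ≠ 0 → b ≠ 0 → c ≠ 0 →
      a ^ p + b ^ p + c ^ p = 0 → ∀ α β γ : K, (α ≠ 0 ∨ β ≠ 0 ∨ γ ≠ 0) →
      α * a + β * b + γ * c = 0 →
      (p : ℝ) ^ Module.finrank ℚ K ≤
        105000 ^ Module.finrank ℚ K * mulHeight ![α, β, γ] ^ 6 := by
  obtain ⟨B, hB⟩ := polynomial_bound hω
  refine ⟨max B 4, fun p hp hBp a b c ha hb hc h α β γ hℓ hline ↦ ?_⟩
  have hp5 : 5 ≤ p := by
    have : 4 < p := (le_max_right B 4).trans_lt hBp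
    lia
  have hA := (hB p hp ((le_max_left B 4).trans_lt hBp) a b c ha hb hc h).2
  set d := Module.finrank ℚ K
  have hℓ0 : (![α, β, γ] : Fin 3 → K) ≠ 0 := by
    intro h0
    have e0 : α = 0 := congrFun h0 0
    have e1 : β = 0 := congrFun h0 1
    have e2 : γ = 0 := congrFun h0 2
    rcases hℓ with h1 | h1 | h1
    · exact h1 e0
    · exact h1 e1
    · exact h1 e2
  set H := mulHeight ![α, β, γ] with hH
  have hH1 : 1 ≤ H := one_le_mulHeight _
  have p1 : 0 < mulHeight ![a, b, c] := mulHeight_pos _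
  -- easy case: `H (P) ≤ 2 ^ d * H`
  have easy : mulHeight ![a, b, c] ≤ 2 ^ d * H → (p : ℝ) ^ d ≤ 105000 ^ d * H ^ 6 := by
    intro h1
    have h2 : H ≤ H ^ 6 := le_self_pow₀ hH1 (by norm_num)
    calc (p : ℝ) ^ d ≤ 3 ^ d * mulHeight ![a, b, c] := hA
      _ ≤ 3 ^ d * (2 ^ d * H) := by gcongr
      _ = 6 ^ d * H := by rw [← mul_assoc, ← mul_pow]; norm_num
      _ ≤ 105000 ^ d * H ^ 6 := by
        have h3 : (6 : ℝ) ^ d ≤ 105000 ^ d := by gcongr; norm_num
        gcongr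
  by_cases hγ : γ = 0
  · exact easy (two_coord_line hp.ne_zero ha hb h hℓ0 hγ hline)
  by_cases hβ : β = 0
  · apply easy
    have e1 : mulHeight ![a, b, c] = mulHeight ![c, a, b] := (mulHeight_rot c a b).symm
    have e2 : H = mulHeight ![γ, α, β] := (mulHeight_rot γ α β).symm
    rw [e1, e2]
    refine two_coord_line hp.ne_zero hc ha (by linear_combination h) ?_ hβ
      (by linear_combination hline)
    exact vec3_ne_zero _ _ hγ
  by_cases hα : α = 0
  · apply easy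
    have e1 : mulHeight ![a, b, c] = mulHeight ![b, c, a] := mulHeight_rot a b c
    have e2 : H = mulHeight ![β, γ, α] := mulHeight_rot α β γ
    rw [e1, e2]
    refine two_coord_line hp.ne_zero hb hc (by linear_combination h) ?_ hα
      (by linear_combination hline)
    exact vec3_ne_zero _ _ hβ
  -- the main case
  obtain ⟨N, hN⟩ := hp.odd_of_ne_two (by lia)
  have hN2 : 2 ≤ N := by lia
  rw [hN] at h
  have h1 := general_line (by lia : 1 ≤ N) ha hb hc h hα hβ hγ hline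
  by_cases hbig : (p : ℝ) ^ d ≤ H
  · have h2 : H ≤ H ^ 6 := le_self_pow₀ hH1 (by norm_num)
    have h3 : (1 : ℝ) ≤ 105000 ^ d := one_le_pow₀ (by norm_num)
    have h4 : 0 ≤ H ^ 6 := by positivity
    nlinarith
  push Not at hbig
  have h25 : (p : ℝ) ^ 2 ≤ 5 ^ N := by
    obtain ⟨m, rfl⟩ : ∃ m, N = m + 2 := ⟨N - 2, by lia⟩
    rw [hN]
    exact_mod_cast sq_le_five_pow m
  have h2 : H ^ (6 * N + 2) ≤ (5 ^ d * H ^ 6) ^ N := by
    rw [pow_add, pow_mul]
    calc (H ^ 6) ^ N * H ^ 2 ≤ (H ^ 6) ^ N * ((p : ℝ) ^ d) ^ 2 := by gcongr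
      _ = (H ^ 6) ^ N * ((p : ℝ) ^ 2) ^ d := by
        rw [← pow_mul (p : ℝ) d 2, ← pow_mul (p : ℝ) 2 d, mul_comm d 2]
      _ ≤ (H ^ 6) ^ N * ((5 : ℝ) ^ N) ^ d := by gcongr
      _ = _ := by
        rw [mul_pow, ← pow_mul (5 : ℝ) N d, ← pow_mul (5 : ℝ) d N, mul_comm N d, mul_comm]
  have h3 : ((p : ℝ) ^ d) ^ N ≤ (105000 ^ d * H ^ 6) ^ N := by
    calc ((p : ℝ) ^ d) ^ N ≤ (3 ^ d * mulHeight ![a, b, c]) ^ N := by gcongr
      _ = (3 ^ d) ^ N * mulHeight ![a, b, c] ^ N := mul_pow _ _ _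
      _ ≤ (3 ^ d) ^ N * (((7000 : ℝ) ^ N) ^ d * (5 ^ d * H ^ 6) ^ N) := by
        gcongr
        exact h1.trans (by gcongr)
      _ = (105000 ^ d * H ^ 6) ^ N := by
        have e1 : (105000 : ℝ) ^ d = 3 ^ d * 7000 ^ d * 5 ^ d := by
          rw [← mul_pow, ← mul_pow]; norm_num
        rw [e1, ← pow_mul 7000, mul_comm N d, pow_mul, ← mul_pow, ← mul_pow]
        congr 1
        ring
  exact le_of_pow_le_pow_left₀ (by lia) (by positivity) h3

end Pool.Agent.H93
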