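import Mathlib

set_option autoImplicit false

/-!
# Archimedean analysis of Fermat points
-/

namespace Pool.Agent.H93

theorem norm_one_sub_pow_sub_one_le (ξ : ℂ) (p : ℕ) : ‖1 - (1 - ξ) ^ p‖ ≤ (1 + ‖ξ‖) ^ p - 1 := by
  induction p with
  | zero => simp
  | succ p ih =>
    have h1 : 1 - (1 - ξ) ^ (p + 1) = (1 - (1 - ξ) ^ p) * (1 - ξ) + ξ := by ring
    rw [h1]
    have h2 : ‖1 - ξ‖ ≤ 1 + ‖ξ‖ := by
      refine (norm_sub_le _ _).trans ?_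
      rw [norm_one]
    calc ‖(1 - (1 - ξ) ^ p) * (1 - ξ) + ξ‖ ≤ ‖1 - (1 - ξ) ^ p‖ * ‖1 - ξ‖ + ‖ξ‖ := by
          refine (norm_add_le _ _).trans ?_
          rw [norm_mul]
      _ ≤ ((1 + ‖ξ‖) ^ p - 1) * (1 + ‖ξ‖) + ‖ξ‖ := by
          have h3 : 0 ≤ (1 + ‖ξ‖) ^ p - 1 := (norm_nonneg _).trans ih
          gcongr
      _ = _ := by ring

theorem one_add_pow_le_exp (t : ℝ) (ht : 0 ≤ t) (p : ℕ) : (1 + t) ^ p ≤ Real.exp (p * t) := by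
  rw [Real.exp_nat_mul]
  refine pow_le_pow_left₀ (by linarith) ?_ p
  have := Real.add_one_le_exp t
  linarith

theorem one_add_pow_sub_one_le (t : ℝ) (ht : 0 ≤ t) (p : ℕ) :
    (1 + t) ^ p - 1 ≤ p * t * Real.exp (p * t) := by
  have h1 : (1 + t) ^ p ≤ Real.exp (p * t) := one_add_pow_le_exp t ht p
  -- `exp u - 1 ≤ u exp u`
  have h2 : Real.exp (p * t) - 1 ≤ p * t * Real.exp (p * t) := by
    set u := p * t
    have h3 := Real.add_one_le_exp (-u)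
    have h4 : 0 < Real.exp u := Real.exp_pos u
    have h5 : Real.exp (-u) * Real.exp u = 1 := by rw [← Real.exp_add]; simp
    nlinarith
  linarith

/-- The exponential lower bound `(1 - t) ^ p ≥ exp (- (4/3) p t)` for `0 ≤ t ≤ 1/4`. -/
theorem exp_neg_le_one_sub_pow {t : ℝ} (ht : 0 ≤ t) (ht4 : t ≤ 1 / 4) (p : ℕ) :
    Real.exp (-(4 / 3 * (p * t))) ≤ (1 - t) ^ p := by
  have h1 : Real.exp (-(4 / 3 * t)) ≤ 1 - t := by
    have h2 : 1 + 4 / 3 * t ≤ Real.exp (4 / 3 * t) := by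
      have := Real.add_one_le_exp (4 / 3 * t)
      linarith
    have h3 : 0 < Real.exp (4 / 3 * t) := Real.exp_pos _
    rw [Real.exp_neg, inv_le_iff_one_le_mul₀ h3]
    nlinarith
  have h4 : -(4 / 3 * (p * t)) = (p : ℝ) * (-(4 / 3 * t)) := by ring
  rw [h4, Real.exp_nat_mul]
  exact pow_le_pow_left₀ (Real.exp_pos _).le h1 p

/-- Core archimedean estimate. -/
theorem arch_core {p : ℕ} (hp : Odd p) {a x z : ℂ} (hx : x ≠ 0)
    (h : a ^ p + (x - a) ^ p + (z - a) ^ p = 0) (hxz : ‖x‖ ≤ ‖z‖)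
    (hzy : 10 * ‖z‖ ≤ ‖x + z - 2 * a‖) :
    ‖x + z - 2 * a‖ ≤ 10 * p * ‖z‖ ∧
      ‖z‖ ≤ ‖x‖ * Real.exp (25 / 3 * (p * (‖z‖ / ‖x + z - 2 * a‖))) := by
  set y := x + z - 2 * a with hy
  have hx0 : 0 < ‖x‖ := norm_pos_iff.mpr hx
  have hz0 : 0 < ‖z‖ := hx0.trans_le hxz
  have hy0 : 0 < ‖y‖ := by linarith
  have hp1 : 1 ≤ p := hp.pos
  have hpR : (1 : ℝ) ≤ p := by exact_mod_cast hp1
  have ha : 2 / 5 * ‖y‖ ≤ ‖a‖ := by
    have h1 : ‖(2 : ℂ) * a‖ = 2 * ‖a‖ := by rw [norm_mul]; norm_num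
    have h2 : y = x + (z - 2 * a) := by rw [hy]; ring
    have h3 : ‖y‖ ≤ ‖x‖ + (‖z‖ + ‖(2 : ℂ) * a‖) := by
      rw [h2]
      refine (norm_add_le _ _).trans ?_
      gcongr
      exact norm_sub_le _ _
    rw [h1] at h3
    linarith
  have ha0 : 0 < ‖a‖ := lt_of_lt_of_le (by positivity) ha
  have hane : a ≠ 0 := norm_pos_iff.mp ha0
  set ξ := x / a with hξ
  set ζ := z / a with hζ
  have hrel : (1 - ξ) ^ p + (1 - ζ) ^ p = 1 := by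
    have h1 : x - a = -(a * (1 - ξ)) := by rw [hξ]; field_simp; ring
    have h2 : z - a = -(a * (1 - ζ)) := by rw [hζ]; field_simp; ring
    rw [h1, h2, hp.neg_pow, hp.neg_pow, mul_pow, mul_pow] at h
    have h3 : a ^ p * (1 - ((1 - ξ) ^ p + (1 - ζ) ^ p)) = 0 := by linear_combination h
    have h4 := (mul_eq_zero.mp h3).resolve_left (pow_ne_zero p hane)
    linear_combination -h4
  have hζn : ‖ζ‖ = ‖z‖ / ‖a‖ := by rw [hζ, norm_div]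
  have hξn : ‖ξ‖ = ‖x‖ / ‖a‖ := by rw [hξ, norm_div]
  have hξζ : ‖ξ‖ ≤ ‖ζ‖ := by rw [hξn, hζn]; gcongr
  have hζle : ‖ζ‖ ≤ 5 / 2 * (‖z‖ / ‖y‖) := by
    rw [hζn, div_le_iff₀ ha0]
    have h1 : 5 / 2 * (‖z‖ / ‖y‖) * (2 / 5 * ‖y‖) = ‖z‖ := by
      field_simp
    calc ‖z‖ = 5 / 2 * (‖z‖ / ‖y‖) * (2 / 5 * ‖y‖) := h1.symm
      _ ≤ 5 / 2 * (‖z‖ / ‖y‖) * ‖a‖ := by gcongr
  have hzy' : ‖z‖ / ‖y‖ ≤ 1 / 10 := by
    rw [div_le_iff₀ hy0]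
    linarith
  have hζ4 : ‖ζ‖ ≤ 1 / 4 := by linarith
  have hζ0 : 0 ≤ ‖ζ‖ := norm_nonneg _
  have hξ0 : 0 ≤ ‖ξ‖ := norm_nonneg _
  constructor
  · by_contra hcon
    push Not at hcon
    have h1 : p * ‖ζ‖ ≤ 1 / 4 := by
      have h2 : p * (‖z‖ / ‖y‖) ≤ 1 / 10 := by
        rw [← mul_div_assoc, div_le_iff₀ hy0]
        linarith
      calc p * ‖ζ‖ ≤ p * (5 / 2 * (‖z‖ / ‖y‖)) := by gcongr
        _ = 5 / 2 * (p * (‖z‖ / ‖y‖)) := by ring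
        _ ≤ 5 / 2 * (1 / 10) := by gcongr
        _ = 1 / 4 := by norm_num
    have h3 : p * ‖ξ‖ ≤ 1 / 4 := le_trans (by gcongr) h1
    have hb : ∀ t : ℝ, 0 ≤ t → p * t ≤ 1 / 4 → (1 + t) ^ p - 1 ≤ 2 / 5 := by
      intro t ht0 ht
      have h4 := one_add_pow_le_exp t ht0 p
      have h5 : Real.exp (p * t) ≤ Real.exp (1 / 4) := Real.exp_le_exp.mpr ht
      have h6 : Real.exp (1 / 4) ≤ 7 / 5 := by
        have h7 : (Real.exp (1 / 4)) ^ 4 = Real.exp 1 := by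
          rw [← Real.exp_nat_mul]; norm_num
        have h8 : Real.exp 1 ≤ (7 / 5 : ℝ) ^ 4 := by
          have := Real.exp_one_lt_d9
          norm_num
          linarith
        rw [← h7] at h8
        exact le_of_pow_le_pow_left₀ (by norm_num) (by norm_num) h8
      linarith
    have h4 := (norm_one_sub_pow_sub_one_le ξ p).trans (hb _ hξ0 h3)
    have h5 := (norm_one_sub_pow_sub_one_le ζ p).trans (hb _ hζ0 h1)
    have h6 : (1 : ℂ) = (1 - (1 - ξ) ^ p) + (1 - (1 - ζ) ^ p) := by linear_combination hrel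
    have h7 : (1 : ℝ) ≤ 2 / 5 + 2 / 5 := by
      calc (1 : ℝ) = ‖(1 : ℂ)‖ := norm_one.symm
        _ = ‖(1 - (1 - ξ) ^ p) + (1 - (1 - ζ) ^ p)‖ := by rw [← h6]
        _ ≤ ‖1 - (1 - ξ) ^ p‖ + ‖1 - (1 - ζ) ^ p‖ := norm_add_le _ _
        _ ≤ _ := by gcongr
    norm_num at h7
  · have h1 : 1 - (1 - ξ) ^ p = (1 - ζ) ^ p := by linear_combination -hrel
    have h2 : (1 - ‖ζ‖) ^ p ≤ ‖(1 - ζ) ^ p‖ := by
      rw [norm_pow]
      refine pow_le_pow_left₀ (by linarith) ?_ p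
      have := norm_sub_norm_le (1 : ℂ) ζ
      rw [norm_one] at this
      exact this
    have h3 := exp_neg_le_one_sub_pow hζ0 hζ4 p
    have h4 : ‖1 - (1 - ξ) ^ p‖ ≤ p * ‖ξ‖ * Real.exp (p * ‖ξ‖) :=
      (norm_one_sub_pow_sub_one_le ξ p).trans (one_add_pow_sub_one_le _ hξ0 p)
    rw [h1] at h4
    have h5 : Real.exp (-(4 / 3 * (p * ‖ζ‖))) ≤ p * ‖ξ‖ * Real.exp (p * ‖ζ‖) := by
      refine (h3.trans (h2.trans h4)).trans ?_
      gcongr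
    -- `exp (-(7/3) p ζ) ≤ p ξ`
    have h6 : Real.exp (-(7 / 3 * (p * ‖ζ‖))) ≤ p * ‖ξ‖ := by
      have h7 : Real.exp (-(7 / 3 * (p * ‖ζ‖))) * Real.exp (p * ‖ζ‖) =
          Real.exp (-(4 / 3 * (p * ‖ζ‖))) := by
        rw [← Real.exp_add]
        congr 1
        ring
      rw [← h7] at h5
      exact le_of_mul_le_mul_right h5 (Real.exp_pos _)
    have h8 : p * ‖ζ‖ ≤ Real.exp (p * ‖ζ‖) := by
      have := Real.add_one_le_exp (p * ‖ζ‖)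
      linarith
    have h9 : ‖ζ‖ ≤ ‖ξ‖ * Real.exp (10 / 3 * (p * ‖ζ‖)) := by
      have h10 : p * ‖ζ‖ ≤ p * (‖ξ‖ * Real.exp (10 / 3 * (p * ‖ζ‖))) := by
        calc p * ‖ζ‖ ≤ Real.exp (p * ‖ζ‖) := h8
          _ = Real.exp (-(7 / 3 * (p * ‖ζ‖))) * Real.exp (10 / 3 * (p * ‖ζ‖)) := by
            rw [← Real.exp_add]
            congr 1
            ring
          _ ≤ (p * ‖ξ‖) * Real.exp (10 / 3 * (p * ‖ζ‖)) := by gcongr
          _ = _ := by ring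
      exact le_of_mul_le_mul_left h10 (by linarith)
    have h11 : ‖ζ‖ ≤ ‖ξ‖ * Real.exp (25 / 3 * (p * (‖z‖ / ‖y‖))) := by
      refine h9.trans ?_
      have h12 : 10 / 3 * (p * ‖ζ‖) ≤ 25 / 3 * (p * (‖z‖ / ‖y‖)) := by
        calc 10 / 3 * (p * ‖ζ‖) ≤ 10 / 3 * (p * (5 / 2 * (‖z‖ / ‖y‖))) := by gcongr
          _ = _ := by ring
      gcongr
    rw [hζn, hξn, div_mul_eq_mul_div] at h11
    exact (div_le_div_iff_of_pos_right ha0).mp h11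

end Pool.Agent.H93
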