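import Pool.Agent.H93.PolyBound
import Pool.Agent.H93.Arch

set_option autoImplicit false

/-!
# Fields of unit rank at most one
-/

namespace Pool.Agent.H93

open NumberField Height Function

/-- The real-variable part of the two-place argument. -/
theorem two_place_real {n₁ n₂ : ℕ} (hn₁ : 1 ≤ n₁) (hn₂ : 1 ≤ n₂) {p A₁ M₁ T₁ A₂ M₂ T₂ : ℝ}
    (hA₁ : 0 < A₁) (hAM₁ : A₁ ≤ M₁) (hMT₁ : M₁ ≤ T₁)
    (hA₂ : 0 < A₂) (hAM₂ : A₂ ≤ M₂) (hMT₂ : M₂ ≤ T₂)
    (h₁ : A₁ ^ n₁ * T₂ ^ n₂ = M₁ ^ n₁ * M₂ ^ n₂)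
    (hs : p ^ (n₁ + n₂) * (M₁ ^ n₁ * M₂ ^ n₂) ≤ (3 / 2) ^ (n₁ + n₂) * (T₁ ^ n₁ * T₂ ^ n₂))
    (L₁ : 10 * M₁ ≤ T₁ → T₁ ≤ 10 * p * M₁ ∧ M₁ ≤ A₁ * Real.exp (25 / 3 * (p * (M₁ / T₁))))
    (L₂ : 10 * M₂ ≤ T₂ → T₂ ≤ 10 * p * M₂)
    (hp : 10 * 15 ^ (n₁ + n₂) * Real.exp (9 * 15 ^ (n₁ + n₂) * (n₁ + n₂ : ℕ)) < p) : False := by
  set d := n₁ + n₂ with hd
  have hM₁ : 0 < M₁ := hA₁.trans_le hAM₁
  have hM₂ : 0 < M₂ := hA₂.trans_le hAM₂
  have hT₁ : 0 < T₁ := hM₁.trans_le hMT₁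
  have hT₂ : 0 < T₂ := hM₂.trans_le hMT₂
  have h15 : (1 : ℝ) ≤ 15 ^ d := one_le_pow₀ (by norm_num)
  have hexp1 : (1 : ℝ) ≤ Real.exp (9 * 15 ^ d * (d : ℕ)) := Real.one_le_exp (by positivity)
  have hp10 : 10 * 15 ^ d < p := by
    refine lt_of_le_of_lt ?_ hp
    nlinarith [mul_le_mul_of_nonneg_left hexp1 (by positivity : (0 : ℝ) ≤ 10 * 15 ^ d)]
  have hp1 : 1 ≤ p := by linarith
  have hp0 : 0 < p := by linarith
  set α := T₁ / M₁ with hα
  set γ := T₂ / M₂ with hγ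
  have hα1 : 1 ≤ α := by rw [hα, one_le_div hM₁]; exact hMT₁
  have hγ1 : 1 ≤ γ := by rw [hγ, one_le_div hM₂]; exact hMT₂
  have hα10 : α ≤ 10 * p := by
    rw [hα, div_le_iff₀ hM₁]
    rcases le_total (10 * M₁) T₁ with h | h
    · exact (L₁ h).1
    · refine h.trans ?_
      have : 10 ≤ 10 * p := by linarith
      gcongr
  have hγ10 : γ ≤ 10 * p := by
    rw [hγ, div_le_iff₀ hM₂]
    rcases le_total (10 * M₂) T₂ with h | h
    · exact L₂ h
    · refine h.trans ?_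
      have : 10 ≤ 10 * p := by linarith
      gcongr
  have hs' : p ^ d ≤ (3 / 2) ^ d * (α ^ n₁ * γ ^ n₂) := by
    rw [hα, hγ, div_pow T₁ M₁, div_pow T₂ M₂, div_mul_div_comm, ← mul_div_assoc,
      le_div_iff₀ (by positivity)]
    exact hs
  -- lower bounds for `α` and `γ`
  have hαlow : p ≤ 15 ^ d * α := by
    have h2 : p ^ n₁ ≤ (15 ^ d * α) ^ n₁ := by
      have h3 : p ^ n₁ * p ^ n₂ ≤ ((3 / 2) ^ d * 10 ^ n₂ * α ^ n₁) * p ^ n₂ := by
        rw [← pow_add, ← hd]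
        refine hs'.trans ?_
        calc (3 / 2 : ℝ) ^ d * (α ^ n₁ * γ ^ n₂) ≤ (3 / 2) ^ d * (α ^ n₁ * (10 * p) ^ n₂) := by
              gcongr
          _ = _ := by rw [mul_pow]; ring
      have h4 := le_of_mul_le_mul_right h3 (by positivity)
      refine h4.trans ?_
      have h5 : (3 / 2 : ℝ) ^ d * 10 ^ n₂ ≤ 15 ^ d := by
        calc (3 / 2 : ℝ) ^ d * 10 ^ n₂ ≤ (3 / 2 : ℝ) ^ d * 10 ^ d := by
              gcongr
              · norm_num
              · lia
          _ = 15 ^ d := by rw [← mul_pow]; norm_num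
      have h6 : (15 : ℝ) ^ d ≤ (15 ^ d) ^ n₁ := le_self_pow₀ h15 (by lia)
      rw [mul_pow]
      gcongr
      exact h5.trans h6
    exact le_of_pow_le_pow_left₀ (by lia) (by positivity) h2
  have hγlow : p ≤ 15 ^ d * γ := by
    have h2 : p ^ n₂ ≤ (15 ^ d * γ) ^ n₂ := by
      have h3 : p ^ n₂ * p ^ n₁ ≤ ((3 / 2) ^ d * 10 ^ n₁ * γ ^ n₂) * p ^ n₁ := by
        rw [← pow_add, add_comm n₂ n₁, ← hd]
        refine hs'.trans ?_
        calc (3 / 2 : ℝ) ^ d * (α ^ n₁ * γ ^ n₂) ≤ (3 / 2) ^ d * ((10 * p) ^ n₁ * γ ^ n₂) := by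
              gcongr
          _ = _ := by rw [mul_pow]; ring
      have h4 := le_of_mul_le_mul_right h3 (by positivity)
      refine h4.trans ?_
      have h5 : (3 / 2 : ℝ) ^ d * 10 ^ n₁ ≤ 15 ^ d := by
        calc (3 / 2 : ℝ) ^ d * 10 ^ n₁ ≤ (3 / 2 : ℝ) ^ d * 10 ^ d := by
              gcongr
              · norm_num
              · lia
          _ = 15 ^ d := by rw [← mul_pow]; norm_num
      have h6 : (15 : ℝ) ^ d ≤ (15 ^ d) ^ n₂ := le_self_pow₀ h15 (by lia)
      rw [mul_pow]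
      gcongr
      exact h5.trans h6
    exact le_of_pow_le_pow_left₀ (by lia) (by positivity) h2
  have hα10' : 10 ≤ α := by
    by_contra hcon
    push Not at hcon
    have : 15 ^ d * α < 15 ^ d * 10 := by gcongr
    linarith
  have h10 : 10 * M₁ ≤ T₁ := by
    rw [hα, le_div_iff₀ hM₁] at hα10'
    exact hα10'
  have hL := (L₁ h10).2
  have hpM : p * (M₁ / T₁) ≤ 15 ^ d := by
    have h2 : M₁ / T₁ = α⁻¹ := by rw [hα, inv_div]
    rw [h2, ← div_eq_mul_inv, div_le_iff₀ (by linarith)]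
    exact hαlow
  have hMA : M₁ ≤ A₁ * Real.exp (9 * 15 ^ d) := by
    refine hL.trans ?_
    gcongr
    nlinarith
  have hγfin : γ ≤ Real.exp (9 * 15 ^ d * (d : ℕ)) := by
    have h2 : γ ^ n₂ ≤ (Real.exp (9 * 15 ^ d)) ^ n₁ := by
      rw [hγ, div_pow, div_le_iff₀ (by positivity)]
      have h3 : M₁ ^ n₁ ≤ A₁ ^ n₁ * (Real.exp (9 * 15 ^ d)) ^ n₁ := by
        rw [← mul_pow]
        gcongr
      have h4 : A₁ ^ n₁ * T₂ ^ n₂ ≤ A₁ ^ n₁ * ((Real.exp (9 * 15 ^ d)) ^ n₁ * M₂ ^ n₂) := by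
        rw [h₁, ← mul_assoc]
        gcongr
      exact le_of_mul_le_mul_left h4 (by positivity)
    calc γ ≤ γ ^ n₂ := le_self_pow₀ hγ1 (by lia)
      _ ≤ (Real.exp (9 * 15 ^ d)) ^ n₁ := h2
      _ ≤ (Real.exp (9 * 15 ^ d)) ^ d :=
          pow_le_pow_right₀ (Real.one_le_exp (by positivity)) (by lia)
      _ = Real.exp (9 * 15 ^ d * (d : ℕ)) := by
          rw [← Real.exp_nat_mul]
          congr 1
          ring
  have : p ≤ 15 ^ d * Real.exp (9 * 15 ^ d * (d : ℕ)) := hγlow.trans (by gcongr)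
  have h0 : 0 < 15 ^ d * Real.exp (9 * 15 ^ d * (d : ℕ)) := by positivity
  linarith

variable {K : Type*} [Field K] [NumberField K]

/-- Product of the infinite absolute values. -/
noncomputable def infNorm (x : K) : ℝ := ∏ w : InfinitePlace K, w x ^ w.mult

theorem infNorm_mul_finprod {x : K} (hx : x ≠ 0) :
    infNorm x * ∏ᶠ v : FinitePlace K, v x = 1 := NumberField.prod_abs_eq_one hx

theorem infNorm_pos {x : K} (hx : x ≠ 0) : 0 < infNorm x := by
  refine Finset.prod_pos fun w _ ↦ pow_pos ?_ _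
  exact InfinitePlace.pos_iff.mpr hx

/-- In the unit case the sum of the coordinates is large. -/
theorem infNorm_sum_ge {p : ℕ} (hp : p.Prime) (hdisc : ¬ (p : ℤ) ∣ discr K)
    {a b c : K} (ha : a ≠ 0) (h : a ^ p + b ^ p + c ^ p = 0) (hsum : a + b + c ≠ 0)
    {e : K} (he : e ≠ 0) (hv : ∀ v : FinitePlace K, v e = lmax v a b c) :
    (p : ℝ) ^ Module.finrank ℚ K * infNorm e ≤ infNorm (a + b + c) := by
  have hpK : (p : K) ≠ 0 := Nat.cast_ne_zero.mpr hp.ne_zero
  have hp0 : (0 : ℝ) < (p : ℝ) ^ Module.finrank ℚ K := by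
    have := hp.pos
    positivity
  have h1 := infNorm_mul_finprod he
  have h2 := infNorm_mul_finprod hsum
  have hse := FinitePlace.hasFiniteMulSupport he
  have hsp := FinitePlace.hasFiniteMulSupport hpK
  have h3 : (∏ᶠ v : FinitePlace K, v (a + b + c)) ≤
      ∏ᶠ v : FinitePlace K, (v e * v (p : K)) := by
    refine finprod_le_finprod (FinitePlace.hasFiniteMulSupport hsum) (fun v ↦ apply_nonneg v _)
      (hse.mul hsp) fun v ↦ ?_
    change v (a + b + c) ≤ v e * v (p : K)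
    rw [hv v]
    exact sum_le_lmax_mul hp hdisc v ha h
  rw [finprod_mul_distrib hse hsp, finprod_natCast hp.ne_zero] at h3
  have hs0 := infNorm_pos hsum
  have he0 := infNorm_pos he
  have h4 : 1 ≤ infNorm (a + b + c) *
      ((∏ᶠ v : FinitePlace K, v e) * ((p : ℝ) ^ Module.finrank ℚ K)⁻¹) := by
    calc (1 : ℝ) = infNorm (a + b + c) * ∏ᶠ v : FinitePlace K, v (a + b + c) := h2.symm
      _ ≤ _ := by gcongr
  have h5 : (∏ᶠ v : FinitePlace K, v e) = (infNorm e)⁻¹ := by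
    refine eq_inv_of_mul_eq_one_left ?_
    rw [mul_comm]
    exact h1
  rw [h5] at h4
  have h6 : infNorm (a + b + c) * ((infNorm e)⁻¹ * ((p : ℝ) ^ Module.finrank ℚ K)⁻¹) =
      infNorm (a + b + c) / ((p : ℝ) ^ Module.finrank ℚ K * infNorm e) := by
    field_simp
  rw [h6, le_div_iff₀ (by positivity), one_mul] at h4
  exact h4

theorem infNorm_eq_of_finite_eq {e e' : K} (he : e ≠ 0) (he' : e' ≠ 0)
    (hv : ∀ v : FinitePlace K, v e = v e') : infNorm e = infNorm e' := by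
  have h1 := infNorm_mul_finprod he
  have h2 := infNorm_mul_finprod he'
  have h3 : (∏ᶠ v : FinitePlace K, v e) = ∏ᶠ v : FinitePlace K, v e' := finprod_congr hv
  rw [h3] at h1
  have h4 : (∏ᶠ v : FinitePlace K, v e') ≠ 0 := by
    intro h0
    rw [h0, mul_zero] at h2
    exact zero_ne_one h2
  exact mul_right_cancel₀ h4 (h1.trans h2.symm)

omit [NumberField K] in
theorem arch_place (v : InfinitePlace K) {p : ℕ} (hp : Odd p) {a b c : K} (hab : a + b ≠ 0)
    (h : a ^ p + b ^ p + c ^ p = 0) (h1 : v (a + b) ≤ v (a + c))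
    (h2 : 10 * v (a + c) ≤ v (b + c)) :
    v (b + c) ≤ 10 * p * v (a + c) ∧
      v (a + c) ≤ v (a + b) * Real.exp (25 / 3 * (p * (v (a + c) / v (b + c)))) := by
  have key : ∀ x : K, v x = ‖v.embedding x‖ := fun x ↦ (InfinitePlace.norm_embedding_eq v x).symm
  rw [key, key] at h1 h2
  rw [key (a + b), key (a + c), key (b + c)]
  have e1 : v.embedding (b + c) = v.embedding (a + b) + v.embedding (a + c) -
      2 * v.embedding a := by
    simp only [map_add]
    ring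
  rw [e1] at h2 ⊢
  refine arch_core hp ?_ ?_ h1 h2
  · exact (map_ne_zero v.embedding).mpr hab
  · have e2 : v.embedding (a + b) - v.embedding a = v.embedding b := by
      simp only [map_add]
      ring
    have e3 : v.embedding (a + c) - v.embedding a = v.embedding c := by
      simp only [map_add]
      ring
    rw [e2, e3, ← map_pow, ← map_pow, ← map_pow, ← map_add, ← map_add, h, map_zero]

omit [NumberField K] in
/-- The value of `a + b + c` is at most `3/2` times the largest pairwise sum. -/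
theorem sum3_le (v : InfinitePlace K) {a b c : K} {T : ℝ} (h1 : v (a + b) ≤ T)
    (h2 : v (b + c) ≤ T) (h3 : v (a + c) ≤ T) : v (a + b + c) ≤ 3 / 2 * T := by
  have h4 : v (2 * (a + b + c)) ≤ 3 * T := by
    have e : 2 * (a + b + c) = (a + b) + (b + c) + (a + c) := by ring
    rw [e]
    have := ip_add_le v ((a + b) + (b + c)) (a + c)
    have h5 := ip_add_le v (a + b) (b + c)
    linarith
  have h6 : v (2 : K) = 2 := by
    have := InfinitePlace.norm_embedding_eq v (2 : K)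
    rw [← this, map_ofNat]
    norm_num
  rw [map_mul, h6] at h4
  linarith

/-- Sorted version of the two-place argument. -/
theorem two_place_sorted {v₁ v₂ : InfinitePlace K} (hne : v₁ ≠ v₂)
    (hall : ∀ v : InfinitePlace K, v = v₁ ∨ v = v₂) {p : ℕ} (hp : p.Prime)
    (hdisc : ¬ (p : ℤ) ∣ discr K) {a b c : K} (ha : a ≠ 0)
    (h : a ^ p + b ^ p + c ^ p = 0) (hsum : a + b + c ≠ 0)
    (hab : a + b ≠ 0) (hbc : b + c ≠ 0) (hac : a + c ≠ 0)
    (hU : ∀ v : FinitePlace K, v (a + b) = lmax v a b c ∧ v (b + c) = lmax v a b c ∧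
      v (a + c) = lmax v a b c)
    (hord1 : v₁ (a + b) ≤ v₁ (a + c)) (hord2 : v₁ (a + c) ≤ v₁ (b + c))
    (hbig : 10 * 15 ^ Module.finrank ℚ K *
      Real.exp (9 * 15 ^ Module.finrank ℚ K * Module.finrank ℚ K) < p) : False := by
  classical
  have huniv : (Finset.univ : Finset (InfinitePlace K)) = {v₁, v₂} := by
    ext v
    simp only [Finset.mem_univ, Finset.mem_insert, Finset.mem_singleton, true_iff]
    exact hall v
  have hinf : ∀ x : K, infNorm x = v₁ x ^ v₁.mult * v₂ x ^ v₂.mult := by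
    intro x
    rw [infNorm, huniv, Finset.prod_pair hne]
  have hd : Module.finrank ℚ K = v₁.mult + v₂.mult := by
    rw [← InfinitePlace.sum_mult_eq, huniv, Finset.sum_pair hne]
  have hexp1 : (1 : ℝ) ≤ Real.exp (9 * 15 ^ Module.finrank ℚ K * Module.finrank ℚ K) :=
    Real.one_le_exp (by positivity)
  have h15 : (1 : ℝ) ≤ 15 ^ Module.finrank ℚ K := one_le_pow₀ (by norm_num)
  have hp2 : p ≠ 2 := by
    rintro rfl
    push_cast at hbig
    nlinarith
  have hodd : Odd p := hp.odd_of_ne_two hp2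
  have hm1 : 1 ≤ v₁.mult := InfinitePlace.mult_pos
  have hm2 : 1 ≤ v₂.mult := InfinitePlace.mult_pos
  have pos : ∀ (v : InfinitePlace K) {x : K}, x ≠ 0 → 0 < v x := fun v x hx ↦
    InfinitePlace.pos_iff.mpr hx
  have E1 := infNorm_eq_of_finite_eq hab hac (fun v ↦ (hU v).1.trans (hU v).2.2.symm)
  have E2 := infNorm_eq_of_finite_eq hbc hac (fun v ↦ (hU v).2.1.trans (hU v).2.2.symm)
  rw [hinf, hinf] at E1 E2
  -- order at the second place
  have flip : ∀ {x y : K}, x ≠ 0 → y ≠ 0 → v₁ x ^ v₁.mult * v₂ x ^ v₂.mult =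
      v₁ y ^ v₁.mult * v₂ y ^ v₂.mult → v₁ x ≤ v₁ y → v₂ y ≤ v₂ x := by
    intro x y hx hy heq hle
    by_contra hcon
    push Not at hcon
    have h1 : v₁ x ^ v₁.mult ≤ v₁ y ^ v₁.mult := pow_le_pow_left₀ (pos v₁ hx).le hle _
    have h2 : v₂ x ^ v₂.mult < v₂ y ^ v₂.mult := pow_lt_pow_left₀ hcon (pos v₂ hx).le (by lia)
    have h3 : v₁ x ^ v₁.mult * v₂ x ^ v₂.mult < v₁ y ^ v₁.mult * v₂ y ^ v₂.mult := by
      calc _ ≤ v₁ y ^ v₁.mult * v₂ x ^ v₂.mult := by
            have := (pos v₂ hx).le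
            gcongr
        _ < _ := by
            have := pow_pos (pos v₁ hy) v₁.mult
            gcongr
    exact absurd heq h3.ne
  have F1 : v₂ (a + c) ≤ v₂ (a + b) := flip hab hac E1 hord1
  have F2 : v₂ (b + c) ≤ v₂ (a + c) := flip hac hbc E2.symm hord2
  have hs := infNorm_sum_ge hp hdisc ha h hsum hac (fun v ↦ (hU v).2.2)
  rw [hinf, hinf, hd] at hs
  have S1 : v₁ (a + b + c) ≤ 3 / 2 * v₁ (b + c) := sum3_le v₁ (hord1.trans hord2) le_rfl hord2
  have S2 : v₂ (a + b + c) ≤ 3 / 2 * v₂ (a + b) := sum3_le v₂ le_rfl (F2.trans F1) F1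
  rw [hd] at hbig
  refine two_place_real hm1 hm2 (p := (p : ℝ)) (A₁ := v₁ (a + b)) (M₁ := v₁ (a + c))
    (T₁ := v₁ (b + c)) (A₂ := v₂ (b + c)) (M₂ := v₂ (a + c)) (T₂ := v₂ (a + b))
    (pos v₁ hab) hord1 hord2 (pos v₂ hbc) F2 F1 E1 ?_ ?_ ?_ hbig
  · refine hs.trans ?_
    calc v₁ (a + b + c) ^ v₁.mult * v₂ (a + b + c) ^ v₂.mult
        ≤ (3 / 2 * v₁ (b + c)) ^ v₁.mult * (3 / 2 * v₂ (a + b)) ^ v₂.mult := by
          have h3 := (pos v₁ hsum).le
          have h4 := (pos v₂ hsum).le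
          have h5 := (pos v₁ hbc).le
          gcongr
      _ = _ := by rw [mul_pow, mul_pow, pow_add]; ring
  · intro h10
    exact arch_place v₁ hodd hab h hord1 h10
  · intro h10
    have h' : c ^ p + b ^ p + a ^ p = 0 := by linear_combination h
    have e1 : c + b = b + c := add_comm _ _
    have e2 : c + a = a + c := add_comm _ _
    have e3 : b + a = a + b := add_comm _ _
    have := (arch_place v₂ hodd (a := c) (b := b) (c := a) (by rw [e1]; exact hbc) h'
      (by rw [e1, e2]; exact F2) (by rw [e2, e3]; exact h10)).1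
    rw [e2, e3] at this
    exact this

/-- The package of hypotheses in the unit case, symmetric in `a, b, c`. -/
structure UnitCase (p : ℕ) (a b c : K) : Prop where
  ha : a ≠ 0
  hb : b ≠ 0
  hc : c ≠ 0
  h : a ^ p + b ^ p + c ^ p = 0
  hsum : a + b + c ≠ 0
  hab : a + b ≠ 0
  hbc : b + c ≠ 0
  hac : a + c ≠ 0
  hU : ∀ v : FinitePlace K, v (a + b) = lmax v a b c ∧ v (b + c) = lmax v a b c ∧
      v (a + c) = lmax v a b c

theorem UnitCase.rot {p : ℕ} {a b c : K} (g : UnitCase p a b c) : UnitCase p b c a where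
  ha := g.hb
  hb := g.hc
  hc := g.ha
  h := by linear_combination g.h
  hsum := by
    intro h0
    exact g.hsum (by linear_combination h0)
  hab := g.hbc
  hbc := by rw [add_comm]; exact g.hac
  hac := by rw [add_comm]; exact g.hab
  hU := fun v ↦ by
    rw [← lmax_rot v a b c, add_comm c a, add_comm b a]
    exact ⟨(g.hU v).2.1, (g.hU v).2.2, (g.hU v).1⟩

theorem UnitCase.swap {p : ℕ} {a b c : K} (g : UnitCase p a b c) : UnitCase p a c b where
  ha := g.ha
  hb := g.hc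
  hc := g.hb
  h := by linear_combination g.h
  hsum := by
    intro h0
    exact g.hsum (by linear_combination h0)
  hab := g.hac
  hbc := by rw [add_comm]; exact g.hbc
  hac := g.hab
  hU := fun v ↦ by
    have e : lmax v a c b = lmax v a b c := by
      rw [lmax_rot v a b c, lmax_rot v b c a, lmax_swap v c a b]
    rw [e, add_comm c b]
    exact ⟨(g.hU v).2.2, (g.hU v).2.1, (g.hU v).1⟩

theorem two_place_contra {v₁ v₂ : InfinitePlace K} (hne : v₁ ≠ v₂)
    (hall : ∀ v : InfinitePlace K, v = v₁ ∨ v = v₂) {p : ℕ} (hp : p.Prime)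
    (hdisc : ¬ (p : ℤ) ∣ discr K)
    (hbig : 10 * 15 ^ Module.finrank ℚ K *
      Real.exp (9 * 15 ^ Module.finrank ℚ K * Module.finrank ℚ K) < p)
    {a b c : K} (g : UnitCase p a b c) : False := by
  have step0 : ∀ {a b c : K}, UnitCase p a b c → v₁ (a + b) ≤ v₁ (a + c) →
      v₁ (a + c) ≤ v₁ (b + c) → False := fun g h1 h2 ↦
    two_place_sorted hne hall hp hdisc g.ha g.h g.hsum g.hab g.hbc g.hac g.hU h1 h2 hbig
  have step1 : ∀ {a b c : K}, UnitCase p a b c → v₁ (a + b) ≤ v₁ (b + c) →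
      v₁ (a + c) ≤ v₁ (b + c) → False := by
    intro a b c g h1 h2
    rcases le_total (v₁ (a + b)) (v₁ (a + c)) with h3 | h3
    · exact step0 g h3 h2
    · exact step0 g.swap h3 (by rw [add_comm c b]; exact h1)
  rcases le_total (v₁ (a + b)) (v₁ (b + c)) with h1 | h1
  · rcases le_total (v₁ (a + c)) (v₁ (b + c)) with h2 | h2
    · exact step1 g h1 h2
    · refine step1 g.rot ?_ ?_
      · rw [add_comm c a]; exact h2
      · rw [add_comm c a, add_comm b a]; exact h1.trans h2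
  · rcases le_total (v₁ (a + b)) (v₁ (a + c)) with h2 | h2
    · refine step1 g.rot ?_ ?_
      · rw [add_comm c a]; exact h1.trans h2
      · rw [add_comm c a, add_comm b a]; exact h2
    · refine step1 g.rot.rot ?_ ?_
      · rw [add_comm c a]; exact h2
      · rw [add_comm c b]; exact h1

theorem one_place_contra {v₁ : InfinitePlace K}
    (hall : ∀ v : InfinitePlace K, v = v₁) {p : ℕ} (hp : p.Prime)
    (hdisc : ¬ (p : ℤ) ∣ discr K) {a b c : K} (g : UnitCase p a b c) : False := by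
  classical
  have huniv : (Finset.univ : Finset (InfinitePlace K)) = {v₁} := by
    ext v
    simp only [Finset.mem_univ, Finset.mem_singleton, true_iff]
    exact hall v
  have hinf : ∀ x : K, infNorm x = v₁ x ^ v₁.mult := by
    intro x
    rw [infNorm, huniv, Finset.prod_singleton]
  have hd : Module.finrank ℚ K = v₁.mult := by
    rw [← InfinitePlace.sum_mult_eq, huniv, Finset.sum_singleton]
  have hm1 : v₁.mult ≠ 0 := InfinitePlace.mult_pos.ne'
  have E1 := infNorm_eq_of_finite_eq g.hab g.hac (fun v ↦ (g.hU v).1.trans (g.hU v).2.2.symm)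
  have E2 := infNorm_eq_of_finite_eq g.hbc g.hac (fun v ↦ (g.hU v).2.1.trans (g.hU v).2.2.symm)
  rw [hinf, hinf] at E1 E2
  have E1' : v₁ (a + b) = v₁ (a + c) :=
    (pow_left_inj₀ (apply_nonneg v₁ _) (apply_nonneg v₁ _) hm1).mp E1
  have E2' : v₁ (b + c) = v₁ (a + c) :=
    (pow_left_inj₀ (apply_nonneg v₁ _) (apply_nonneg v₁ _) hm1).mp E2
  have S1 : v₁ (a + b + c) ≤ 3 / 2 * v₁ (a + c) := sum3_le v₁ E1'.le E2'.le le_rfl
  have hs := infNorm_sum_ge hp hdisc g.ha g.h g.hsum g.hac (fun v ↦ (g.hU v).2.2)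
  rw [hinf, hinf, hd, ← mul_pow] at hs
  have hpos : 0 < v₁ (a + c) := InfinitePlace.pos_iff.mpr g.hac
  have h1 : (p : ℝ) * v₁ (a + c) ≤ v₁ (a + b + c) :=
    (pow_le_pow_iff_left₀ (by positivity) (apply_nonneg v₁ _) hm1).mp hs
  have hp2 : (2 : ℝ) ≤ p := by exact_mod_cast hp.two_le
  nlinarith

/-- **Fields of unit rank at most one.** -/
theorem rank_le_one_bound (hω : ¬ ∃ ω : K, IsPrimitiveRoot ω 3)
    (hcard : Fintype.card (InfinitePlace K) ≤ 2) :
    ∃ B : ℕ, ∀ p : ℕ, p.Prime → B < p → ∀ a b c : K, a ≠ 0 → b ≠ 0 → c ≠ 0 →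
      a ^ p + b ^ p + c ^ p = 0 →
      (2 : ℝ) ^ p ≤ 2 ^ Module.finrank ℚ K * mulHeight ![a, b, c] := by
  classical
  obtain ⟨B₀, hB₀⟩ := sum_zero_line hω
  set B₁ := ⌈10 * (15 : ℝ) ^ Module.finrank ℚ K *
    Real.exp (9 * 15 ^ Module.finrank ℚ K * Module.finrank ℚ K)⌉₊ with hB₁
  refine ⟨B₀ + (discr K).natAbs + B₁ + 2 * Module.finrank ℚ K + 5,
    fun p hp hBp a b c ha hb hc h ↦ ?_⟩
  have hdisc : ¬ (p : ℤ) ∣ discr K := by
    intro h3
    rw [Int.natCast_dvd] at h3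
    have h4 : (discr K).natAbs ≠ 0 := Int.natAbs_ne_zero.mpr (discr_ne_zero K)
    have := Nat.le_of_dvd (Nat.pos_of_ne_zero h4) h3
    lia
  have hsum : a + b + c ≠ 0 := fun h0 ↦ hB₀ p hp (by lia) a b c ha hb hc h0 h
  rcases dichotomy hp (by lia) (by lia) ha hb hc h with h1 | h1
  · exact h1
  exfalso
  obtain ⟨v₀⟩ : Nonempty (FinitePlace K) := by
    obtain ⟨P, hP⟩ := Ideal.exists_maximal (𝓞 K)
    exact ⟨FinitePlace.mk ⟨P, hP.isPrime, Ring.ne_bot_of_isMaximal_of_not_isField hP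
      (RingOfIntegers.not_isField K)⟩⟩
  have hm : 0 < lmax v₀ a b c := lmax_pos v₀ b c ha
  have g : UnitCase p a b c := by
    refine ⟨ha, hb, hc, h, hsum, ?_, ?_, ?_, ?_⟩
    · rw [← FinitePlace.pos_iff (w := v₀), (h1 v₀).1]
      exact hm
    · rw [← FinitePlace.pos_iff (w := v₀), (h1 v₀).2.1]
      exact hm
    · rw [add_comm, ← FinitePlace.pos_iff (w := v₀), (h1 v₀).2.2]
      exact hm
    · intro v
      rw [add_comm a c]
      exact h1 v
  have hbig : 10 * (15 : ℝ) ^ Module.finrank ℚ K *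
      Real.exp (9 * 15 ^ Module.finrank ℚ K * Module.finrank ℚ K) < p := by
    refine (Nat.le_ceil _).trans_lt ?_
    rw [← hB₁]
    exact_mod_cast (by lia : B₁ < p)
  obtain ⟨v₁⟩ : Nonempty (InfinitePlace K) := inferInstance
  by_cases hex : ∃ v₂ : InfinitePlace K, v₁ ≠ v₂
  · obtain ⟨v₂, hne⟩ := hex
    refine two_place_contra hne ?_ hp hdisc hbig g
    intro v
    by_contra hcon
    push Not at hcon
    have h3 : ({v, v₁, v₂} : Finset (InfinitePlace K)).card = 3 := by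
      rw [Finset.card_eq_three]
      exact ⟨v, v₁, v₂, hcon.1, hcon.2, hne, rfl⟩
    have h4 := Finset.card_le_univ ({v, v₁, v₂} : Finset (InfinitePlace K))
    lia
  · push Not at hex
    exact one_place_contra (fun v ↦ (hex v).symm) hp hdisc g

end Pool.Agent.H93
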