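import Mathlib

set_option autoImplicit false

/-!
# Height inequalities used for Fermat points over number fields

Basic tools: a product-formula inequality, discreteness of finite places, and the
local behaviour at finite places of solutions of `a ^ p + b ^ p + c ^ p = 0`.
-/

namespace Pool.Agent.H93

open NumberField Height Function

variable {K : Type*} [Field K] [NumberField K]

/-- The supremum of a finite place over a nonzero finite tuple has finite multiplicative
support. -/
theorem hasFiniteMulSupport_iSup {ι : Type*} [Finite ι] {x : ι → K} (hx : x ≠ 0) :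
    (fun v : FinitePlace K ↦ ⨆ i, v (x i)).HasFiniteMulSupport := by
  classical
  have : Fintype ι := Fintype.ofFinite ι
  obtain ⟨i₀, hi₀⟩ := Function.ne_iff.mp hx
  have hi₀ : x i₀ ≠ 0 := hi₀
  -- all nonzero entries have absolute value one away from a finite set
  have hfin : (⋃ i ∈ {i | x i ≠ 0}, (fun v : FinitePlace K ↦ v (x i)).mulSupport).Finite := by
    refine Set.Finite.biUnion (Set.toFinite _) fun i hi ↦ ?_
    exact FinitePlace.hasFiniteMulSupport hi
  refine hfin.subset fun v hv ↦ ?_
  by_contra hcon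
  apply hv
  simp only [Set.mem_iUnion, not_exists, Set.mem_ofPred_eq] at hcon
  have h1 : ∀ i, x i ≠ 0 → v (x i) = 1 := by
    intro i hi
    by_contra h
    exact hcon i hi h
  refine le_antisymm ?_ ?_
  · have : Nonempty ι := ⟨i₀⟩
    refine ciSup_le fun i ↦ ?_
    by_cases hi : x i = 0
    · simp [hi]
    · rw [h1 i hi]
  · exact Finite.le_ciSup_of_le i₀ (h1 i₀ hi₀).ge

/-- Product formula inequality: local upper bounds for a nonzero element `s` in terms of the
local heights of a tuple `x` give a lower bound for the height of `x`. -/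
theorem one_le_of_local_bounds {ι : Type*} [Finite ι] {x : ι → K} (hx : x ≠ 0) {s : K}
    (hs : s ≠ 0) {C : ℝ} (hC : 0 ≤ C) (β : FinitePlace K → ℝ)
    (hβ : β.HasFiniteMulSupport)
    (hinf : ∀ v : InfinitePlace K, v s ≤ C * ⨆ i, v (x i))
    (hfin : ∀ v : FinitePlace K, v s ≤ (⨆ i, v (x i)) * β v) :
    1 ≤ C ^ (Module.finrank ℚ K) * mulHeight x * ∏ᶠ v, β v := by
  have hsup0 : ∀ v : FinitePlace K, 0 ≤ ⨆ i, v (x i) := fun v ↦
    Real.iSup_nonneg fun i ↦ apply_nonneg v _
  have hsupi0 : ∀ v : InfinitePlace K, 0 ≤ ⨆ i, v (x i) := fun v ↦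
    Real.iSup_nonneg fun i ↦ apply_nonneg v _
  have h1 : (∏ w : InfinitePlace K, w s ^ w.mult) ≤
      ∏ w : InfinitePlace K, (C * ⨆ i, w (x i)) ^ w.mult := by
    refine Finset.prod_le_prod (fun w _ ↦ pow_nonneg (apply_nonneg w _) _) fun w _ ↦ ?_
    exact pow_le_pow_left₀ (apply_nonneg w _) (hinf w) _
  have h2 : (∏ w : InfinitePlace K, (C * ⨆ i, w (x i)) ^ w.mult) =
      C ^ (Module.finrank ℚ K) * ∏ w : InfinitePlace K, (⨆ i, w (x i)) ^ w.mult := by
    simp_rw [mul_pow]
    rw [Finset.prod_mul_distrib, Finset.prod_pow_eq_pow_sum, InfinitePlace.sum_mult_eq]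
  have h3 : (∏ᶠ v : FinitePlace K, v s) ≤ ∏ᶠ v : FinitePlace K, ((⨆ i, v (x i)) * β v) := by
    refine finprod_le_finprod (FinitePlace.hasFiniteMulSupport hs) (fun v ↦ apply_nonneg v _)
      ?_ hfin
    exact (hasFiniteMulSupport_iSup hx).mul hβ
  have h4 : (∏ᶠ v : FinitePlace K, ((⨆ i, v (x i)) * β v)) =
      (∏ᶠ v : FinitePlace K, ⨆ i, v (x i)) * ∏ᶠ v, β v :=
    finprod_mul_distrib (hasFiniteMulSupport_iSup hx) hβ
  have h5 := NumberField.prod_abs_eq_one hs
  rw [NumberField.mulHeight_eq hx]
  calc (1 : ℝ) = (∏ w : InfinitePlace K, w s ^ w.mult) * ∏ᶠ v : FinitePlace K, v s := h5.symm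
    _ ≤ (C ^ (Module.finrank ℚ K) * ∏ w : InfinitePlace K, (⨆ i, w (x i)) ^ w.mult) *
        ((∏ᶠ v : FinitePlace K, ⨆ i, v (x i)) * ∏ᶠ v, β v) := by
      rw [← h2, ← h4]
      refine mul_le_mul h1 h3 (finprod_nonneg fun v ↦ apply_nonneg v _) ?_
      exact Finset.prod_nonneg fun w _ ↦ pow_nonneg (mul_nonneg hC (hsupi0 w)) _
    _ = _ := by ring

/-- The value of a finite place at a natural number is at most one. -/
theorem finitePlace_natCast_le_one (v : FinitePlace K) (n : ℕ) : v (n : K) ≤ 1 := by
  have hv : IsNonarchimedean (v ·) := FinitePlace.add_le v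
  exact IsNonarchimedean.apply_natCast_le_one hv

/-- The value of a finite place at an integer is at most one. -/
theorem finitePlace_intCast_le_one (v : FinitePlace K) (n : ℤ) : v (n : K) ≤ 1 := by
  have hv : IsNonarchimedean (v ·) := FinitePlace.add_le v
  exact IsNonarchimedean.apply_intCast_le_one hv

/-- Finite places are discrete: an element of absolute value less than one has absolute value
at most the inverse of the norm of the corresponding prime ideal. -/
theorem finitePlace_le_inv_absNorm (v : FinitePlace K) {x : K} (hx : v x < 1) :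
    v x ≤ ((Ideal.absNorm v.maximalIdeal.asIdeal : ℕ) : ℝ)⁻¹ := by
  rcases eq_or_ne x 0 with rfl | hx0
  · simp
  rw [← FinitePlace.norm_embedding_eq v x, FinitePlace.norm_embedding'] at hx ⊢
  have hN := HeightOneSpectrum.one_lt_absNorm_nnreal v.maximalIdeal
  have hne : v.maximalIdeal.valuation K x ≠ 0 := (Valuation.ne_zero_iff _).mpr hx0
  have hlt : v.maximalIdeal.valuation K x < 1 := by
    by_contra hcon
    push Not at hcon
    have := (WithZeroMulInt.toNNReal_strictMono hN).monotone hcon
    rw [map_one] at this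
    have h' : ((1 : NNReal) : ℝ) ≤ _ := NNReal.coe_le_coe.mpr this
    simp only [NNReal.coe_one] at h'
    exact absurd hx (not_lt.mpr h')
  have hle : v.maximalIdeal.valuation K x ≤ WithZero.exp (-1 : ℤ) := by
    rw [← WithZero.exp_log hne] at hlt ⊢
    rw [← WithZero.exp_zero, WithZero.exp_lt_exp] at hlt
    rw [WithZero.exp_le_exp]
    lia
  have := (WithZeroMulInt.toNNReal_strictMono hN).monotone hle
  have h' := NNReal.coe_le_coe.mpr this
  refine h'.trans (le_of_eq ?_)
  have hne' : WithZero.exp (-1 : ℤ) ≠ 0 := WithZero.exp_ne_zero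
  have h1 : Multiplicative.toAdd (WithZero.unzero hne') = -1 := by
    rw [WithZero.toAdd_unzero_eq_log, WithZero.log_exp]
  rw [WithZeroMulInt.toNNReal_neg_apply _ hne', h1]
  simp

end Pool.Agent.H93
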