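import Pool.Agent.H93.Heights

set_option autoImplicit false

/-!
# Local analysis of Fermat points at finite places
-/

namespace Pool.Agent.H93

open NumberField Height Function

variable {K : Type*} [Field K] [NumberField K]

/-- Local maximum of three entries. -/
noncomputable def lmax (v : FinitePlace K) (a b c : K) : ℝ := max (v a) (max (v b) (v c))

omit [Field K] [NumberField K] in
theorem iSup_eq_max3 (f : K → ℝ) (a b c : K) :
    ⨆ i, f (![a, b, c] i) = max (f a) (max (f b) (f c)) := by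
  refine le_antisymm ?_ ?_
  · refine ciSup_le fun i ↦ ?_
    fin_cases i <;> simp
  · refine max_le ?_ (max_le ?_ ?_)
    · exact Finite.le_ciSup_of_le (0 : Fin 3) le_rfl
    · exact Finite.le_ciSup_of_le (1 : Fin 3) le_rfl
    · exact Finite.le_ciSup_of_le (2 : Fin 3) le_rfl

theorem iSup_eq_lmax (v : FinitePlace K) (a b c : K) :
    ⨆ i, v (![a, b, c] i) = lmax v a b c := iSup_eq_max3 v a b c

theorem lmax_rot (v : FinitePlace K) (a b c : K) : lmax v a b c = lmax v b c a := by
  simp only [lmax]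
  rw [max_comm, max_assoc]

theorem lmax_swap (v : FinitePlace K) (a b c : K) : lmax v a b c = lmax v b a c := by
  simp only [lmax]
  rw [← max_assoc, ← max_assoc, max_comm (v a)]

theorem le_lmax₁ (v : FinitePlace K) (a b c : K) : v a ≤ lmax v a b c := le_max_left _ _
theorem le_lmax₂ (v : FinitePlace K) (a b c : K) : v b ≤ lmax v a b c :=
  (le_max_left _ _).trans (le_max_right _ _)
theorem le_lmax₃ (v : FinitePlace K) (a b c : K) : v c ≤ lmax v a b c :=
  (le_max_right _ _).trans (le_max_right _ _)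

theorem lmax_pos (v : FinitePlace K) {a : K} (b c : K) (ha : a ≠ 0) : 0 < lmax v a b c :=
  (FinitePlace.pos_iff.mpr ha).trans_le (le_lmax₁ v a b c)

theorem fp_add_le (v : FinitePlace K) (x y : K) : v (x + y) ≤ max (v x) (v y) :=
  FinitePlace.add_le v x y

theorem fp_neg (v : FinitePlace K) (x : K) : v (-x) = v x := map_neg_eq_map v x

/-- The subring of elements of absolute value at most one. -/
def intRing (v : FinitePlace K) : Subring K where
  carrier := {x | v x ≤ 1}
  mul_mem' := fun {x y} hx hy ↦ by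
    simp only [Set.mem_ofPred_eq, map_mul] at *
    exact mul_le_one₀ hx (apply_nonneg v y) hy
  one_mem' := by simp
  add_mem' := fun {x y} hx hy ↦ by
    simp only [Set.mem_ofPred_eq] at *
    exact (fp_add_le v x y).trans (max_le hx hy)
  zero_mem' := by simp
  neg_mem' := fun {x} hx ↦ by
    simp only [Set.mem_ofPred_eq] at *
    rwa [fp_neg]

theorem mem_intRing {v : FinitePlace K} {x : K} : x ∈ intRing v ↔ v x ≤ 1 := Iff.rfl

/-- Frobenius congruence for three terms in the ring of `v`-integers. -/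
theorem frobenius_three (v : FinitePlace K) {p : ℕ} (hp : p.Prime) {a b c : K}
    (ha : v a ≤ 1) (hb : v b ≤ 1) (hc : v c ≤ 1) (h : a ^ p + b ^ p + c ^ p = 0) :
    v (a + b + c) ^ p ≤ v (p : K) := by
  let a' : intRing v := ⟨a, ha⟩
  let b' : intRing v := ⟨b, hb⟩
  let c' : intRing v := ⟨c, hc⟩
  obtain ⟨r₁, hr₁⟩ := exists_add_pow_prime_eq hp a' b'
  obtain ⟨r₂, hr₂⟩ := exists_add_pow_prime_eq hp (a' + b') c'
  rw [hr₁] at hr₂
  have h' : (a + b + c) ^ p = (p : K) * (a * b * r₁ + (a + b) * c * r₂) := by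
    have := congrArg (Subtype.val) hr₂
    simp only [Subring.coe_add, Subring.coe_pow, Subring.coe_mul, Subring.coe_natCast] at this
    have h2 : (a + b + c) ^ p = a ^ p + b ^ p + p * a * b * r₁ + c ^ p
      + p * (a + b) * c * r₂ := this
    rw [h2]
    linear_combination h
  rw [← map_pow, h', map_mul]
  refine mul_le_of_le_one_right (apply_nonneg v _) ?_
  have : a * b * r₁ + (a + b) * c * r₂ ∈ intRing v :=
    (intRing v).add_mem ((intRing v).mul_mem ((intRing v).mul_mem ha hb) r₁.2)
      ((intRing v).mul_mem ((intRing v).mul_mem ((intRing v).add_mem ha hb) hc) r₂.2)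
  exact this

/-- At a place above `p`, the sum of the coordinates of a Fermat point of exponent `p` is
strictly smaller than the largest coordinate. -/
theorem sum_lt_lmax (v : FinitePlace K) {p : ℕ} (hp : p.Prime) (hv : v (p : K) < 1)
    {a b c : K} (ha : a ≠ 0) (h : a ^ p + b ^ p + c ^ p = 0) :
    v (a + b + c) < lmax v a b c := by
  have hm := lmax_pos v b c ha
  obtain ⟨t, ht, ht0⟩ : ∃ t : K, v t = lmax v a b c ∧ t ≠ 0 := by
    have key : ∀ t : K, v t = lmax v a b c → t ≠ 0 := by
      intro t ht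
      rw [← FinitePlace.pos_iff (w := v), ht]
      exact hm
    rcases max_choice (v a) (max (v b) (v c)) with h1 | h1
    · exact ⟨a, h1.symm, key a h1.symm⟩
    · rcases max_choice (v b) (v c) with h2 | h2
      · have h3 : v b = lmax v a b c := by rw [lmax, h1, h2]
        exact ⟨b, h3, key b h3⟩
      · have h3 : v c = lmax v a b c := by rw [lmax, h1, h2]
        exact ⟨c, h3, key c h3⟩
  have hdiv : ∀ x : K, v x ≤ lmax v a b c → v (x / t) ≤ 1 := by
    intro x hx
    rw [map_div₀, ht]
    exact div_le_one_of_le₀ hx hm.le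
  have h' : (a / t) ^ p + (b / t) ^ p + (c / t) ^ p = 0 := by
    rw [div_pow, div_pow, div_pow, ← add_div, ← add_div, h, zero_div]
  have h1 := frobenius_three v hp (hdiv a (le_lmax₁ v a b c)) (hdiv b (le_lmax₂ v a b c))
    (hdiv c (le_lmax₃ v a b c)) h'
  have h2 : v ((a + b + c) / t) < 1 := by
    rw [← add_div, ← add_div] at h1
    exact (pow_lt_one_iff_of_nonneg (apply_nonneg v _) hp.ne_zero).mp (h1.trans_lt hv)
  rwa [map_div₀, ht, div_lt_one hm] at h2

/-- The factor `Φ` with `a ^ p + b ^ p = (a + b) * Φ`. -/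
def phi (p : ℕ) (a b : K) : K := ∑ i ∈ Finset.range p, a ^ i * (-b) ^ (p - 1 - i)

omit [NumberField K] in
theorem add_mul_phi {p : ℕ} (hodd : Odd p) (a b : K) : (a + b) * phi p a b = a ^ p + b ^ p := by
  have := Commute.geom_sum₂_mul (Commute.all a (-b)) p
  rw [hodd.neg_pow] at this
  simp only [phi]
  linear_combination this

/-- Binomial expansion of a prime power, isolating the linear term. -/
theorem exists_add_pow_prime_eq_two {R : Type*} [CommRing R] {p : ℕ} (hp : p.Prime) (s y : R) :
    ∃ q : R, (s + y) ^ p = y ^ p + p * s * y ^ (p - 1) + p * s ^ 2 * q + s ^ p := by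
  have h2 := hp.two_le
  have hdvd : ∀ m ∈ Finset.Ioo 1 p, ∃ k, p.choose m = p * k := by
    intro m hm
    rw [Finset.mem_Ioo] at hm
    exact hp.dvd_choose_self (by lia) hm.2
  choose! k hk using hdvd
  refine ⟨∑ m ∈ Finset.Ioo 1 p, s ^ (m - 2) * y ^ (p - m) * k m, ?_⟩
  have hrange : Finset.range (p + 1) = {0, 1, p} ∪ Finset.Ioo 1 p := by
    ext m
    simp only [Finset.mem_range, Finset.mem_union, Finset.mem_insert, Finset.mem_singleton,
      Finset.mem_Ioo]
    lia
  have hdisj : Disjoint ({0, 1, p} : Finset ℕ) (Finset.Ioo 1 p) := by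
    rw [Finset.disjoint_left]
    intro m hm
    simp only [Finset.mem_insert, Finset.mem_singleton, Finset.mem_Ioo] at hm ⊢
    lia
  rw [add_pow, hrange, Finset.sum_union hdisj]
  have h0 : (0 : ℕ) ∉ ({1, p} : Finset ℕ) := by
    simp only [Finset.mem_insert, Finset.mem_singleton]
    lia
  have h1 : (1 : ℕ) ∉ ({p} : Finset ℕ) := by
    simp only [Finset.mem_singleton]
    lia
  rw [Finset.sum_insert h0, Finset.sum_insert h1, Finset.sum_singleton]
  have hsum : ∑ m ∈ Finset.Ioo 1 p, s ^ m * y ^ (p - m) * (p.choose m : R) =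
      p * s ^ 2 * ∑ m ∈ Finset.Ioo 1 p, s ^ (m - 2) * y ^ (p - m) * k m := by
    rw [Finset.mul_sum]
    refine Finset.sum_congr rfl fun m hm ↦ ?_
    rw [hk m hm]
    rw [Finset.mem_Ioo] at hm
    have : s ^ m = s ^ 2 * s ^ (m - 2) := by
      rw [← pow_add]
      congr 1
      lia
    rw [this]
    push_cast
    ring
  rw [hsum]
  simp only [pow_zero, pow_one, Nat.sub_zero, Nat.choose_zero_right, Nat.choose_one_right,
    Nat.choose_self, Nat.sub_self, Nat.cast_one]
  ring

/-- A prime ideal containing the prime number `p` has norm at least `p`. -/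
theorem le_absNorm_of_lt_one (v : FinitePlace K) {p : ℕ} (hp : p.Prime)
    (hv : v (p : K) < 1) : p ≤ Ideal.absNorm v.maximalIdeal.asIdeal := by
  have hmem : (p : 𝓞 K) ∈ v.maximalIdeal.asIdeal := by
    rw [← FinitePlace.norm_lt_one_iff_mem K v.maximalIdeal]
    rw [FinitePlace.norm_embedding_eq]
    simpa using hv
  have hdvd : Ideal.absNorm v.maximalIdeal.asIdeal ∣ p ^ Module.finrank ℚ K := by
    have h1 := Ideal.absNorm_dvd_absNorm_of_le
      ((Ideal.span_singleton_le_iff_mem (I := v.maximalIdeal.asIdeal)).mpr hmem)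
    rwa [Ideal.absNorm_span_natCast, RingOfIntegers.rank] at h1
  obtain ⟨k, -, hk⟩ := (Nat.dvd_prime_pow hp).mp hdvd
  have h1 := HeightOneSpectrum.one_lt_absNorm v.maximalIdeal
  have hk0 : k ≠ 0 := by
    rintro rfl
    rw [hk, pow_zero] at h1
    exact lt_irrefl _ h1
  rw [hk]
  exact Nat.le_self_pow hk0 p

theorem two_le_absNorm (v : FinitePlace K) : 2 ≤ Ideal.absNorm v.maximalIdeal.asIdeal :=
  HeightOneSpectrum.one_lt_absNorm v.maximalIdeal

/-- Product of the values of all finite places at a nonzero natural number. -/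
theorem finprod_natCast {n : ℕ} (hn : n ≠ 0) :
    ∏ᶠ v : FinitePlace K, v (n : K) = ((n : ℝ) ^ Module.finrank ℚ K)⁻¹ := by
  have hn' : (n : K) ≠ 0 := Nat.cast_ne_zero.mpr hn
  rw [FinitePlace.prod_eq_inv_abs_norm hn']
  have : Algebra.norm ℚ (n : K) = (n : ℚ) ^ Module.finrank ℚ K := by
    have := Algebra.norm_algebraMap (S := K) (n : ℚ)
    rwa [map_natCast] at this
  rw [this]
  push_cast
  rw [abs_of_nonneg (by positivity)]

/-- The value of a finite place at a natural number is at least `n ^ (-d)`. -/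
theorem inv_pow_le_finitePlace_natCast (v : FinitePlace K) {n : ℕ} (hn : n ≠ 0) :
    ((n : ℝ) ^ Module.finrank ℚ K)⁻¹ ≤ v (n : K) := by
  classical
  have hn' : (n : K) ≠ 0 := Nat.cast_ne_zero.mpr hn
  rw [← finprod_natCast (K := K) hn]
  have hfin := FinitePlace.hasFiniteMulSupport hn'
  have hle : ∀ w : FinitePlace K, w (n : K) ≤ (Function.update (1 : FinitePlace K → ℝ) v
      (v (n : K))) w := by
    intro w
    by_cases hw : w = v
    · subst hw
      simp
    · rw [Function.update_of_ne hw]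
      exact finitePlace_natCast_le_one w n
  have hfin2 : (Function.update (1 : FinitePlace K → ℝ) v (v (n : K))).HasFiniteMulSupport := by
    refine (Set.finite_singleton v).subset fun w hw ↦ ?_
    by_contra hne
    apply hw
    rw [Function.update_of_ne hne]
    rfl
  have h1 := finprod_le_finprod hfin (fun w ↦ apply_nonneg w _) hfin2 hle
  refine h1.trans (le_of_eq ?_)
  rw [finprod_eq_single _ v (fun w hw ↦ by rw [Function.update_of_ne hw]; rfl)]
  simp

/-- Elementary inequality: `2 ^ p ≤ p ^ (p - d)` once `5 ≤ p` and `2 d ≤ p`. -/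
theorem two_pow_mul_pow_le {p d : ℕ} (h5 : 5 ≤ p) (hd : 2 * d ≤ p) :
    (2 : ℝ) ^ p * (p : ℝ) ^ d ≤ (p : ℝ) ^ p := by
  obtain ⟨e, he⟩ : ∃ e, p = d + e := ⟨p - d, by lia⟩
  have hde : d ≤ e := by lia
  have h4 : (4 : ℝ) ≤ p := by
    have : (5 : ℝ) ≤ p := by exact_mod_cast h5
    linarith
  have h1 : (2 : ℝ) ^ p ≤ (p : ℝ) ^ e := by
    calc (2 : ℝ) ^ p ≤ (2 : ℝ) ^ (2 * e) := pow_le_pow_right₀ (by norm_num) (by lia)
      _ = 4 ^ e := by rw [pow_mul]; norm_num
      _ ≤ (p : ℝ) ^ e := pow_le_pow_left₀ (by norm_num) h4 e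
  calc (2 : ℝ) ^ p * (p : ℝ) ^ d ≤ (p : ℝ) ^ e * (p : ℝ) ^ d := by gcongr
    _ = (p : ℝ) ^ p := by rw [← pow_add, he, add_comm]

/-- Scaled form: if `a, c` are `v`-integral, `b` is a `v`-unit, and `a + b` is not a `v`-unit,
then `a + b` is very small at `v`. -/
theorem scaled_sum_le (v : FinitePlace K) {p : ℕ} (hp : p.Prime) (h5 : 5 ≤ p)
    (hd : 2 * Module.finrank ℚ K ≤ p) {a b c : K} (hb : v b = 1) (hc : v c ≤ 1)
    (hab0 : a + b ≠ 0) (h : a ^ p + b ^ p + c ^ p = 0) (hlt : v (a + b) < 1) :
    v (a + b) ≤ ((2 : ℝ) ^ p)⁻¹ := by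
  have hpK : (p : K) ≠ 0 := Nat.cast_ne_zero.mpr hp.ne_zero
  have hp0 : (0 : ℝ) < p := by exact_mod_cast hp.pos
  have hvp : 0 < v (p : K) := FinitePlace.pos_iff.mpr hpK
  have hodd : Odd p := hp.odd_of_ne_two (by lia)
  set d := Module.finrank ℚ K with hdef
  set s := a + b with hs
  have hs0 : 0 < v s := FinitePlace.pos_iff.mpr hab0
  have hd1 : 1 ≤ d := Module.finrank_pos
  -- the key strict inequality
  have hkey : v s ^ (p - 1) < v (p : K) := by
    rcases lt_or_eq_of_le (finitePlace_natCast_le_one v p) with hlt' | heq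
    · have h1 : v s ≤ (p : ℝ)⁻¹ := by
        refine (finitePlace_le_inv_absNorm v hlt).trans ?_
        refine inv_anti₀ hp0 ?_
        exact_mod_cast le_absNorm_of_lt_one v hp hlt'
      have h2 : v s ^ (p - 1) ≤ ((p : ℝ)⁻¹) ^ (p - 1) := pow_le_pow_left₀ hs0.le h1 _
      have h3 : ((p : ℝ)⁻¹) ^ (p - 1) < ((p : ℝ) ^ d)⁻¹ := by
        rw [← inv_pow]
        refine pow_lt_pow_right_of_lt_one₀ (inv_pos.mpr hp0) ?_ (by lia)
        exact inv_lt_one_of_one_lt₀ (by exact_mod_cast hp.one_lt)
      exact (h2.trans_lt h3).trans_le (inv_pow_le_finitePlace_natCast v hp.ne_zero)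
    · rw [heq]
      exact pow_lt_one₀ hs0.le hlt (by lia)
  -- the expansion
  let s' : intRing v := ⟨s, hlt.le⟩
  let y' : intRing v := ⟨-b, by rw [mem_intRing, fp_neg, hb]⟩
  obtain ⟨q, hq⟩ := exists_add_pow_prime_eq_two hp s' y'
  have hq' : (s + -b) ^ p = (-b) ^ p + p * s * (-b) ^ (p - 1) + p * s ^ 2 * q + s ^ p := by
    have := congrArg Subtype.val hq
    simpa only [Subring.coe_add, Subring.coe_pow, Subring.coe_mul, Subring.coe_natCast] using this
  have hfac : s * (p * (-b) ^ (p - 1) + (p * s * q + s ^ (p - 1))) = - c ^ p := by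
    have h1 : (s + -b) = a := by rw [hs]; ring
    rw [h1, hodd.neg_pow] at hq'
    have h2 : s ^ p = s * s ^ (p - 1) := by
      rw [← pow_succ']
      congr 1
      lia
    rw [h2] at hq'
    linear_combination h - hq'
  have hmain : v ((p : K) * (-b) ^ (p - 1)) = v (p : K) := by
    rw [map_mul, map_pow, fp_neg, hb, one_pow, mul_one]
  have hrest : v ((p : K) * s * q + s ^ (p - 1)) < v (p : K) := by
    refine (fp_add_le v _ _).trans_lt (max_lt ?_ ?_)
    · rw [map_mul, map_mul]
      have hq1 : v (q : K) ≤ 1 := q.2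
      calc v (p : K) * v s * v (q : K) ≤ v (p : K) * v s * 1 := by gcongr
        _ < v (p : K) := by nlinarith
    · rw [map_pow]
      exact hkey
  have hphi : v ((p : K) * (-b) ^ (p - 1) + (p * s * q + s ^ (p - 1))) = v (p : K) := by
    set A := (p : K) * (-b) ^ (p - 1)
    set B := (p : K) * s * q + s ^ (p - 1)
    refine le_antisymm ?_ ?_
    · exact (fp_add_le v _ _).trans (max_le hmain.le hrest.le)
    · by_contra hcon
      push Not at hcon
      have h1 : v A ≤ max (v (A + B)) (v (-B)) := by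
        have := fp_add_le v (A + B) (-B)
        rwa [add_neg_cancel_right] at this
      rw [fp_neg, hmain] at h1
      exact absurd h1 (not_le.mpr (max_lt hcon hrest))
  have hvc : v s * v (p : K) = v c ^ p := by
    rw [← hphi, ← map_mul, hfac, fp_neg, map_pow]
  have hc1 : v c < 1 := by
    by_contra hcon
    push Not at hcon
    have : v c = 1 := le_antisymm hc hcon
    rw [this, one_pow] at hvc
    have := finitePlace_natCast_le_one v p
    nlinarith
  rcases lt_or_eq_of_le (finitePlace_natCast_le_one v p) with hlt' | heq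
  · have h1 : v c ≤ (p : ℝ)⁻¹ := by
      refine (finitePlace_le_inv_absNorm v hc1).trans ?_
      refine inv_anti₀ hp0 ?_
      exact_mod_cast le_absNorm_of_lt_one v hp hlt'
    have h2 := inv_pow_le_finitePlace_natCast v hp.ne_zero (K := K)
    have h3 : v s * ((p : ℝ) ^ d)⁻¹ ≤ ((p : ℝ)⁻¹) ^ p := by
      calc v s * ((p : ℝ) ^ d)⁻¹ ≤ v s * v (p : K) := by gcongr
        _ = v c ^ p := hvc
        _ ≤ ((p : ℝ)⁻¹) ^ p := pow_le_pow_left₀ (apply_nonneg v c) h1 p
    have h4 := two_pow_mul_pow_le h5 hd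
    have hpd : (0 : ℝ) < (p : ℝ) ^ d := by positivity
    have hpp : (0 : ℝ) < (p : ℝ) ^ p := by positivity
    rw [inv_pow] at h3
    have h5' : v s ≤ ((p : ℝ) ^ p)⁻¹ * (p : ℝ) ^ d := by
      rw [← div_eq_mul_inv] at h3
      rwa [div_le_iff₀ hpd] at h3
    refine h5'.trans ?_
    rw [inv_mul_le_iff₀ hpp, ← div_eq_mul_inv, le_div_iff₀ (by positivity)]
    linarith
  · rw [heq, mul_one] at hvc
    rw [hvc, ← inv_pow]
    refine pow_le_pow_left₀ (apply_nonneg v c) ?_ p
    refine (finitePlace_le_inv_absNorm v hc1).trans ?_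
    exact inv_anti₀ (by norm_num) (by exact_mod_cast two_le_absNorm v)

/-- If `a + b` is strictly smaller at `v` than the largest coordinate then it is smaller by a
factor `2 ^ p`. -/
theorem sum_le_of_lt (v : FinitePlace K) {p : ℕ} (hp : p.Prime) (h5 : 5 ≤ p)
    (hd : 2 * Module.finrank ℚ K ≤ p) {a b c : K} (hc : c ≠ 0)
    (h : a ^ p + b ^ p + c ^ p = 0) (hlt : v (a + b) < lmax v a b c) :
    v (a + b) ≤ lmax v a b c * ((2 : ℝ) ^ p)⁻¹ := by
  have hodd : Odd p := hp.odd_of_ne_two (by lia)
  have hm : 0 < lmax v a b c := lt_of_le_of_lt (apply_nonneg v _) hlt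
  have hab0 : a + b ≠ 0 := by
    intro h0
    have hb : b = -a := by linear_combination h0
    rw [hb, hodd.neg_pow, add_neg_cancel, zero_add] at h
    exact hc (pow_eq_zero_iff hp.ne_zero |>.mp h)
  set m := lmax v a b c with hmdef
  -- `v c < m`
  have hphile : v (phi p a b) ≤ m ^ (p - 1) := by
    have hv : IsNonarchimedean (v ·) := FinitePlace.add_le v
    have hne : (Finset.range p).Nonempty := ⟨0, Finset.mem_range.mpr hp.pos⟩
    obtain ⟨i, hi, hle⟩ := IsNonarchimedean.finset_image_add_of_nonempty hv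
      (fun i ↦ a ^ i * (-b) ^ (p - 1 - i)) hne
    refine hle.trans ?_
    rw [map_mul, map_pow, map_pow, fp_neg]
    have h1 : v a ≤ m := le_lmax₁ v a b c
    have h2 : v b ≤ m := le_lmax₂ v a b c
    have h3 : i + (p - 1 - i) = p - 1 := by
      have := Finset.mem_range.mp hi
      lia
    calc v a ^ i * v b ^ (p - 1 - i) ≤ m ^ i * m ^ (p - 1 - i) := by
          gcongr
      _ = m ^ (p - 1) := by rw [← pow_add, h3]
  have hcp : v c ^ p = v (a + b) * v (phi p a b) := by
    rw [← map_mul, add_mul_phi hodd, ← map_pow]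
    have : c ^ p = -(a ^ p + b ^ p) := by linear_combination h
    rw [this, fp_neg]
  have hcm : v c < m := by
    have h1 : v c ^ p < m ^ p := by
      rw [hcp]
      calc v (a + b) * v (phi p a b) ≤ v (a + b) * m ^ (p - 1) := by gcongr
        _ < m * m ^ (p - 1) := by
          have : 0 < m ^ (p - 1) := by positivity
          nlinarith
        _ = m ^ p := by
          rw [← pow_succ']
          congr 1
          have := hp.pos
          lia
    exact lt_of_pow_lt_pow_left₀ p hm.le h1
  -- `v b = m`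
  have hbm : v b = m := by
    have h1 : m ≤ max (v a) (v b) := by
      rw [hmdef, lmax]
      rw [hmdef, lmax] at hcm
      rcases max_choice (v b) (v c) with h2 | h2
      · rw [h2]
      · rw [h2] at hcm ⊢
        rcases max_choice (v a) (v c) with h3 | h3
        · rw [h3]
          exact le_max_left _ _
        · rw [h3] at hcm
          exact absurd hcm (lt_irrefl _)
    rcases le_total (v a) (v b) with h2 | h2
    · rw [max_eq_right h2] at h1
      exact le_antisymm (le_lmax₂ v a b c) h1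
    · rw [max_eq_left h2] at h1
      have ham : v a = m := le_antisymm (le_lmax₁ v a b c) h1
      by_contra hcon
      have hblt : v b < m := lt_of_le_of_ne (le_lmax₂ v a b c) hcon
      have h3 : v a ≤ max (v (a + b)) (v (-b)) := by
        have := fp_add_le v (a + b) (-b)
        rwa [add_neg_cancel_right] at this
      rw [fp_neg, ham] at h3
      exact absurd h3 (not_le.mpr (max_lt hlt hblt))
  have hb0 : b ≠ 0 := by
    rw [← FinitePlace.pos_iff (w := v), hbm]
    exact hm
  have hdiv : ∀ x : K, v x ≤ m → v (x / b) ≤ 1 := by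
    intro x hx
    rw [map_div₀, hbm]
    exact div_le_one_of_le₀ hx hm.le
  have h' : (a / b) ^ p + (b / b) ^ p + (c / b) ^ p = 0 := by
    rw [div_pow, div_pow, div_pow, ← add_div, ← add_div, h, zero_div]
  have h1 := scaled_sum_le v hp h5 hd (a := a / b)
    (by rw [map_div₀, hbm, div_self hm.ne'] : v (b / b) = 1) (hdiv c (le_lmax₃ v a b c))
    (by rw [← add_div]; exact div_ne_zero hab0 hb0) h'
    (by rw [← add_div, map_div₀, hbm, div_lt_one hm]; exact hlt)
  rw [← add_div, map_div₀, hbm, div_le_iff₀ hm] at h1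
  linarith

end Pool.Agent.H93
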