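import Mathlib

set_option autoImplicit false

/-!
# Integral Padé approximants to `(1 + t) ^ (2 N + 1)`

We construct, for each `N`, integer polynomials `A, B, C` of degree at most `N` with
`X ^ (2N+1) * A - (1 + X) ^ (2N+1) * B + C = 0`, with coefficients of exponential size, and a
nonvanishing determinant.
-/

namespace Pool.Agent.H93

open Polynomial

/-- The `l¹`-norm of an integer polynomial. -/
noncomputable def l1 (P : ℤ[X]) : ℝ := P.sum fun _ c ↦ |(c : ℝ)|

theorem l1_eq_sum_range (P : ℤ[X]) {n : ℕ} (hn : P.natDegree < n) :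
    l1 P = ∑ i ∈ Finset.range n, |(P.coeff i : ℝ)| :=
  Polynomial.sum_over_range' P (fun _ ↦ by simp) n hn

theorem l1_nonneg (P : ℤ[X]) : 0 ≤ l1 P := Finset.sum_nonneg fun _ _ ↦ abs_nonneg _

theorem l1_add_le (P Q : ℤ[X]) : l1 (P + Q) ≤ l1 P + l1 Q := by
  set n := max P.natDegree Q.natDegree + 1
  rw [l1_eq_sum_range P (n := n) (by simp only [n]; lia),
    l1_eq_sum_range Q (n := n) (by simp only [n]; lia),
    l1_eq_sum_range (P + Q) (n := n) (Nat.lt_succ_of_le (natDegree_add_le P Q)),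
    ← Finset.sum_add_distrib]
  refine Finset.sum_le_sum fun i _ ↦ ?_
  rw [coeff_add]
  push_cast
  exact abs_add_le _ _

theorem l1_neg (P : ℤ[X]) : l1 (-P) = l1 P := by
  rw [l1_eq_sum_range P (n := P.natDegree + 1) (by lia),
    l1_eq_sum_range (-P) (n := P.natDegree + 1) (by rw [natDegree_neg]; lia)]
  simp

theorem l1_sub_le (P Q : ℤ[X]) : l1 (P - Q) ≤ l1 P + l1 Q := by
  rw [sub_eq_add_neg, ← l1_neg Q]
  exact l1_add_le P (-Q)

theorem l1_X_mul (P : ℤ[X]) : l1 (X * P) = l1 P := by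
  rw [l1_eq_sum_range P (n := P.natDegree + 1) (by lia),
    l1_eq_sum_range (X * P) (n := P.natDegree + 2) (by
      have := natDegree_mul_le (p := (X : ℤ[X])) (q := P)
      rw [natDegree_X] at this
      lia), Finset.sum_range_succ']
  simp [coeff_X_mul]

theorem l1_C_mul (a : ℤ) (P : ℤ[X]) : l1 (C a * P) = |(a : ℝ)| * l1 P := by
  rw [l1_eq_sum_range P (n := P.natDegree + 1) (by lia),
    l1_eq_sum_range (C a * P) (n := P.natDegree + 1)
      (Nat.lt_succ_of_le (natDegree_C_mul_le a P)), Finset.mul_sum]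
  refine Finset.sum_congr rfl fun i _ ↦ ?_
  rw [coeff_C_mul]
  push_cast
  exact abs_mul _ _

theorem l1_one_add_X_mul_le (P : ℤ[X]) : l1 ((1 + X) * P) ≤ 2 * l1 P := by
  rw [add_mul, one_mul]
  refine (l1_add_le _ _).trans ?_
  rw [l1_X_mul]
  linarith

theorem l1_derivative_le (P : ℤ[X]) {k : ℕ} (hk : P.natDegree ≤ k) :
    l1 (derivative P) ≤ k * l1 P := by
  rw [l1_eq_sum_range P (n := k + 1) (by lia),
    l1_eq_sum_range (derivative P) (n := k + 1)
      (by have := natDegree_derivative_le P; lia), Finset.mul_sum]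
  rw [Finset.sum_range_succ, Finset.sum_range_succ' (fun i ↦ (k : ℝ) * |(P.coeff i : ℝ)|)]
  refine add_le_add (Finset.sum_le_sum fun i hi ↦ ?_) ?_
  · rw [coeff_derivative]
    push_cast
    rw [abs_mul, mul_comm]
    have h1 : |((i : ℝ) + 1)| = (i : ℝ) + 1 := abs_of_nonneg (by positivity)
    rw [h1]
    have hi' : ((i : ℝ) + 1) ≤ k := by
      have := Finset.mem_range.mp hi
      exact_mod_cast this
    gcongr
  · rw [coeff_derivative, coeff_eq_zero_of_natDegree_lt (by lia)]
    simp only [Int.cast_zero, zero_mul, abs_zero]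
    positivity

/-- The polynomials obtained from `(1 + X) ^ (3N+1)` by applying the Euler operators
`X d/dX - (N + 1 + k)`. -/
noncomputable def gpol (N : ℕ) : ℕ → ℤ[X]
  | 0 => (1 + X) ^ (3 * N + 1)
  | k + 1 => X * derivative (gpol N k) - C ((N + 1 + k : ℕ) : ℤ) * gpol N k

theorem gpol_coeff (N k j : ℕ) : (gpol N k).coeff j =
    ((3 * N + 1).choose j : ℤ) * ∏ l ∈ Finset.range k, ((j : ℤ) - ((N + 1 + l : ℕ) : ℤ)) := by
  induction k with
  | zero =>
    simp only [gpol, Finset.range_zero, Finset.prod_empty, mul_one]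
    rw [add_comm, coeff_X_add_one_pow]
  | succ k ih =>
    rw [gpol, coeff_sub, coeff_C_mul, Finset.prod_range_succ, ih]
    cases j with
    | zero =>
      simp only [mul_coeff_zero, coeff_X_zero, zero_mul, Nat.cast_zero]
      ring
    | succ j =>
      rw [coeff_X_mul, coeff_derivative, ih]
      push_cast
      ring

theorem natDegree_gpol_le (N k : ℕ) : (gpol N k).natDegree ≤ 3 * N + 1 := by
  rw [natDegree_le_iff_coeff_eq_zero]
  intro j hj
  rw [gpol_coeff, Nat.choose_eq_zero_of_lt hj]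
  simp

theorem l1_one_add_X_pow_le (m : ℕ) : l1 ((1 + X) ^ m) ≤ 2 ^ m := by
  induction m with
  | zero =>
    rw [pow_zero, pow_zero, l1_eq_sum_range 1 (n := 1) (by simp)]
    simp
  | succ m ih =>
    rw [pow_succ', pow_succ']
    exact (l1_one_add_X_mul_le _).trans (by gcongr)

theorem l1_gpol_le (N k : ℕ) (hk : k ≤ N) :
    l1 (gpol N k) ≤ 2 ^ (3 * N + 1) * (5 * N + 1 : ℝ) ^ k := by
  induction k with
  | zero => simpa [gpol] using l1_one_add_X_pow_le (3 * N + 1)
  | succ k ih =>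
    have ih := ih (by lia)
    rw [gpol]
    refine (l1_sub_le _ _).trans ?_
    rw [l1_X_mul, l1_C_mul]
    have h1 := l1_derivative_le (gpol N k) (natDegree_gpol_le N k)
    have h2 : |(((N + 1 + k : ℕ) : ℤ) : ℝ)| ≤ 2 * N := by
      rw [Int.cast_natCast, abs_of_nonneg (by positivity)]
      have : N + 1 + k ≤ 2 * N := by lia
      exact_mod_cast this
    have h0 := l1_nonneg (gpol N k)
    calc l1 (derivative (gpol N k)) + |(((N + 1 + k : ℕ) : ℤ) : ℝ)| * l1 (gpol N k)
        ≤ ((3 * N + 1 : ℕ) : ℝ) * l1 (gpol N k) + 2 * N * l1 (gpol N k) := by gcongr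
      _ = (5 * N + 1) * l1 (gpol N k) := by push_cast; ring
      _ ≤ (5 * N + 1) * (2 ^ (3 * N + 1) * (5 * N + 1 : ℝ) ^ k) := by gcongr
      _ = _ := by ring

theorem natDegree_one_add_X_le : (1 + X : ℤ[X]).natDegree ≤ 1 := by
  compute_degree

theorem monic_one_add_X : (1 + X : ℤ[X]).Monic := by
  rw [add_comm]
  exact monic_X_add_C (1 : ℤ)

theorem gpol_factor (N k : ℕ) (hk : k ≤ N) : ∃ h : ℤ[X], gpol N k = (1 + X) ^ (3 * N + 1 - k) * h ∧
    h.natDegree ≤ k ∧ l1 h ≤ (9 * N + 1 : ℝ) ^ k := by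
  induction k with
  | zero =>
    refine ⟨1, by simp [gpol], by simp, ?_⟩
    rw [l1_eq_sum_range 1 (n := 1) (by simp)]
    simp
  | succ k ih =>
    obtain ⟨h, hh, hdeg, hl1⟩ := ih (by lia)
    have hm : 3 * N + 1 - k = (3 * N + 1 - (k + 1)) + 1 := by lia
    refine ⟨C ((3 * N + 1 - k : ℕ) : ℤ) * (X * h) + X * ((1 + X) * derivative h)
      - C ((N + 1 + k : ℕ) : ℤ) * ((1 + X) * h), ?_, ?_, ?_⟩
    · rw [gpol, hh]
      set m := 3 * N + 1 - (k + 1) with hmdef
      rw [hm]
      rw [derivative_mul, derivative_pow]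
      simp only [derivative_add, derivative_one, derivative_X, zero_add, mul_one,
        Nat.add_sub_cancel]
      push_cast
      ring
    · refine (natDegree_sub_le _ _).trans (max_le ((natDegree_add_le _ _).trans (max_le ?_ ?_)) ?_)
      · refine (natDegree_C_mul_le _ _).trans (natDegree_mul_le.trans ?_)
        rw [natDegree_X]; lia
      · refine natDegree_mul_le.trans ?_
        have h1 : ((1 + X) * derivative h).natDegree ≤ 1 + (k - 1) := by
          refine natDegree_mul_le.trans ?_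
          have h2 := natDegree_one_add_X_le
          have h3 := natDegree_derivative_le h
          lia
        by_cases hk0 : k = 0
        · subst hk0
          have : derivative h = 0 := derivative_of_natDegree_zero (by lia)
          rw [this]; simp
        · rw [natDegree_X]; lia
      · refine (natDegree_C_mul_le _ _).trans (natDegree_mul_le.trans ?_)
        have h2 := natDegree_one_add_X_le
        lia
    · have h0 := l1_nonneg h
      have e1 : l1 (C ((3 * N + 1 - k : ℕ) : ℤ) * (X * h)) ≤ (3 * N + 1) * l1 h := by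
        rw [l1_C_mul, l1_X_mul, Int.cast_natCast, abs_of_nonneg (by positivity)]
        have : ((3 * N + 1 - k : ℕ) : ℝ) ≤ 3 * N + 1 := by
          have : 3 * N + 1 - k ≤ 3 * N + 1 := Nat.sub_le _ _
          exact_mod_cast this
        gcongr
      have e2 : l1 (X * ((1 + X) * derivative h)) ≤ 2 * (N * l1 h) := by
        rw [l1_X_mul]
        refine (l1_one_add_X_mul_le _).trans ?_
        have := l1_derivative_le h (hdeg.trans (by lia : k ≤ N))
        gcongr
      have e3 : l1 (C ((N + 1 + k : ℕ) : ℤ) * ((1 + X) * h)) ≤ 2 * N * (2 * l1 h) := by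
        rw [l1_C_mul, Int.cast_natCast, abs_of_nonneg (by positivity)]
        have h5 : ((N + 1 + k : ℕ) : ℝ) ≤ 2 * N := by
          have : N + 1 + k ≤ 2 * N := by lia
          exact_mod_cast this
        have := l1_one_add_X_mul_le h
        have h6 := l1_nonneg ((1 + X) * h)
        gcongr
      calc _ ≤ l1 (C ((3 * N + 1 - k : ℕ) : ℤ) * (X * h) + X * ((1 + X) * derivative h))
            + l1 (C ((N + 1 + k : ℕ) : ℤ) * ((1 + X) * h)) := l1_sub_le _ _
        _ ≤ (l1 (C ((3 * N + 1 - k : ℕ) : ℤ) * (X * h)) + l1 (X * ((1 + X) * derivative h)))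
            + l1 (C ((N + 1 + k : ℕ) : ℤ) * ((1 + X) * h)) := by
              gcongr
              exact l1_add_le _ _
        _ ≤ (3 * N + 1) * l1 h + 2 * (N * l1 h) + 2 * N * (2 * l1 h) := by gcongr
        _ = (9 * N + 1) * l1 h := by ring
        _ ≤ (9 * N + 1) * (9 * N + 1 : ℝ) ^ k := by gcongr
        _ = _ := by ring

/-- `gpol N N` divided by `N!`. -/
theorem exists_Fpol (N : ℕ) : ∃ F : ℤ[X], gpol N N = C ((N.factorial : ℕ) : ℤ) * F := by
  rw [← dvd_iff_exists_eq_mul_right (a := C ((N.factorial : ℕ) : ℤ)) (b := gpol N N),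
    C_dvd_iff_dvd_coeff]
  intro j
  rw [gpol_coeff]
  refine Dvd.dvd.mul_left ?_ _
  have h := Ring.descPochhammer_eq_factorial_smul_choose ((j : ℤ) - (N + 1)) N
  have h2 : ∏ l ∈ Finset.range N, ((j : ℤ) - ((N + 1 + l : ℕ) : ℤ)) =
      (descPochhammer ℤ N).smeval ((j : ℤ) - (N + 1)) := by
    rw [← Polynomial.eval_eq_smeval, descPochhammer_eval_eq_prod_range]
    refine Finset.prod_congr rfl fun l _ ↦ ?_
    push_cast
    ring
  rw [h2, h, nsmul_eq_mul]
  exact dvd_mul_right _ _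

/-- The (existence of the) integral Padé polynomials. -/
theorem exists_pade (N : ℕ) (hN : 1 ≤ N) : ∃ A B C' : ℤ[X],
    A.natDegree ≤ N ∧ B.natDegree ≤ N ∧ C'.natDegree ≤ N ∧
    l1 A ≤ 2 ^ (3 * N + 1) * (5 * N + 1 : ℝ) ^ N / N.factorial ∧
    l1 B ≤ (9 * N + 1 : ℝ) ^ N / N.factorial ∧
    l1 C' ≤ 2 ^ (3 * N + 1) * (5 * N + 1 : ℝ) ^ N / N.factorial ∧
    B.coeff N ≠ 0 ∧ C'.coeff N ≠ 0 ∧
    (1 + X) ^ (2 * N + 1) * B = C' + X ^ (2 * N + 1) * A := by
  obtain ⟨F, hF⟩ := exists_Fpol N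
  obtain ⟨h, hh, hdeg, hl1⟩ := gpol_factor N N le_rfl
  have hexp : 3 * N + 1 - N = 2 * N + 1 := by lia
  rw [hexp] at hh
  have hfac : (0 : ℝ) < N.factorial := by exact_mod_cast N.factorial_pos
  have hfacZ : ((N.factorial : ℕ) : ℤ) ≠ 0 := by exact_mod_cast N.factorial_ne_zero
  have hCne : (C ((N.factorial : ℕ) : ℤ) : ℤ[X]) ≠ 0 := by
    rw [Ne, C_eq_zero]; exact hfacZ
  have hmonic : ((1 + X : ℤ[X]) ^ (2 * N + 1)).Monic := monic_one_add_X.pow _
  -- `(1 + X) ^ (2N+1)` divides `F`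
  have hdvd : (1 + X : ℤ[X]) ^ (2 * N + 1) ∣ F := by
    rw [← modByMonic_eq_zero_iff_dvd hmonic]
    have h1 : (C ((N.factorial : ℕ) : ℤ) * F) %ₘ ((1 + X : ℤ[X]) ^ (2 * N + 1)) = 0 := by
      rw [modByMonic_eq_zero_iff_dvd hmonic, ← hF, hh]
      exact dvd_mul_right _ _
    rw [← smul_eq_C_mul, smul_modByMonic] at h1
    exact (smul_eq_zero.mp h1).resolve_left hfacZ
  obtain ⟨B, hB⟩ := hdvd
  have hBh : C ((N.factorial : ℕ) : ℤ) * B = h := by
    have h1 : (1 + X : ℤ[X]) ^ (2 * N + 1) * (C ((N.factorial : ℕ) : ℤ) * B) =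
        (1 + X : ℤ[X]) ^ (2 * N + 1) * h := by
      rw [← hh, hF, hB]; ring
    exact mul_left_cancel₀ hmonic.ne_zero h1
  have hBdeg : B.natDegree ≤ N := by
    rw [← hBh, natDegree_C_mul hfacZ] at hdeg
    exact hdeg
  have hBl1 : l1 B ≤ (9 * N + 1 : ℝ) ^ N / N.factorial := by
    rw [le_div_iff₀ hfac]
    rw [← hBh, l1_C_mul, Int.cast_natCast, abs_of_pos hfac] at hl1
    linarith
  have hFl1 : l1 F ≤ 2 ^ (3 * N + 1) * (5 * N + 1 : ℝ) ^ N / N.factorial := by
    rw [le_div_iff₀ hfac]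
    have := l1_gpol_le N N le_rfl
    rw [hF, l1_C_mul, Int.cast_natCast, abs_of_pos hfac] at this
    linarith
  have hFdeg : F.natDegree ≤ 3 * N + 1 := by
    have := natDegree_gpol_le N N
    rwa [hF, natDegree_C_mul hfacZ] at this
  have hFcoeff : ∀ j, ((N.factorial : ℕ) : ℤ) * F.coeff j =
      ((3 * N + 1).choose j : ℤ) * ∏ l ∈ Finset.range N, ((j : ℤ) - ((N + 1 + l : ℕ) : ℤ)) := by
    intro j
    rw [← gpol_coeff, hF, coeff_C_mul]
  have hFzero : ∀ j, N < j → j < 2 * N + 1 → F.coeff j = 0 := by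
    intro j hj1 hj2
    have h1 := hFcoeff j
    have h2 : ∏ l ∈ Finset.range N, ((j : ℤ) - ((N + 1 + l : ℕ) : ℤ)) = 0 := by
      refine Finset.prod_eq_zero (i := j - (N + 1)) (Finset.mem_range.mpr (by lia)) ?_
      have : N + 1 + (j - (N + 1)) = j := by lia
      rw [this, sub_self]
    rw [h2, mul_zero] at h1
    exact (mul_eq_zero.mp h1).resolve_left hfacZ
  set A : ℤ[X] := ∑ i ∈ Finset.range (N + 1), monomial i (F.coeff (2 * N + 1 + i)) with hA
  set C' : ℤ[X] := ∑ i ∈ Finset.range (N + 1), monomial i (F.coeff i) with hC'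
  have hAcoeff : ∀ i, A.coeff i = if i < N + 1 then F.coeff (2 * N + 1 + i) else 0 := by
    intro i
    rw [hA, finsetSum_coeff]
    simp only [coeff_monomial]
    rw [Finset.sum_ite_eq' (Finset.range (N + 1)) i]
    simp only [Finset.mem_range]
  have hC'coeff : ∀ i, C'.coeff i = if i < N + 1 then F.coeff i else 0 := by
    intro i
    rw [hC', finsetSum_coeff]
    simp only [coeff_monomial]
    rw [Finset.sum_ite_eq' (Finset.range (N + 1)) i]
    simp only [Finset.mem_range]
  have hAdeg : A.natDegree ≤ N := by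
    rw [natDegree_le_iff_coeff_eq_zero]
    intro i hi
    rw [hAcoeff, if_neg (by lia)]
  have hC'deg : C'.natDegree ≤ N := by
    rw [natDegree_le_iff_coeff_eq_zero]
    intro i hi
    rw [hC'coeff, if_neg (by lia)]
  have hFl1' : l1 F = ∑ i ∈ Finset.range (3 * N + 2), |(F.coeff i : ℝ)| :=
    l1_eq_sum_range F (by lia)
  have hC'l1 : l1 C' ≤ l1 F := by
    rw [hFl1', l1_eq_sum_range C' (n := N + 1) (by lia)]
    calc ∑ i ∈ Finset.range (N + 1), |(C'.coeff i : ℝ)|
        = ∑ i ∈ Finset.range (N + 1), |(F.coeff i : ℝ)| := by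
          refine Finset.sum_congr rfl fun i hi ↦ ?_
          rw [hC'coeff, if_pos (Finset.mem_range.mp hi)]
      _ ≤ _ := Finset.sum_le_sum_of_subset_of_nonneg
          (Finset.range_subset_range.mpr (by lia)) fun _ _ _ ↦ abs_nonneg _
  have hAl1 : l1 A ≤ l1 F := by
    rw [hFl1', l1_eq_sum_range A (n := N + 1) (by lia)]
    calc ∑ i ∈ Finset.range (N + 1), |(A.coeff i : ℝ)|
        = ∑ i ∈ Finset.range (N + 1), |(F.coeff (2 * N + 1 + i) : ℝ)| := by
          refine Finset.sum_congr rfl fun i hi ↦ ?_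
          rw [hAcoeff, if_pos (Finset.mem_range.mp hi)]
      _ = ∑ i ∈ (Finset.range (N + 1)).image (fun i ↦ 2 * N + 1 + i), |(F.coeff i : ℝ)| := by
          rw [Finset.sum_image (fun a _ b _ hab ↦ by simpa using hab)]
      _ ≤ _ := by
          refine Finset.sum_le_sum_of_subset_of_nonneg ?_ fun _ _ _ ↦ abs_nonneg _
          intro i hi
          rw [Finset.mem_image] at hi
          obtain ⟨j, hj, rfl⟩ := hi
          rw [Finset.mem_range] at hj ⊢
          lia
  refine ⟨A, B, C', hAdeg, hBdeg, hC'deg, hAl1.trans hFl1, hBl1, hC'l1.trans hFl1, ?_, ?_, ?_⟩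
  · -- `B.coeff N ≠ 0`
    have h1 : F.coeff ((2 * N + 1) + N) = B.coeff N := by
      rw [hB]
      have hd : ((1 + X : ℤ[X]) ^ (2 * N + 1)).natDegree ≤ 2 * N + 1 :=
        (natDegree_pow_le_of_le _ natDegree_one_add_X_le).trans (by lia)
      rw [coeff_mul_add_eq_of_natDegree_le hd hBdeg]
      have h2 : ((1 + X : ℤ[X]) ^ (2 * N + 1)).coeff (2 * N + 1) = 1 := by
        rw [add_comm, coeff_X_add_one_pow, Nat.choose_self, Nat.cast_one]
      rw [h2, one_mul]
    rw [← h1]
    intro h0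
    have h2 := hFcoeff (2 * N + 1 + N)
    rw [h0, mul_zero] at h2
    have h3 : 2 * N + 1 + N = 3 * N + 1 := by ring
    rw [h3, Nat.choose_self, Nat.cast_one, one_mul] at h2
    have h4 : ∏ l ∈ Finset.range N, (((3 * N + 1 : ℕ) : ℤ) - ((N + 1 + l : ℕ) : ℤ)) ≠ 0 := by
      rw [Finset.prod_ne_zero_iff]
      intro l hl
      rw [Finset.mem_range] at hl
      have : N + 1 + l < 3 * N + 1 := by lia
      have : ((N + 1 + l : ℕ) : ℤ) < ((3 * N + 1 : ℕ) : ℤ) := by exact_mod_cast this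
      lia
    exact h4 h2.symm
  · rw [hC'coeff, if_pos (by lia)]
    intro h0
    have h2 := hFcoeff N
    rw [h0, mul_zero] at h2
    have h4 : ∏ l ∈ Finset.range N, ((N : ℤ) - ((N + 1 + l : ℕ) : ℤ)) ≠ 0 := by
      rw [Finset.prod_ne_zero_iff]
      intro l hl
      push_cast
      lia
    have h5 : ((3 * N + 1).choose N : ℤ) ≠ 0 := by
      have := Nat.choose_pos (show N ≤ 3 * N + 1 by lia)
      exact_mod_cast this.ne'
    exact (mul_ne_zero h5 h4) h2.symm
  · rw [← hB]
    ext j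
    rw [coeff_add, coeff_X_pow_mul', hC'coeff]
    by_cases h1 : j < N + 1
    · rw [if_pos h1, if_neg (by lia), add_zero]
    · rw [if_neg h1, zero_add]
      by_cases h2 : 2 * N + 1 ≤ j
      · rw [if_pos h2, hAcoeff]
        by_cases h3 : j - (2 * N + 1) < N + 1
        · rw [if_pos h3]
          congr 1
          lia
        · rw [if_neg h3]
          exact coeff_eq_zero_of_natDegree_lt (by lia)
      · rw [if_neg h2]
        exact hFzero j (by lia) (by lia)

end Pool.Agent.H93
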