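import Pool.Agent.H93.PadeHeight

set_option autoImplicit false

/-!
# The line `a + b + c = 0` carries no nontrivial Fermat points of large exponent
-/

namespace Pool.Agent.H93

open NumberField Height Function

variable {K : Type*} [Field K] [NumberField K]

/-- If `|t| = 1` and `|1 + t| = 1` then `t ^ 2 + t + 1 = 0`. -/
theorem sq_add_self_add_one_eq_zero {z : ℂ} (h1 : ‖z‖ = 1) (h2 : ‖1 + z‖ = 1) :
    z ^ 2 + z + 1 = 0 := by
  have e1 : z.re * z.re + z.im * z.im = 1 := by
    have := Complex.sq_norm z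
    rw [h1, Complex.normSq_apply] at this
    linarith
  have e2 : (1 + z.re) * (1 + z.re) + z.im * z.im = 1 := by
    have := Complex.sq_norm (1 + z)
    rw [h2, Complex.normSq_apply] at this
    simp only [Complex.add_re, Complex.one_re, Complex.add_im, Complex.one_im, zero_add] at this
    linarith
  have e3 : z.re = -1 / 2 := by nlinarith
  apply Complex.ext
  · simp only [pow_two, Complex.add_re, Complex.mul_re, Complex.one_re, Complex.zero_re]
    rw [e3] at e1 ⊢
    linarith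
  · simp only [pow_two, Complex.add_im, Complex.mul_im, Complex.one_im, Complex.zero_im]
    rw [e3]
    ring

theorem norm_eq_one_of_mulHeight₁_eq_one {t : K} (ht : t ≠ 0) (h : mulHeight₁ t = 1)
    (φ : K →+* ℂ) : ‖φ t‖ = 1 := by
  have hfin := NumberField.finite_setOfPred_mulHeight₁_le (K := K) 1
  have hmem : ∀ k : ℕ, t ^ k ∈ {x : K | mulHeight₁ x ≤ 1} := by
    intro k
    simp only [Set.mem_ofPred_eq]
    rw [mulHeight₁_pow, h, one_pow]
  obtain ⟨i, -, j, -, hij, heq⟩ := Set.infinite_univ.exists_ne_map_eq_of_mapsTo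
    (f := fun k : ℕ ↦ t ^ k) (fun k _ ↦ hmem k) hfin
  have key : ∀ i j : ℕ, i < j → t ^ i = t ^ j → ‖φ t‖ = 1 := by
    intro i j hlt heq
    have h1 : t ^ (j - i) = 1 := by
      have h2 : t ^ j = t ^ i * t ^ (j - i) := by rw [← pow_add]; congr 1; lia
      rw [h2] at heq
      have h3 : t ^ i ≠ 0 := pow_ne_zero i ht
      exact (mul_right_cancel₀ h3 (by rw [one_mul, mul_comm]; exact heq)).symm
    have h4 : ‖φ t‖ ^ (j - i) = 1 := by
      rw [← norm_pow, ← map_pow, h1, map_one, norm_one]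
    exact (pow_eq_one_iff_of_nonneg (norm_nonneg _) (by lia)).mp h4
  rcases lt_or_gt_of_ne hij with h1 | h1
  · exact key i j h1 heq
  · exact key j i h1 heq.symm

/-- If `(t : 1 + t : 1)` has height one then `t` is a primitive cube root of unity. -/
theorem isPrimitiveRoot_of_mulHeight_eq_one {t : K} (ht : t ≠ 0) (ht1 : 1 + t ≠ 0)
    (h : mulHeight ![t, -(1 + t), 1] = 1) : IsPrimitiveRoot t 3 := by
  have h1 : mulHeight₁ t = 1 := by
    refine le_antisymm ?_ (one_le_mulHeight₁ t)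
    rw [← h, mulHeight₁_eq_mulHeight]
    have := mulHeight_comp_le (K := K) (![0, 2] : Fin 2 → Fin 3) ![t, -(1 + t), 1]
    refine le_trans (le_of_eq ?_) this
    congr 1
    ext i
    fin_cases i <;> rfl
  have h2 : mulHeight₁ (1 + t) = 1 := by
    refine le_antisymm ?_ (one_le_mulHeight₁ _)
    rw [← h, ← mulHeight₁_neg, mulHeight₁_eq_mulHeight]
    have := mulHeight_comp_le (K := K) (![1, 2] : Fin 2 → Fin 3) ![t, -(1 + t), 1]
    refine le_trans (le_of_eq ?_) this
    congr 1
    ext i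
    fin_cases i <;> rfl
  obtain ⟨φ⟩ : Nonempty (K →+* ℂ) := inferInstance
  have h3 := norm_eq_one_of_mulHeight₁_eq_one ht h1 φ
  have h4 := norm_eq_one_of_mulHeight₁_eq_one ht1 h2 φ
  rw [map_add, map_one] at h4
  have h5 := sq_add_self_add_one_eq_zero h3 h4
  have h6 : t ^ 2 + t + 1 = 0 := by
    apply φ.injective
    rw [map_add, map_add, map_pow, map_one, map_zero]
    exact h5
  rw [IsPrimitiveRoot.iff_orderOf]
  have : Fact (Nat.Prime 3) := ⟨Nat.prime_three⟩
  refine orderOf_eq_prime ?_ ?_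
  · linear_combination (t - 1) * h6
  · rintro rfl
    have : (3 : K) = 0 := by linear_combination h6
    exact absurd this (by norm_num)

/-- Gap principle: two Fermat relations for the same point force its height to be small. -/
theorem gap {x : Fin 3 → K} (hx : ∀ i, x i ≠ 0) {p q : ℕ} (hp : 0 < p) (hq : 8 * p ≤ q)
    (h1 : x 0 ^ p + x 1 ^ p + x 2 ^ p = 0) (h2 : x 0 ^ q + x 1 ^ q + x 2 ^ q = 0) :
    mulHeight x ^ p ≤ (7000 : ℝ) ^ (3 * Module.finrank ℚ K) := by
  set d := Module.finrank ℚ K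
  obtain ⟨N, r, hN, hr, hqr⟩ : ∃ N r : ℕ, 3 ≤ N ∧ r ≤ 2 * p ∧ q = (2 * N + 1) * p + r := by
    have hm : 8 ≤ q / p := (Nat.le_div_iff_mul_le hp).mpr hq
    have hdm := Nat.div_add_mod q p
    have hlt := Nat.mod_lt q hp
    set m := q / p with hmdef
    set s := q % p with hsdef
    rcases Nat.even_or_odd' m with ⟨k, hk | hk⟩
    · refine ⟨k - 1, p + s, by lia, by lia, ?_⟩
      have : m = (2 * (k - 1) + 1) + 1 := by lia
      rw [← hdm, this]
      ring
    · refine ⟨k, s, by lia, by lia, ?_⟩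
      rw [← hdm, hk]
      ring
  have hX : ∀ i, (x ^ p) i ≠ 0 := fun i ↦ pow_ne_zero p (hx i)
  have hξ : x ^ r ≠ 0 := fun h0 ↦ pow_ne_zero r (hx 0) (congrFun h0 0)
  have h3 := pade_height (N := N) (by lia) (x := x ^ p) hX (by simpa using h1) (ξ := x ^ r) hξ
    (by
      simp only [Pi.pow_apply]
      rw [← pow_mul, ← pow_mul, ← pow_mul, ← pow_add, ← pow_add, ← pow_add]
      have : r + p * (2 * N + 1) = q := by rw [hqr]; ring
      rw [this]
      exact h2)
  rw [mulHeight_pow, mulHeight_pow] at h3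
  have hH : 1 ≤ mulHeight x := one_le_mulHeight x
  have hH0 : 0 < mulHeight x := mulHeight_pos x
  obtain ⟨M, rfl⟩ : ∃ M, N = M + 3 := ⟨N - 3, by lia⟩
  have h4 : mulHeight x ^ r ≤ mulHeight x ^ (2 * p) := pow_le_pow_right₀ hH hr
  have h5 : (mulHeight x ^ p) ^ (M + 3) = (mulHeight x ^ p) ^ (M + 1) * mulHeight x ^ (2 * p) := by
    rw [← pow_mul, ← pow_mul, ← pow_add]
    congr 1
    ring
  have h6 : (mulHeight x ^ p) ^ (M + 1) * mulHeight x ^ (2 * p) ≤
      (((7000 : ℝ) ^ (3 * d)) ^ (M + 1)) * mulHeight x ^ (2 * p) := by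
    rw [← h5]
    refine h3.trans ?_
    have h7 : ((7000 : ℝ) ^ (M + 3)) ^ d ≤ ((7000 : ℝ) ^ (3 * d)) ^ (M + 1) := by
      rw [← pow_mul, ← pow_mul]
      refine pow_le_pow_right₀ (by norm_num) ?_
      nlinarith
    exact mul_le_mul h7 h4 (by positivity) (by positivity)
  have h8 : (mulHeight x ^ p) ^ (M + 1) ≤ ((7000 : ℝ) ^ (3 * d)) ^ (M + 1) :=
    le_of_mul_le_mul_right h6 (by positivity)
  exact le_of_pow_le_pow_left₀ (by lia) (by positivity) h8

/-- For a fixed point on the line `a + b + c = 0`, only finitely many exponents. -/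
theorem finite_exponents (hω : ¬ ∃ ω : K, IsPrimitiveRoot ω 3) {t : K} (ht : t ≠ 0)
    (ht1 : 1 + t ≠ 0) : {p : ℕ | t ^ p + (-(1 + t)) ^ p + 1 ^ p = 0}.Finite := by
  by_contra hinf
  rw [← Set.Infinite] at hinf
  set x : Fin 3 → K := ![t, -(1 + t), 1] with hx
  have hx0 : ∀ i, x i ≠ 0 := by
    intro i
    fin_cases i
    · exact ht
    · exact neg_ne_zero.mpr ht1
    · exact one_ne_zero
  refine hω ⟨t, isPrimitiveRoot_of_mulHeight_eq_one ht ht1 ?_⟩
  rw [← hx]
  by_contra hne
  have hlt : 1 < mulHeight x := lt_of_le_of_ne (one_le_mulHeight x) (Ne.symm hne)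
  obtain ⟨n, hn⟩ := pow_unbounded_of_one_lt ((7000 : ℝ) ^ (3 * Module.finrank ℚ K)) hlt
  obtain ⟨p, hp, hpn⟩ := hinf.exists_gt n
  obtain ⟨q, hq, hqn⟩ := hinf.exists_gt (8 * p)
  have h1 := gap hx0 (p := p) (q := q) (by lia) hqn.le hp hq
  have h2 : mulHeight x ^ n ≤ mulHeight x ^ p := pow_le_pow_right₀ hlt.le hpn.le
  exact absurd (hn.trans_le (h2.trans h1)) (lt_irrefl _)

/-- **Asymptotic Fermat on the line `a + b + c = 0`.** -/
theorem sum_zero_line (hω : ¬ ∃ ω : K, IsPrimitiveRoot ω 3) : ∃ B : ℕ, ∀ p : ℕ, p.Prime → B < p →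
    ∀ a b c : K, a ≠ 0 → b ≠ 0 → c ≠ 0 → a + b + c = 0 → a ^ p + b ^ p + c ^ p ≠ 0 := by
  set d := Module.finrank ℚ K with hd
  set F : Set K := {t : K | mulHeight₁ t ≤ (7000 : ℝ) ^ d} with hF
  have hFfin : F.Finite := NumberField.finite_setOfPred_mulHeight₁_le (K := K) _
  set G : Set ℕ := ⋃ t ∈ F \ {0, -1}, {p : ℕ | t ^ p + (-(1 + t)) ^ p + 1 ^ p = 0} with hG
  have hGfin : G.Finite := by
    refine Set.Finite.biUnion (hFfin.subset Set.sdiff_subset) fun t ht ↦ ?_
    refine finite_exponents hω ?_ ?_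
    · intro h0
      exact ht.2 (by simp [h0])
    · intro h0
      have : t = -1 := by linear_combination h0
      exact ht.2 (by simp [this])
  obtain ⟨B, hB⟩ := hGfin.bddAbove
  refine ⟨max B 2, fun p hp hBp a b c ha hb hc hsum heq ↦ ?_⟩
  have hp3 : 3 ≤ p := by
    have : 2 < p := (le_max_right B 2).trans_lt hBp
    lia
  have hodd : Odd p := hp.odd_of_ne_two (by lia)
  obtain ⟨N, hN⟩ := hodd
  have hN1 : 1 ≤ N := by lia
  have h1 := pade_height (K := K) (N := N) hN1 (x := ![a, b, c])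
    (by
      intro i
      fin_cases i
      · exact ha
      · exact hb
      · exact hc)
    hsum (ξ := 1) one_ne_zero (by
      simp only [Pi.one_apply, one_mul]
      rw [← hN]
      exact heq)
  rw [mulHeight_one, mul_one, ← pow_mul, mul_comm N, pow_mul] at h1
  have h2 : mulHeight ![a, b, c] ≤ (7000 : ℝ) ^ d :=
    le_of_pow_le_pow_left₀ (by lia) (by positivity) h1
  have h3 : a / c ∈ F := by
    rw [hF, Set.mem_ofPred_eq, mulHeight₁_div_eq_mulHeight]
    refine le_trans ?_ h2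
    have := mulHeight_comp_le (K := K) (![0, 2] : Fin 2 → Fin 3) ![a, b, c]
    refine le_trans (le_of_eq ?_) this
    congr 1
    ext i
    fin_cases i <;> rfl
  have h4 : -(1 + a / c) = b / c := by
    field_simp
    linear_combination -hsum
  have h5 : p ∈ G := by
    rw [hG, Set.mem_iUnion₂]
    refine ⟨a / c, ⟨h3, ?_⟩, ?_⟩
    · rintro (h6 | h6)
      · exact div_ne_zero ha hc h6
      · rw [Set.mem_singleton_iff] at h6
        have : b / c = 0 := by rw [← h4, h6]; ring
        exact div_ne_zero hb hc this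
    · rw [Set.mem_ofPred_eq, h4, one_pow, div_pow, div_pow]
      have hcp : c ^ p ≠ 0 := pow_ne_zero p hc
      field_simp
      linear_combination heq
  have h6 : p ≤ B := hB h5
  exact absurd hBp (not_lt.mpr (h6.trans (le_max_left _ _)))

end Pool.Agent.H93
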