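import Pool.Agent.H93.Global

set_option autoImplicit false

namespace Pool.Agent.H93

open NumberField Height Function

variable {K : Type*} [Field K] [NumberField K]

/-- In the second alternative of the dichotomy, the pairwise sums differ by units `u, w` and
`1 + u + w = 2 s` where `s` is an algebraic integer. -/
theorem exists_units_of_local_eq {a b c : K} (ha : a ≠ 0)
    (hU : ∀ v : FinitePlace K, v (a + b) = lmax v a b c ∧ v (b + c) = lmax v a b c ∧
      v (c + a) = lmax v a b c) :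
    ∃ (u w : (𝓞 K)ˣ) (s : 𝓞 K), (a + b) = (c + a) * ((u : 𝓞 K) : K) ∧
      (b + c) = (c + a) * ((w : 𝓞 K) : K) ∧ a + b + c = (c + a) * (s : K) ∧
      (1 : 𝓞 K) + u + w = 2 * s := by
  obtain ⟨v₀⟩ : Nonempty (FinitePlace K) := by
    obtain ⟨P, hP⟩ := Ideal.exists_maximal (𝓞 K)
    exact ⟨FinitePlace.mk ⟨P, hP.isPrime, Ring.ne_bot_of_isMaximal_of_not_isField hP
      (RingOfIntegers.not_isField K)⟩⟩
  have hm : ∀ v : FinitePlace K, 0 < lmax v a b c := fun v ↦ lmax_pos v b c ha
  have hca : c + a ≠ 0 := by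
    rw [← FinitePlace.pos_iff (w := v₀), (hU v₀).2.2]
    exact hm v₀
  have hab : a + b ≠ 0 := by
    rw [← FinitePlace.pos_iff (w := v₀), (hU v₀).1]
    exact hm v₀
  have hbc : b + c ≠ 0 := by
    rw [← FinitePlace.pos_iff (w := v₀), (hU v₀).2.1]
    exact hm v₀
  obtain ⟨u, hu⟩ := exists_unit_of_finitePlace_eq_one (x := (a + b) / (c + a))
    (div_ne_zero hab hca) (fun v ↦ by
      rw [map_div₀, (hU v).1, (hU v).2.2, div_self (hm v).ne'])
  obtain ⟨w, hw⟩ := exists_unit_of_finitePlace_eq_one (x := (b + c) / (c + a))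
    (div_ne_zero hbc hca) (fun v ↦ by
      rw [map_div₀, (hU v).2.1, (hU v).2.2, div_self (hm v).ne'])
  obtain ⟨s, hs⟩ : ∃ s : 𝓞 K, (s : K) = (a + b + c) / (c + a) := by
    have : (a + b + c) / (c + a) ∈ (algebraMap (𝓞 K) K).range := by
      refine IsDedekindDomain.HeightOneSpectrum.mem_integers_of_valuation_le_one K _ fun P ↦ ?_
      have h1 : FinitePlace.mk P ((a + b + c) / (c + a)) ≤ 1 := by
        rw [map_div₀, (hU _).2.2, div_le_one (hm _)]
        exact (fp_add_le _ _ _).trans (max_le ((fp_add_le _ a b).trans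
          (max_le (le_lmax₁ _ a b c) (le_lmax₂ _ a b c))) (le_lmax₃ _ a b c))
      rw [FinitePlace.mk_apply, FinitePlace.norm_embedding'] at h1
      have hN := HeightOneSpectrum.one_lt_absNorm_nnreal P
      apply (WithZeroMulInt.toNNReal_le_one_iff hN).mp
      rw [← NNReal.coe_le_coe, NNReal.coe_one]
      exact h1
    obtain ⟨z, hz⟩ := this
    exact ⟨z, hz⟩
  refine ⟨u, w, s, ?_, ?_, ?_, ?_⟩
  · rw [hu]; field_simp
  · rw [hw]; field_simp
  · rw [hs]; field_simp
  · apply RingOfIntegers.ext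
    have h1 : (((1 : 𝓞 K) + u + w : 𝓞 K) : K) = 1 + ((u : 𝓞 K) : K) + ((w : 𝓞 K) : K) := by
      simp
    have h2 : ((2 * s : 𝓞 K) : K) = 2 * (s : K) := by
      rw [RingOfIntegers.coe_eq_algebraMap, map_mul, map_ofNat]
    rw [h1, h2, hu, hw, hs]
    field_simp
    ring

end Pool.Agent.H93
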